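import Mathlib

/-!
MP_120218_co, project LE (helper94): Balog-Szemeredi-Gowers for laws, with absolute powers
(note 2496, point 3).
-/

set_option autoImplicit false

namespace Pool.Agent.Helper94.LE

open Finset
open scoped Pointwise

section BSG

variable {G : Type*} [AddCommGroup G] [DecidableEq G]

theorem B_inj (s : Finset G) (g : G → ℝ) (h0 : ∀ x, 0 ≤ g x)
    (hs : ∀ x, x ∉ s → g x = 0) (U : Finset G) (φ : G → G) (hφ : Function.Injective φ) :
    ∑ u ∈ U, g (φ u) ≤ ∑ x ∈ s, g x := by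
  calc ∑ u ∈ U, g (φ u) = ∑ y ∈ U.image φ, g y := by
        rw [sum_image fun x _ y _ h => hφ h]
    _ ≤ ∑ y ∈ s ∪ U.image φ, g y :=
        sum_le_sum_of_subset_of_nonneg subset_union_right fun x _ _ => h0 x
    _ = ∑ y ∈ s, g y := (sum_subset subset_union_left fun x _ hx => hs x hx).symm

theorem B_full (s : Finset G) {x : G} (hx : x ∈ s) (g : G → ℝ)
    (hg : ∀ y, y ∉ s → g y = 0) : ∑ t ∈ s - s, g (x + t) = ∑ y ∈ s, g y := by
  calc ∑ t ∈ s - s, g (x + t) = ∑ y ∈ (s - s).image fun t => x + t, g y := by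
        rw [sum_image fun a _ b _ h => add_left_cancel h]
    _ = ∑ y ∈ s, g y := by
        symm
        refine sum_subset ?_ fun y _ hy => hg y hy
        intro y hy
        exact mem_image.mpr ⟨y - x, sub_mem_sub hy hx, by abel⟩

/-- The autocorrelation of `mu`. -/
noncomputable def Bρ (s : Finset G) (mu : G → ℝ) (t : G) : ℝ := ∑ x ∈ s, mu x * mu (x + t)

private theorem Bρ_nonneg (s : Finset G) (mu : G → ℝ) (h0 : ∀ x, 0 ≤ mu x) (t : G) :
    0 ≤ Bρ s mu t := sum_nonneg fun x _ => mul_nonneg (h0 x) (h0 _)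

private theorem Bρ_le (s : Finset G) (mu : G → ℝ) (hs : ∀ x, x ∉ s → mu x = 0) (t : G) :
    Bρ s mu t ≤ ∑ x ∈ s, mu x ^ 2 := by
  have h1 : ∑ x ∈ s, mu (x + t) ^ 2 ≤ ∑ x ∈ s, mu x ^ 2 :=
    B_inj s (fun x => mu x ^ 2) (fun x => sq_nonneg _) (fun x hx => by simp [hs x hx]) s
      (fun x => x + t) (add_left_injective t)
  have h2 : Bρ s mu t ≤ ∑ x ∈ s, (mu x ^ 2 + mu (x + t) ^ 2) / 2 :=
    sum_le_sum fun x _ => by nlinarith [sq_nonneg (mu x - mu (x + t))]
  rw [← sum_div, sum_add_distrib] at h2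
  linarith

private theorem Bρ_sum (s : Finset G) (mu : G → ℝ) (h0 : ∀ x, 0 ≤ mu x)
    (hs : ∀ x, x ∉ s → mu x = 0) (h1 : ∑ x ∈ s, mu x = 1) (U : Finset G) (φ : G → G)
    (hφ : Function.Injective φ) : ∑ u ∈ U, Bρ s mu (φ u) ≤ 1 := by
  unfold Bρ
  rw [sum_comm]
  calc ∑ x ∈ s, ∑ u ∈ U, mu x * mu (x + φ u) ≤ ∑ x ∈ s, mu x * 1 := by
        refine sum_le_sum fun x _ => ?_
        rw [← mul_sum]
        refine mul_le_mul_of_nonneg_left ?_ (h0 x)
        rw [← h1]
        exact B_inj s mu h0 hs U (fun u => x + φ u) fun a b h => hφ (add_left_cancel h)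
    _ = 1 := by simp only [mul_one]; exact h1

private theorem B_corr (s : Finset G) (mu f : G → ℝ) (hs : ∀ x, x ∉ s → mu x = 0)
    (κ : G → G → ℝ) :
    ∑ t ∈ s - s, ∑ x ∈ s, ∑ x' ∈ s, κ x x' * ((f x * mu (x + t)) * (f x' * mu (x' + t))) =
      ∑ x ∈ s, ∑ x' ∈ s, κ x x' * (f x * f x' * Bρ s mu (x - x')) := by
  rw [sum_comm]
  refine sum_congr rfl fun x _ => ?_
  rw [sum_comm]
  refine sum_congr rfl fun x' hx' => ?_
  have h := B_full s hx' (fun y => mu (y + (x - x')) * mu y) fun y hy => by simp [hs y hy]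
  calc ∑ t ∈ s - s, κ x x' * ((f x * mu (x + t)) * (f x' * mu (x' + t)))
      = κ x x' * (f x * f x' * ∑ t ∈ s - s, mu (x' + t + (x - x')) * mu (x' + t)) := by
        rw [mul_sum, mul_sum]
        refine sum_congr rfl fun t _ => ?_
        have : x' + t + (x - x') = x + t := by abel
        rw [this]
        ring
    _ = _ := by
        rw [h]
        unfold Bρ
        congr 2
        exact sum_congr rfl fun y _ => mul_comm _ _

theorem B_energy (s : Finset G) (mu : G → ℝ) (hs : ∀ x, x ∉ s → mu x = 0) :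
    ∑ t ∈ s - s, Bρ s mu t ^ 2 = ∑ x ∈ s, ∑ x' ∈ s, mu x * mu x' * Bρ s mu (x - x') := by
  calc ∑ t ∈ s - s, Bρ s mu t ^ 2
      = ∑ t ∈ s - s, ∑ x' ∈ s, mu x' * (Bρ s mu t * mu (x' + t)) := by
        refine sum_congr rfl fun t _ => ?_
        rw [sq]
        nth_rewrite 2 [Bρ]
        rw [mul_sum]
        exact sum_congr rfl fun x _ => by ring
    _ = ∑ x' ∈ s, mu x' * ∑ y ∈ s, Bρ s mu (y - x') * mu y := by
        rw [sum_comm]
        refine sum_congr rfl fun x' hx' => ?_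
        rw [← mul_sum]
        congr 1
        rw [← B_full s hx' (fun y => Bρ s mu (y - x') * mu y) fun y hy => by simp [hs y hy]]
        refine sum_congr rfl fun t _ => ?_
        have : x' + t - x' = t := by abel
        rw [this]
    _ = _ := by
        rw [sum_comm]
        refine sum_congr rfl fun x' _ => ?_
        rw [mul_sum]
        exact sum_congr rfl fun y _ => by ring

/-- The choice of the shift `t` in the proof of `bsg_law`. -/
private theorem B_choose (s : Finset G) (mu : G → ℝ) (h0 : ∀ x, 0 ≤ mu x)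
    (hs : ∀ x, x ∉ s → mu x = 0) (h1 : ∑ x ∈ s, mu x = 1) (K m : ℝ) (hK : 1 ≤ K)
    (hm : m = ∑ x ∈ s, mu x ^ 2) (hm0 : 0 < m)
    (hE : m / K ≤ ∑ t ∈ s - s, Bρ s mu t ^ 2) (f : G → ℝ)
    (hf : ∀ x, f x = if mu x ≤ 4 * K * m then mu x else 0) :
    ∃ t : G, m / (4 * K) ≤ ∑ x ∈ s, f x * mu (x + t) ∧
      16 * ∑ x ∈ s, ∑ x' ∈ s, (if Bρ s mu (x - x') < m / (64 * K) then (1 : ℝ) else 0) *
        ((f x * mu (x + t)) * (f x' * mu (x' + t))) ≤ (∑ x ∈ s, f x * mu (x + t)) ^ 2 := by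
  have hK0 : 0 < K := by linarith
  have hf0 : ∀ x, 0 ≤ f x := fun x => by
    rw [hf]
    split_ifs
    · exact h0 x
    · exact le_refl 0
  have hfmu : ∀ x, f x ≤ mu x := fun x => by
    rw [hf]
    split_ifs
    · exact le_refl _
    · exact h0 x
  set c : ℝ := m / (64 * K) with hc
  have hc0 : 0 < c := by positivity
  set W : G → ℝ := fun t => ∑ x ∈ s, f x * mu (x + t) with hW
  set Bd : G → ℝ := fun t => ∑ x ∈ s, ∑ x' ∈ s,
    (if Bρ s mu (x - x') < c then (1 : ℝ) else 0) *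
      ((f x * mu (x + t)) * (f x' * mu (x' + t))) with hBd
  have hW0 : ∀ t, 0 ≤ W t := fun t => sum_nonneg fun x _ => mul_nonneg (hf0 x) (h0 _)
  have hBd0 : ∀ t, 0 ≤ Bd t := fun t => sum_nonneg fun x _ => sum_nonneg fun x' _ =>
    mul_nonneg (by split_ifs <;> norm_num)
      (mul_nonneg (mul_nonneg (hf0 x) (h0 _)) (mul_nonneg (hf0 x') (h0 _)))
  -- the sum of the squares of the `W t`
  have hWsq : ∑ t ∈ s - s, W t ^ 2 = ∑ x ∈ s, ∑ x' ∈ s, f x * f x' * Bρ s mu (x - x') := by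
    have := B_corr s mu f hs fun _ _ => 1
    simp only [one_mul] at this
    rw [← this]
    refine sum_congr rfl fun t _ => ?_
    rw [sq, hW]
    simp only
    rw [sum_mul_sum]
  have hg : ∑ x ∈ s, (mu x - f x) ≤ 1 / (4 * K) := by
    have h2 : ∀ x ∈ s, mu x - f x ≤ mu x ^ 2 / (4 * K * m) := fun x _ => by
      rw [hf]
      split_ifs with h
      · rw [sub_self]
        positivity
      · rw [sub_zero, le_div_iff₀ (by positivity)]
        push Not at h
        nlinarith [h0 x]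
    calc ∑ x ∈ s, (mu x - f x) ≤ ∑ x ∈ s, mu x ^ 2 / (4 * K * m) := sum_le_sum h2
      _ = 1 / (4 * K) := by
          rw [← sum_div, ← hm]
          field_simp
  have hρ0 : ∀ t, 0 ≤ Bρ s mu t := Bρ_nonneg s mu h0
  have hρm : ∀ t, Bρ s mu t ≤ m := fun t => by
    rw [hm]
    exact Bρ_le s mu hs t
  have hlow : m / (2 * K) ≤ ∑ t ∈ s - s, W t ^ 2 := by
    rw [hWsq]
    rw [B_energy s mu hs] at hE
    have h3 : ∑ x ∈ s, ∑ x' ∈ s, mu x * mu x' * Bρ s mu (x - x') ≤
        ∑ x ∈ s, ∑ x' ∈ s, (f x * f x' * Bρ s mu (x - x') +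
          ((mu x - f x) * mu x' * m + mu x * (mu x' - f x') * m)) := by
      refine sum_le_sum fun x _ => sum_le_sum fun x' _ => ?_
      have e1 : mu x * mu x' * Bρ s mu (x - x') = f x * f x' * Bρ s mu (x - x') +
          ((mu x - f x) * mu x' + f x * (mu x' - f x')) * Bρ s mu (x - x') := by ring
      rw [e1]
      have e2 : ((mu x - f x) * mu x' + f x * (mu x' - f x')) * Bρ s mu (x - x') ≤
          ((mu x - f x) * mu x' + mu x * (mu x' - f x')) * m := by
        have p1 := sub_nonneg.mpr (hfmu x)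
        have p2 := sub_nonneg.mpr (hfmu x')
        refine mul_le_mul ?_ (hρm _) (hρ0 _) ?_
        · nlinarith [mul_le_mul_of_nonneg_right (hfmu x) p2]
        · nlinarith [mul_nonneg p1 (h0 x'), mul_nonneg (h0 x) p2]
      linarith
    have h4 : ∑ x ∈ s, ∑ x' ∈ s, (f x * f x' * Bρ s mu (x - x') +
          ((mu x - f x) * mu x' * m + mu x * (mu x' - f x') * m)) =
        ∑ x ∈ s, ∑ x' ∈ s, f x * f x' * Bρ s mu (x - x') +
          2 * m * (∑ x ∈ s, (mu x - f x)) := by
      simp only [sum_add_distrib]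
      congr 1
      have a1 : ∑ x ∈ s, ∑ x' ∈ s, (mu x - f x) * mu x' * m = m * ∑ x ∈ s, (mu x - f x) := by
        calc _ = ∑ x ∈ s, (mu x - f x) * (∑ x' ∈ s, mu x') * m := by
              refine sum_congr rfl fun x _ => ?_
              rw [mul_sum, sum_mul]
          _ = _ := by
              rw [h1, mul_sum]
              exact sum_congr rfl fun x _ => by ring
      have a2 : ∑ x ∈ s, ∑ x' ∈ s, mu x * (mu x' - f x') * m = m * ∑ x ∈ s, (mu x - f x) := by
        calc _ = (∑ x ∈ s, mu x) * (∑ x' ∈ s, (mu x' - f x')) * m := by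
              rw [sum_mul_sum, sum_mul]
              refine sum_congr rfl fun x _ => ?_
              rw [sum_mul]
          _ = _ := by
              rw [h1]
              ring
      rw [a1, a2]
      ring
    have h5 : 2 * m * (∑ x ∈ s, (mu x - f x)) ≤ m / (2 * K) := by
      calc 2 * m * (∑ x ∈ s, (mu x - f x)) ≤ 2 * m * (1 / (4 * K)) :=
            mul_le_mul_of_nonneg_left hg (by positivity)
        _ = m / (2 * K) := by
            field_simp
            ring
    have h6 : m / K = m / (2 * K) + m / (2 * K) := by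
      field_simp
      ring
    linarith
  have hbad : ∑ t ∈ s - s, Bd t ≤ c := by
    have h7 := B_corr s mu f hs fun x x' => if Bρ s mu (x - x') < c then (1 : ℝ) else 0
    have h8 : ∑ t ∈ s - s, Bd t = ∑ x ∈ s, ∑ x' ∈ s,
        (if Bρ s mu (x - x') < c then (1 : ℝ) else 0) * (f x * f x' * Bρ s mu (x - x')) := h7
    rw [h8]
    calc _ ≤ ∑ x ∈ s, ∑ x' ∈ s, mu x * mu x' * c := by
          refine sum_le_sum fun x _ => sum_le_sum fun x' _ => ?_
          have q1 : f x * f x' ≤ mu x * mu x' :=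
            mul_le_mul (hfmu x) (hfmu x') (hf0 x') (h0 x)
          have q2 := mul_nonneg (hf0 x) (hf0 x')
          split_ifs with h
          · rw [one_mul]
            exact mul_le_mul q1 h.le (hρ0 _) (q2.trans q1)
          · rw [zero_mul]
            exact mul_nonneg (q2.trans q1) hc0.le
      _ = (∑ x ∈ s, mu x) * (∑ x' ∈ s, mu x') * c := by
          rw [sum_mul_sum, sum_mul]
          refine sum_congr rfl fun x _ => ?_
          rw [sum_mul]
      _ = c := by rw [h1]; ring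
  have hWsum : ∑ t ∈ s - s, W t ≤ 1 := by
    rw [hW]
    simp only
    rw [sum_comm]
    calc ∑ x ∈ s, ∑ t ∈ s - s, f x * mu (x + t) ≤ ∑ x ∈ s, mu x := by
          refine sum_le_sum fun x _ => ?_
          rw [← mul_sum]
          have h9 : ∑ t ∈ s - s, mu (x + t) ≤ 1 := by
            rw [← h1]
            exact B_inj s mu h0 hs _ (fun t => x + t) (add_right_injective x)
          calc f x * ∑ t ∈ s - s, mu (x + t) ≤ f x * 1 :=
                mul_le_mul_of_nonneg_left h9 (hf0 x)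
            _ ≤ mu x := by rw [mul_one]; exact hfmu x
      _ = 1 := h1
  set T' := (s - s).filter fun t => 0 < W t with hT'
  have hT'W : ∑ t ∈ T', W t ^ 2 = ∑ t ∈ s - s, W t ^ 2 := by
    rw [hT', sum_filter]
    refine sum_congr rfl fun t _ => ?_
    split_ifs with h
    · rfl
    · have : W t = 0 := le_antisymm (not_lt.mp h) (hW0 t)
      rw [this]
      norm_num
  have hne : T'.Nonempty := by
    rw [nonempty_iff_ne_empty]
    intro h
    rw [h, sum_empty] at hT'W
    rw [← hT'W] at hlow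
    have : 0 < m / (2 * K) := by positivity
    linarith
  have hsum : ∑ t ∈ T', m / (4 * K) * W t ≤ ∑ t ∈ T', (W t ^ 2 - 16 * Bd t) := by
    have i1 : ∑ t ∈ T', W t ≤ 1 :=
      (sum_le_sum_of_subset_of_nonneg (filter_subset _ _) fun t _ _ => hW0 t).trans hWsum
    have i2 : ∑ t ∈ T', Bd t ≤ c :=
      (sum_le_sum_of_subset_of_nonneg (filter_subset _ _) fun t _ _ => hBd0 t).trans hbad
    rw [← mul_sum, sum_sub_distrib, ← mul_sum, hT'W]
    have i3 : m / (4 * K) * ∑ t ∈ T', W t ≤ m / (4 * K) * 1 :=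
      mul_le_mul_of_nonneg_left i1 (by positivity)
    have i4 : 16 * c = m / (4 * K) := by
      rw [hc]
      field_simp
      ring
    have i5 : m / (2 * K) = m / (4 * K) + m / (4 * K) := by
      field_simp
      ring
    linarith
  obtain ⟨t, ht, htle⟩ := exists_le_of_sum_le hne hsum
  have htpos : 0 < W t := (mem_filter.mp ht).2
  refine ⟨t, ?_, ?_⟩
  · have j1 : m / (4 * K) * W t ≤ W t * W t := by nlinarith [hBd0 t]
    exact le_of_mul_le_mul_right j1 htpos
  · have j2 : 0 ≤ m / (4 * K) * W t := by positivity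
    have j3 : 16 * Bd t ≤ W t ^ 2 := by linarith
    exact j3

/-- **Balog-Szemeredi-Gowers for laws.** -/
theorem bsg_law (s : Finset G) (mu : G → ℝ) (h0 : ∀ x, 0 ≤ mu x)
    (hs : ∀ x, x ∉ s → mu x = 0) (h1 : ∑ x ∈ s, mu x = 1) (K : ℝ) (hK : 1 ≤ K)
    (hE : (∑ x ∈ s, mu x ^ 2) / K ≤ ∑ t ∈ s - s, (∑ x ∈ s, mu x * mu (x + t)) ^ 2) :
    ∃ X : Finset G, X.Nonempty ∧ X ⊆ s ∧ 1 / (128 * K ^ 3) ≤ ∑ x ∈ X, mu x ∧
      (X.card : ℝ) * (∑ x ∈ s, mu x ^ 2) ≤ 2 ^ 22 * K ^ 6 ∧
      ((X - X).card : ℝ) ≤ 2 ^ 31 * K ^ 10 * X.card ∧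
      ((X + X).card : ℝ) ≤ 2 ^ 62 * K ^ 20 * X.card := by
  have hK0 : 0 < K := by linarith
  set m : ℝ := ∑ x ∈ s, mu x ^ 2 with hm
  have hm0 : 0 < m := by
    have hex : ∃ x ∈ s, mu x ≠ 0 := by
      by_contra hcon
      push Not at hcon
      rw [sum_eq_zero hcon] at h1
      norm_num at h1
    obtain ⟨x, hx, hx0⟩ := hex
    exact sum_pos' (fun y _ => sq_nonneg _) ⟨x, hx, by positivity⟩
  set f : G → ℝ := fun x => if mu x ≤ 4 * K * m then mu x else 0 with hf
  obtain ⟨t, ht1, ht2⟩ := B_choose s mu h0 hs h1 K m hK hm hm0 hE f fun x => rfl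
  have hf0 : ∀ x, 0 ≤ f x := fun x => by
    simp only [hf]
    split_ifs
    · exact h0 x
    · exact le_refl 0
  have hfmu : ∀ x, f x ≤ mu x := fun x => by
    simp only [hf]
    split_ifs
    · exact le_refl _
    · exact h0 x
  have hfM : ∀ x, f x ≤ 4 * K * m := fun x => by
    simp only [hf]
    split_ifs with h
    · exact h
    · positivity
  set c : ℝ := m / (64 * K) with hc
  have hc0 : 0 < c := by positivity
  set w : G → ℝ := fun x => f x * mu (x + t) with hw
  have hw0 : ∀ x, 0 ≤ w x := fun x => mul_nonneg (hf0 x) (h0 _)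
  set W : ℝ := ∑ x ∈ s, w x with hW
  have hWpos : 0 < W := lt_of_lt_of_le (by positivity) ht1
  set bd : G → ℝ := fun x => ∑ x' ∈ s, (if Bρ s mu (x - x') < c then (1 : ℝ) else 0) * w x'
    with hbd
  have hbd0 : ∀ x, 0 ≤ bd x := fun x => sum_nonneg fun x' _ =>
    mul_nonneg (by split_ifs <;> norm_num) (hw0 x')
  have hBd : 16 * ∑ x ∈ s, w x * bd x ≤ W ^ 2 := by
    refine le_trans (le_of_eq ?_) ht2
    congr 1
    refine sum_congr rfl fun x _ => ?_
    simp only [hbd]
    rw [mul_sum]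
    exact sum_congr rfl fun x' _ => by simp only [hw]; ring
  set X := s.filter fun x => 0 < f x ∧ bd x ≤ W / 4 with hX
  have hXs : X ⊆ s := filter_subset _ _
  -- mass of the complement
  have hcomp : ∑ x ∈ s \ X, w x ≤ W / 4 := by
    have k1 : ∀ x ∈ s \ X, w x * (W / 4) ≤ w x * bd x := fun x hx => by
      rw [mem_sdiff, hX, mem_filter] at hx
      by_cases hfx : 0 < f x
      · refine mul_le_mul_of_nonneg_left ?_ (hw0 x)
        by_contra hcon
        exact hx.2 ⟨hx.1, hfx, (not_le.mp hcon).le⟩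
      · have : f x = 0 := le_antisymm (not_lt.mp hfx) (hf0 x)
        simp only [hw, this, zero_mul, le_refl]
    have k2 : (∑ x ∈ s \ X, w x) * (W / 4) ≤ ∑ x ∈ s, w x * bd x := by
      rw [sum_mul]
      exact (sum_le_sum k1).trans
        (sum_le_sum_of_subset_of_nonneg sdiff_subset fun x _ _ => mul_nonneg (hw0 x) (hbd0 x))
    have k3 : (∑ x ∈ s \ X, w x) * W ≤ W / 4 * W := by nlinarith
    exact le_of_mul_le_mul_right k3 hWpos
  have hwX : 3 / 4 * W ≤ ∑ x ∈ X, w x := by
    have := sum_sdiff hXs (f := w)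
    rw [← hW] at this
    linarith
  have hmu2 : ∀ U : Finset G, ∑ x ∈ U, mu (x + t) ^ 2 ≤ m := fun U =>
    B_inj s (fun x => mu x ^ 2) (fun x => sq_nonneg _) (fun x hx => by simp [hs x hx]) U
      (fun x => x + t) (add_left_injective t)
  -- the mass of `X`
  have hXmass : 1 / (128 * K ^ 3) ≤ ∑ x ∈ X, mu x := by
    have l1 : (∑ x ∈ X, w x) ^ 2 ≤ (∑ x ∈ X, f x ^ 2) * (∑ x ∈ X, mu (x + t) ^ 2) :=
      sum_mul_sq_le_sq_mul_sq _ _ _
    have l2 : ∑ x ∈ X, f x ^ 2 ≤ 4 * K * m * ∑ x ∈ X, mu x := by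
      rw [mul_sum]
      refine sum_le_sum fun x _ => ?_
      rw [sq]
      exact mul_le_mul (hfM x) (hfmu x) (hf0 x) (by positivity)
    have l3 : 0 ≤ ∑ x ∈ X, mu x := sum_nonneg fun x _ => h0 x
    have l4 : (∑ x ∈ X, w x) ^ 2 ≤ 4 * K * m * (∑ x ∈ X, mu x) * m :=
      l1.trans (mul_le_mul l2 (hmu2 X) (sum_nonneg fun x _ => sq_nonneg _) (by positivity))
    have l5 : (3 / 4 * (m / (4 * K))) ^ 2 ≤ (∑ x ∈ X, w x) ^ 2 := by
      refine pow_le_pow_left₀ (by positivity) ?_ 2
      have : 3 / 4 * (m / (4 * K)) ≤ 3 / 4 * W := by linarith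
      linarith
    have l6 := l5.trans l4
    have l7 : (3 / 4 * (m / (4 * K))) ^ 2 = 9 * m ^ 2 / (256 * K ^ 2) := by
      field_simp
      ring
    rw [l7, div_le_iff₀ (by positivity)] at l6
    have l8 : 9 ≤ 1024 * K ^ 3 * ∑ x ∈ X, mu x := by
      have : m ^ 2 * 9 ≤ m ^ 2 * (1024 * K ^ 3 * ∑ x ∈ X, mu x) := by nlinarith
      exact le_of_mul_le_mul_left this (by positivity)
    rw [div_le_iff₀ (by positivity)]
    nlinarith
  have hXne : X.Nonempty := by
    rw [nonempty_iff_ne_empty]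
    intro h
    rw [h, sum_empty] at hXmass
    have : 0 < 1 / (128 * K ^ 3) := by positivity
    linarith
  -- the representation function
  have hρ0 : ∀ t, 0 ≤ Bρ s mu t := Bρ_nonneg s mu h0
  have hrep : ∀ d ∈ X - X, m / (2 ^ 22 * K ^ 6) ≤
      ∑ e ∈ s - s, Bρ s mu e * Bρ s mu (e - d) := by
    intro d hd
    obtain ⟨x1, hx1, x2, hx2, rfl⟩ := mem_sub.mp hd
    have hx1' := mem_filter.mp hx1
    have hx2' := mem_filter.mp hx2
    set Y := s.filter fun x' => ¬ Bρ s mu (x1 - x') < c ∧ ¬ Bρ s mu (x2 - x') < c with hY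
    have n1 : W ≤ ∑ x' ∈ Y, w x' + bd x1 + bd x2 := by
      rw [hW, hY, sum_filter, hbd]
      simp only
      rw [← sum_add_distrib, ← sum_add_distrib]
      refine sum_le_sum fun x' _ => ?_
      have := hw0 x'
      by_cases c1 : Bρ s mu (x1 - x') < c
      · by_cases c2 : Bρ s mu (x2 - x') < c
        · simp only [c1, c2, not_true_eq_false, and_self, if_false, if_true]
          linarith
        · simp only [c1, c2, not_true_eq_false, false_and, if_false, if_true]
          linarith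
      · by_cases c2 : Bρ s mu (x2 - x') < c
        · simp only [c1, c2, not_true_eq_false, and_false, if_false, if_true]
          linarith
        · simp only [c1, c2, not_false_eq_true, and_self, if_false, if_true]
          linarith
    have n2 : W / 2 ≤ ∑ x' ∈ Y, w x' := by
      have := hx1'.2.2
      have := hx2'.2.2
      linarith
    have n3 : ∑ x' ∈ Y, w x' ≤ 4 * K * m * ∑ x' ∈ Y, mu (x' + t) := by
      rw [mul_sum]
      exact sum_le_sum fun x' _ => mul_le_mul_of_nonneg_right (hfM x') (h0 _)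
    have n4 : (∑ x' ∈ Y, mu (x' + t)) ^ 2 ≤ Y.card * m := by
      refine (sq_sum_le_card_mul_sum_sq).trans ?_
      exact mul_le_mul_of_nonneg_left (hmu2 Y) (Nat.cast_nonneg _)
    have n5 : (m / (8 * K)) ^ 2 ≤ (4 * K * m) ^ 2 * (Y.card * m) := by
      have o1 : m / (8 * K) ≤ 4 * K * m * ∑ x' ∈ Y, mu (x' + t) := by
        have : m / (8 * K) = m / (4 * K) / 2 := by
          field_simp
          ring
        rw [this]
        linarith
      calc (m / (8 * K)) ^ 2 ≤ (4 * K * m * ∑ x' ∈ Y, mu (x' + t)) ^ 2 :=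
            pow_le_pow_left₀ (by positivity) o1 2
        _ = (4 * K * m) ^ 2 * (∑ x' ∈ Y, mu (x' + t)) ^ 2 := by ring
        _ ≤ _ := mul_le_mul_of_nonneg_left n4 (by positivity)
    have n6 : 1 ≤ 1024 * K ^ 4 * m * Y.card := by
      have o2 : (m / (8 * K)) ^ 2 = m ^ 2 / (64 * K ^ 2) := by
        field_simp
        ring
      rw [o2, div_le_iff₀ (by positivity)] at n5
      have o3 : m ^ 2 * 1 ≤ m ^ 2 * (1024 * K ^ 4 * m * Y.card) := by nlinarith
      exact le_of_mul_le_mul_left o3 (by positivity)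
    have n7 : Y.card * c ^ 2 ≤ ∑ e ∈ s - s, Bρ s mu e * Bρ s mu (e - (x1 - x2)) := by
      calc (Y.card : ℝ) * c ^ 2 = ∑ _x' ∈ Y, c ^ 2 := by
            rw [sum_const, nsmul_eq_mul]
        _ ≤ ∑ x' ∈ Y, Bρ s mu (x1 - x') * Bρ s mu (x2 - x') := by
            refine sum_le_sum fun x' hx' => ?_
            have h := (mem_filter.mp hx').2
            rw [sq]
            exact mul_le_mul (not_lt.mp h.1) (not_lt.mp h.2) hc0.le (hρ0 _)
        _ = ∑ e ∈ Y.image fun x' => x1 - x', Bρ s mu e * Bρ s mu (e - (x1 - x2)) := by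
            rw [sum_image fun a _ b _ h => sub_right_injective h]
            refine sum_congr rfl fun x' _ => ?_
            have : x1 - x' - (x1 - x2) = x2 - x' := by abel
            rw [this]
        _ ≤ _ := by
            refine sum_le_sum_of_subset_of_nonneg ?_ fun e _ _ => mul_nonneg (hρ0 _) (hρ0 _)
            intro e he
            obtain ⟨x', hx', rfl⟩ := mem_image.mp he
            exact sub_mem_sub hx1'.1 (mem_filter.mp hx').1
    refine le_trans ?_ n7
    have n8 : c ^ 2 = m ^ 2 / (4096 * K ^ 2) := by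
      rw [hc]
      field_simp
      ring
    rw [n8, div_le_iff₀ (by positivity)]
    have n9 : (Y.card : ℝ) * (m ^ 2 / (4096 * K ^ 2)) * (2 ^ 22 * K ^ 6) =
        m * (1024 * K ^ 4 * m * Y.card) := by
      field_simp
      ring
    rw [n9]
    nlinarith
  have hsumrep : ∑ d ∈ X - X, ∑ e ∈ s - s, Bρ s mu e * Bρ s mu (e - d) ≤ 1 := by
    rw [sum_comm]
    calc ∑ e ∈ s - s, ∑ d ∈ X - X, Bρ s mu e * Bρ s mu (e - d)
        ≤ ∑ e ∈ s - s, Bρ s mu e := by
          refine sum_le_sum fun e _ => ?_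
          rw [← mul_sum]
          have := Bρ_sum s mu h0 hs h1 (X - X) (fun d => e - d) sub_right_injective
          calc Bρ s mu e * ∑ d ∈ X - X, Bρ s mu (e - d) ≤ Bρ s mu e * 1 :=
                mul_le_mul_of_nonneg_left this (hρ0 e)
            _ = Bρ s mu e := mul_one _
      _ ≤ 1 := Bρ_sum s mu h0 hs h1 (s - s) (fun e => e) Function.injective_id
  have hdiff : ((X - X).card : ℝ) * m ≤ 2 ^ 22 * K ^ 6 := by
    have p1 : ∑ _d ∈ X - X, m / (2 ^ 22 * K ^ 6) ≤ 1 := (sum_le_sum hrep).trans hsumrep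
    rw [sum_const, nsmul_eq_mul, ← mul_div_assoc, div_le_iff₀ (by positivity), one_mul] at p1
    exact p1
  have hcard : ((X.card : ℝ)) ≤ ((X - X).card : ℝ) := by
    exact_mod_cast card_le_card_sub_right hXne
  have hXm : (X.card : ℝ) * m ≤ 2 ^ 22 * K ^ 6 :=
    (mul_le_mul_of_nonneg_right hcard hm0.le).trans hdiff
  have hXlow : 1 ≤ 512 * K ^ 4 * m * X.card := by
    have q1 : ∑ x ∈ X, mu x ≤ X.card * (4 * K * m) := by
      rw [← nsmul_eq_mul]
      refine sum_le_card_nsmul _ _ _ fun x hx => ?_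
      have hx' := (mem_filter.mp hx).2.1
      simp only [hf] at hx'
      by_contra hcon
      rw [if_neg hcon] at hx'
      exact lt_irrefl _ hx'
    have q2 := hXmass.trans q1
    rw [div_le_iff₀ (by positivity)] at q2
    nlinarith
  have hdd : ((X - X).card : ℝ) ≤ 2 ^ 31 * K ^ 10 * X.card := by
    have r1 : ((X - X).card : ℝ) * m ≤ 2 ^ 31 * K ^ 10 * X.card * m := by
      calc ((X - X).card : ℝ) * m ≤ 2 ^ 22 * K ^ 6 * 1 := by rw [mul_one]; exact hdiff
        _ ≤ 2 ^ 22 * K ^ 6 * (512 * K ^ 4 * m * X.card) :=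
            mul_le_mul_of_nonneg_left hXlow (by positivity)
        _ = _ := by ring
    exact le_of_mul_le_mul_right r1 hm0
  refine ⟨X, hXne, hXs, hXmass, hXm, hdd, ?_⟩
  have hXc : (0 : ℝ) < X.card := by exact_mod_cast hXne.card_pos
  have hpl := pluennecke_ruzsa_inequality_nsmul_sub hXne X 2
  have hpl' : ((X + X).card : ℝ) ≤ (((X - X).card : ℝ) / X.card) ^ 2 * X.card := by
    rw [two_nsmul] at hpl
    have hpl2 := (NNRat.cast_le (K := ℝ)).mpr hpl
    push_cast at hpl2
    exact hpl2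
  calc ((X + X).card : ℝ) ≤ (((X - X).card : ℝ) / X.card) ^ 2 * X.card := hpl'
    _ ≤ (2 ^ 31 * K ^ 10) ^ 2 * X.card := by
        refine mul_le_mul_of_nonneg_right ?_ hXc.le
        refine pow_le_pow_left₀ (by positivity) ?_ 2
        rw [div_le_iff₀ hXc]
        exact hdd
    _ = _ := by ring

end BSG

end Pool.Agent.Helper94.LE
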