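import Mathlib

set_option autoImplicit false

/-!
MP_120218_co, theorem LE: the two inequalities for the costs at a node (note 2496, part 1).
-/

namespace Pool.Agent.Helper94.LE

/-- the relative entropy of two-point laws -/
noncomputable def kl (y x : ℝ) : ℝ :=
  y * Real.log (y / x) + (1 - y) * Real.log ((1 - y) / (1 - x))

private theorem mul_log_div {y x : ℝ} (hy : 0 ≤ y) (hx : 0 < x) :
    y * Real.log (y / x) = y * Real.log y - y * Real.log x := by
  rcases hy.eq_or_lt with h | h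
  · rw [← h]; simp
  · rw [Real.log_div h.ne' hx.ne']; ring

private theorem kl_eq {y x : ℝ} (hy : 0 ≤ y) (hy1 : y ≤ 1) (hx : 0 < x) (hx1 : x < 1) :
    kl y x = y * Real.log y + (1 - y) * Real.log (1 - y)
      - y * Real.log x - (1 - y) * Real.log (1 - x) := by
  unfold kl
  rw [mul_log_div hy hx, mul_log_div (sub_nonneg.2 hy1) (sub_pos.2 hx1)]
  ring

private theorem mul_log_le {y c : ℝ} (hc : 0 < c) (hy : 0 ≤ y) :
    y * Real.log c ≤ y * (c - 1) :=
  mul_le_mul_of_nonneg_left (Real.log_le_sub_one_of_pos hc) hy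

private theorem mul_log_inv_ge {y : ℝ} (hy : 0 ≤ y) :
    y * Real.log y ≤ y * (y - 1) := by
  rcases hy.eq_or_lt with h | h
  · rw [← h]; simp
  · exact mul_log_le h hy

private theorem mul_log_ge {y : ℝ} (hy : 0 ≤ y) :
    y - 1 ≤ y * Real.log y := by
  rcases hy.eq_or_lt with h | h
  · rw [← h]; simp
  · have h1 : Real.log (1 / y) ≤ 1 / y - 1 := Real.log_le_sub_one_of_pos (by positivity)
    rw [Real.log_div one_ne_zero h.ne', Real.log_one, zero_sub] at h1
    have h2 := mul_le_mul_of_nonneg_left h1 hy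
    have h3 : y * (1 / y - 1) = 1 - y := by field_simp
    rw [h3] at h2
    linarith

/-- `u log (1/u) ≤ 1/4 + u (log 4 - 1)` -/
private theorem mul_log_ge' {u : ℝ} (hu : 0 ≤ u) :
    -(1 / 4) - u * (2 * Real.log 2 - 1) ≤ u * Real.log u := by
  rcases hu.eq_or_lt with h | h
  · rw [← h]; norm_num
  · have h1 : Real.log (1 / (4 * u)) ≤ 1 / (4 * u) - 1 :=
      Real.log_le_sub_one_of_pos (by positivity)
    have h4 : Real.log 4 = 2 * Real.log 2 := by
      rw [show (4 : ℝ) = 2 ^ 2 by norm_num, Real.log_pow]; norm_num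
    rw [Real.log_div one_ne_zero (by positivity), Real.log_one, zero_sub,
      Real.log_mul (by norm_num) h.ne', h4] at h1
    have h2 := mul_le_mul_of_nonneg_left h1 hu
    have h3 : u * (1 / (4 * u) - 1) = 1 / 4 - u := by field_simp
    rw [h3] at h2
    linarith

private theorem kl_nonneg {y x : ℝ} (hy : 0 ≤ y) (hy1 : y ≤ 1) (hx : 0 < x) (hx1 : x < 1) :
    0 ≤ kl y x := by
  have key : ∀ {a b : ℝ}, 0 ≤ a → 0 < b → a - b ≤ a * Real.log (a / b) := by
    intro a b ha hb
    have h1 := mul_log_ge (div_nonneg ha hb.le)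
    have h2 := mul_le_mul_of_nonneg_left h1 hb.le
    have h3 : b * (a / b - 1) = a - b := by field_simp
    have h4 : b * (a / b * Real.log (a / b)) = a * Real.log (a / b) := by field_simp
    rw [h3, h4] at h2
    exact h2
  have h1 := key hy hx
  have h2 := key (sub_nonneg.2 hy1) (sub_pos.2 hx1)
  unfold kl
  linarith

/-- `kl(y,x) ≥ kl(y,1/2)` when `1/2` is between `y` and `x` -/
private theorem kl_ge {y x : ℝ} (hy : 0 ≤ y) (hy1 : y ≤ 1) (hx : 0 < x) (hx1 : x < 1)
    (h : 0 ≤ (1 - 2 * y) * (2 * x - 1)) :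
    Real.log 2 + y * Real.log y + (1 - y) * Real.log (1 - y) ≤ kl y x := by
  rw [kl_eq hy hy1 hx hx1]
  have h1 := mul_log_le (y := y) (c := 2 * x) (by positivity) hy
  have h2 := mul_log_le (y := 1 - y) (c := 2 * (1 - x)) (by linarith) (sub_nonneg.2 hy1)
  rw [Real.log_mul (by norm_num) hx.ne'] at h1
  rw [Real.log_mul (by norm_num) (sub_pos.2 hx1).ne'] at h2
  nlinarith

private theorem log_one_div' (y : ℝ) : Real.log (1 / y) = - Real.log y := by
  rw [one_div, Real.log_inv]

theorem cost_a {x y : ℝ} (hx : 1 / 2 ≤ x) (hx1 : x < 1) (hy0 : 0 ≤ y) (hy1 : y ≤ 1) :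
    1 - y ≤ 5 * (y * Real.log (1 / y)) + 8 * kl y x := by
  have hx0 : 0 < x := by linarith
  rw [log_one_div']
  have hkl := kl_nonneg hy0 hy1 hx0 hx1
  rcases le_total (1 / 4) y with h | h
  · have h1 := mul_log_inv_ge hy0
    nlinarith [mul_nonneg (sub_nonneg.2 h) (sub_nonneg.2 hy1)]
  · have h1 := kl_ge hy0 hy1 hx0 hx1
      (mul_nonneg (by linarith) (by linarith))
    have h2 := mul_log_ge hy0
    have h3 := mul_log_ge (sub_nonneg.2 hy1)
    have h4 := Real.log_two_gt_d9
    nlinarith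

theorem cost_b {x y : ℝ} (hx : 0 < x) (hx1 : x ≤ 1 / 2) (hy0 : 0 ≤ y) (hy1 : y ≤ 1) :
    y * Real.log (1 / x) + (1 - y) * Real.log (1 / (1 - x)) ≤
      5 * (y * Real.log (1 / y)) + 8 * kl y x := by
  have hx1' : x < 1 := by linarith
  rw [log_one_div', log_one_div', log_one_div']
  have hkl := kl_nonneg hy0 hy1 hx hx1'
  have hke := kl_eq hy0 hy1 hx hx1'
  rcases le_total y (3 / 4) with h | h
  · have h1 := mul_log_inv_ge hy0
    have h3 := mul_log_ge (sub_nonneg.2 hy1)
    nlinarith [mul_nonneg hy0 (sub_nonneg.2 h)]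
  · have h1 := kl_ge hy0 hy1 hx hx1' (by nlinarith)
    have h2 := mul_log_ge hy0
    have h3 := mul_log_ge' (sub_nonneg.2 hy1)
    have h4 := Real.log_two_gt_d9
    have h5 := Real.log_two_lt_d9
    nlinarith [mul_le_mul_of_nonneg_left h5.le (sub_nonneg.2 hy1)]

end Pool.Agent.Helper94.LE
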