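import Mathlib

set_option autoImplicit false

/-!
MP_120218_co, theorem LE (low-energy structure theorem, note 2496): definitions.
-/

open Finset

namespace Pool.Agent.Helper94.LE

/-- the number of solutions of `α x₁ + ... + α x_k = α y₁ + ... + α y_k` in `S` -/
def En {ι G : Type*} [AddCommMonoid G] [DecidableEq G] (α : ι → G) (k : ℕ) (S : Finset ι) : ℕ :=
  ((Fintype.piFinset (fun _ : Fin k => S) ×ˢ Fintype.piFinset (fun _ : Fin k => S)).filter
    (fun z => ∑ i, α (z.1 i) = ∑ i, α (z.2 i))).card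

/-- the number of representations of `t` as `α x₁ + ... + α x_k` with `x_i ∈ S` -/
def rr {ι G : Type*} [AddCommMonoid G] [DecidableEq G] (α : ι → G) (k : ℕ) (S : Finset ι)
    (t : G) : ℕ :=
  ((Fintype.piFinset (fun _ : Fin k => S)).filter (fun x => ∑ i, α (x i) = t)).card

/-- the set of all sums `α x₁ + ... + α x_k` with `x_i ∈ S` -/
def su {ι G : Type*} [AddCommMonoid G] [DecidableEq G] (α : ι → G) (k : ℕ) (S : Finset ι) :
    Finset G :=
  (Fintype.piFinset (fun _ : Fin k => S)).image (fun x => ∑ i, α (x i))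

/-- the normalised energy `En ^ (1/k)` -/
noncomputable def NF {ι G : Type*} [AddCommMonoid G] [DecidableEq G] (α : ι → G) (k : ℕ)
    (S : Finset ι) : ℝ := (En α k S : ℝ) ^ ((1 : ℝ) / k)

/-- the correlation `∑ μ x μ (x + t)` -/
noncomputable def cor {G : Type*} [AddCommGroup G] (μ : G → ℝ) (U : Finset G) (t : G) : ℝ :=
  ∑ x ∈ U, μ x * μ (x + t)

/-- a group with enough finite quotients -/
def RF (G : Type*) [AddCommGroup G] : Prop :=
  ∀ T : Finset G, ∃ (H : Type) (_ : AddCommGroup H) (_ : Fintype H) (ψ : G →+ H),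
    ∀ t ∈ T, ψ t = 0 → t = 0

/-- norm-like functionals on finite sets of positive integers: rare part = multiples -/
structure NormP (K : ℝ) (F : Finset ℕ → ℝ) : Prop where
  empty : F ∅ ≤ 0
  single : ∀ a, F {a} ≤ 1
  tri : ∀ (S₀ S₁ : Finset ℕ) (θ η : ℝ), 0 < θ → 0 < η → θ + η = 1 → Disjoint S₀ S₁ →
    F (S₀ ∪ S₁) ≤ F S₀ / θ + F S₁ / η
  mart : ∀ (q l : ℕ) (S₀ S₁ : Finset ℕ), q.Prime → (∀ y ∈ S₀, 0 < y) → (∀ y ∈ S₁, 0 < y) →
    (∀ y ∈ S₀, y.factorization q = l) → (∀ y ∈ S₁, l < y.factorization q) →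
    F (S₀ ∪ S₁) ≤ F S₀ + K * F S₁

/-- norm-like functionals on finite sets of positive integers: rare part = non-multiples -/
structure NormS (K : ℝ) (F : Finset ℕ → ℝ) : Prop where
  empty : F ∅ ≤ 0
  single : ∀ a, F {a} ≤ 1
  tri : ∀ (S₀ S₁ : Finset ℕ) (θ η : ℝ), 0 < θ → 0 < η → θ + η = 1 → Disjoint S₀ S₁ →
    F (S₀ ∪ S₁) ≤ F S₀ / θ + F S₁ / η
  mart : ∀ (q l : ℕ) (S₀ S₁ : Finset ℕ), q.Prime → (∀ y ∈ S₀, 0 < y) → (∀ y ∈ S₁, 0 < y) →
    (∀ y ∈ S₀, y.factorization q = l) → (∀ y ∈ S₁, l < y.factorization q) →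
    F (S₀ ∪ S₁) ≤ F S₁ + K * F S₀

end Pool.Agent.Helper94.LE
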