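import Pool.Agent.Helper94.LE.Norm

set_option autoImplicit false

/-!
MP_120218_co, theorem LE: energies of finite sets of integers and their signed parts.
-/

open Finset
open Pool.Agent.Helper84.SP

namespace Pool.Agent.Helper94.LE

/-- the number of solutions of `x₁ + ... + x_k = y₁ + ... + y_k` in `S` -/
def addE (k : ℕ) (S : Finset ℤ) : ℕ :=
  ((Fintype.piFinset (fun _ : Fin k => S) ×ˢ Fintype.piFinset (fun _ : Fin k => S)).filter
    (fun z => ∑ i, z.1 i = ∑ i, z.2 i)).card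

/-- the number of solutions of `x₁ ... x_k = y₁ ... y_k` in `S` -/
def mulE (k : ℕ) (S : Finset ℤ) : ℕ :=
  ((Fintype.piFinset (fun _ : Fin k => S) ×ˢ Fintype.piFinset (fun _ : Fin k => S)).filter
    (fun z => ∏ i, z.1 i = ∏ i, z.2 i)).card

/-- the absolute values of the positive (`e = 1`) or negative (`e = -1`) elements -/
def part (e : ℤ) (S : Finset ℤ) : Finset ℕ := (S.filter (fun z => 0 < e * z)).image Int.natAbs

theorem addE_eq (k : ℕ) (S : Finset ℤ) : addE k S = En (fun z : ℤ => z) k S := rfl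

/-! ### Auxiliary lemmas -/

private theorem enz_be_mul {x y : ℕ} (hx : x ≠ 0) (hy : y ≠ 0) :
    be (x * y) = be x + be y := by
  unfold be
  ext p
  simp [Nat.factorization_mul hx hy]

private theorem enz_be_one : be 1 = 0 := by
  unfold be
  ext p
  simp

private theorem enz_be_inj {x y : ℕ} (hx : x ≠ 0) (hy : y ≠ 0) (h : be x = be y) : x = y := by
  apply Nat.eq_of_factorization_eq hx hy
  intro p
  have h1 := DFunLike.congr_fun h p
  unfold be at h1
  simp only [Finsupp.mapRange_apply] at h1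
  exact_mod_cast h1

private theorem enz_be_prod {k : ℕ} (y : Fin k → ℤ) (hy : ∀ i, y i ≠ 0) :
    be (∏ i, y i).natAbs = ∑ i, be (y i).natAbs := by
  induction k with
  | zero => simp [enz_be_one]
  | succ k ih =>
    rw [Fin.prod_univ_castSucc, Fin.sum_univ_castSucc, Int.natAbs_mul,
      enz_be_mul (Int.natAbs_ne_zero.2 (Finset.prod_ne_zero_iff.2 fun i _ => hy _))
        (Int.natAbs_ne_zero.2 (hy _)), ih _ (fun i => hy _)]

private theorem enz_mono {ι G : Type*} [DecidableEq ι] [AddCommMonoid G] [DecidableEq G]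
    (α : ι → G) (k : ℕ) {S T : Finset ι} (h : S ⊆ T) : En α k S ≤ En α k T := by
  unfold En
  apply Finset.card_le_card
  apply Finset.filter_subset_filter
  exact Finset.product_subset_product (Fintype.piFinset_subset _ _ fun _ => h)
    (Fintype.piFinset_subset _ _ fun _ => h)

private theorem enz_rpow_mono {a b : ℕ} (k : ℕ) (h : a ≤ b) :
    ((a : ℝ)) ^ ((1 : ℝ) / k) ≤ (b : ℝ) ^ ((1 : ℝ) / k) :=
  Real.rpow_le_rpow (by positivity) (by exact_mod_cast h) (by positivity)

private theorem enz_NF_mono {ι G : Type*} [DecidableEq ι] [AddCommMonoid G] [DecidableEq G]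
    (α : ι → G) (k : ℕ) {S T : Finset ι} (h : S ⊆ T) : NF α k S ≤ NF α k T :=
  enz_rpow_mono k (enz_mono α k h)

private theorem enz_NF_nonneg {ι G : Type*} [AddCommMonoid G] [DecidableEq G]
    (α : ι → G) (k : ℕ) (S : Finset ι) : 0 ≤ NF α k S := by
  unfold NF
  positivity

/-- subadditivity up to a factor two, for arbitrary unions -/
private theorem enz_union {ι G : Type*} [DecidableEq ι] [AddCommGroup G] [DecidableEq G]
    (hG : RF G) (α : ι → G) {k : ℕ} (hk : 1 ≤ k) (S T : Finset ι) :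
    NF α k (S ∪ T) ≤ 2 * NF α k S + 2 * NF α k T := by
  have h1 : NF α k (S ∪ (T \ S)) ≤ NF α k S / (1 / 2) + NF α k (T \ S) / (1 / 2) :=
    tr_tri hG α hk Finset.disjoint_sdiff (by norm_num) (by norm_num) (by norm_num)
  rw [Finset.union_sdiff_self_eq_union] at h1
  have h2 : NF α k (T \ S) ≤ NF α k T := enz_NF_mono α k Finset.sdiff_subset
  have h3 : NF α k S / (1 / 2) = 2 * NF α k S := by ring
  have h4 : NF α k (T \ S) / (1 / 2) = 2 * NF α k (T \ S) := by ring
  rw [h3, h4] at h1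
  linarith

/-- transport of the energy along an injective map -/
private theorem enz_image {ι κ G H : Type*} [DecidableEq ι] [DecidableEq κ] [AddCommMonoid G]
    [DecidableEq G] [AddCommMonoid H] [DecidableEq H] (α : ι → G) (β : κ → H) (f : ι → κ) (k : ℕ)
    {S : Finset ι} (hf : Set.InjOn f (S : Set ι))
    (h : ∀ x y : Fin k → ι, (∀ i, x i ∈ S) → (∀ i, y i ∈ S) →
      ∑ i, α (x i) = ∑ i, α (y i) → ∑ i, β (f (x i)) = ∑ i, β (f (y i))) :
    NF α k S ≤ NF β k (S.image f) := by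
  apply enz_rpow_mono
  unfold En
  apply Finset.card_le_card_of_injOn
    (fun z : (Fin k → ι) × (Fin k → ι) => ((fun i => f (z.1 i)), (fun i => f (z.2 i))))
  · rintro ⟨x, y⟩ hz
    rw [Finset.mem_coe, Finset.mem_filter, Finset.mem_product, Fintype.mem_piFinset,
      Fintype.mem_piFinset] at hz
    rw [Finset.mem_coe, Finset.mem_filter, Finset.mem_product, Fintype.mem_piFinset,
      Fintype.mem_piFinset]
    exact ⟨⟨fun i => Finset.mem_image_of_mem _ (hz.1.1 i),
      fun i => Finset.mem_image_of_mem _ (hz.1.2 i)⟩, h x y hz.1.1 hz.1.2 hz.2⟩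
  · rintro ⟨x, y⟩ hz ⟨x', y'⟩ hz' he
    rw [Finset.mem_coe, Finset.mem_filter, Finset.mem_product, Fintype.mem_piFinset,
      Fintype.mem_piFinset] at hz hz'
    have h1 := congrArg Prod.fst he
    have h2 := congrArg Prod.snd he
    refine Prod.ext ?_ ?_
    · funext i
      exact hf (hz.1.1 i) (hz'.1.1 i) (congrFun h1 i)
    · funext i
      exact hf (hz.1.2 i) (hz'.1.2 i) (congrFun h2 i)

/-- equality up to sign costs at most a factor two -/
private theorem enz_sign {X : Type*} [DecidableEq X] (P : Finset X) (π : X → ℤ)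
    (h0 : ∀ x ∈ P, π x ≠ 0) :
    ((P ×ˢ P).filter (fun z => (π z.1).natAbs = (π z.2).natAbs)).card ≤
      2 * ((P ×ˢ P).filter (fun z => π z.1 = π z.2)).card := by
  have e1 := Finset.card_eq_sum_card_fiberwise
    (f := fun z : X × X => (π z.1).natAbs)
    (s := (P ×ˢ P).filter (fun z => (π z.1).natAbs = (π z.2).natAbs))
    (t := P.image (fun x => (π x).natAbs)) (by
      rintro ⟨x, y⟩ hz
      rw [Finset.mem_coe, Finset.mem_filter, Finset.mem_product] at hz
      exact Finset.mem_coe.2 (Finset.mem_image_of_mem _ hz.1.1))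
  have e2 := Finset.card_eq_sum_card_fiberwise
    (f := fun z : X × X => (π z.1).natAbs)
    (s := (P ×ˢ P).filter (fun z => π z.1 = π z.2))
    (t := P.image (fun x => (π x).natAbs)) (by
      rintro ⟨x, y⟩ hz
      rw [Finset.mem_coe, Finset.mem_filter, Finset.mem_product] at hz
      exact Finset.mem_coe.2 (Finset.mem_image_of_mem _ hz.1.1))
  rw [e1, e2, Finset.mul_sum]
  refine Finset.sum_le_sum fun t ht => ?_
  have ht0 : 0 < t := by
    obtain ⟨x, hx, rfl⟩ := Finset.mem_image.1 ht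
    exact Int.natAbs_pos.2 (h0 x hx)
  set A : Finset X := P.filter (fun x => π x = (t : ℤ)) with hA
  set B : Finset X := P.filter (fun x => π x = -(t : ℤ)) with hB
  have hAB : Disjoint A B := by
    rw [Finset.disjoint_left]
    intro x hx hx'
    have h1 := (Finset.mem_filter.1 hx).2
    have h2 := (Finset.mem_filter.1 hx').2
    omega
  have h1 : ((P ×ˢ P).filter (fun z => (π z.1).natAbs = (π z.2).natAbs)).filter
      (fun z => (π z.1).natAbs = t) ⊆ (A ∪ B) ×ˢ (A ∪ B) := by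
    rintro ⟨x, y⟩ hz
    rw [Finset.mem_filter, Finset.mem_filter, Finset.mem_product] at hz
    obtain ⟨⟨⟨hx, hy⟩, hxy⟩, hxt⟩ := hz
    simp only at hx hy hxy hxt
    rw [Finset.mem_product, Finset.mem_union, Finset.mem_union]
    refine ⟨?_, ?_⟩
    · rcases Int.natAbs_eq (π x) with h | h
      · left
        exact Finset.mem_filter.2 ⟨hx, by rw [h, hxt]⟩
      · right
        exact Finset.mem_filter.2 ⟨hx, by rw [h, hxt]⟩
    · rw [hxt] at hxy
      rcases Int.natAbs_eq (π y) with h | h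
      · left
        exact Finset.mem_filter.2 ⟨hy, by rw [h, ← hxy]⟩
      · right
        exact Finset.mem_filter.2 ⟨hy, by rw [h, ← hxy]⟩
  have h2 : (A ×ˢ A) ∪ (B ×ˢ B) ⊆ ((P ×ˢ P).filter (fun z => π z.1 = π z.2)).filter
      (fun z => (π z.1).natAbs = t) := by
    rintro ⟨x, y⟩ hz
    rw [Finset.mem_union, Finset.mem_product, Finset.mem_product] at hz
    rw [Finset.mem_filter, Finset.mem_filter, Finset.mem_product]
    rcases hz with hz | hz
    · obtain ⟨hx, hy⟩ := hz
      obtain ⟨hx1, hx2⟩ := Finset.mem_filter.1 hx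
      obtain ⟨hy1, hy2⟩ := Finset.mem_filter.1 hy
      refine ⟨⟨⟨hx1, hy1⟩, ?_⟩, ?_⟩
      · simp only at hx2 hy2 ⊢
        rw [hx2, hy2]
      · simp only at hx2 ⊢
        rw [hx2]
        simp
    · obtain ⟨hx, hy⟩ := hz
      obtain ⟨hx1, hx2⟩ := Finset.mem_filter.1 hx
      obtain ⟨hy1, hy2⟩ := Finset.mem_filter.1 hy
      refine ⟨⟨⟨hx1, hy1⟩, ?_⟩, ?_⟩
      · simp only at hx2 hy2 ⊢
        rw [hx2, hy2]
      · simp only at hx2 ⊢
        rw [hx2]
        simp
  have h3 : Disjoint (A ×ˢ A) (B ×ˢ B) := by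
    rw [Finset.disjoint_left]
    rintro ⟨x, y⟩ hx hx'
    exact Finset.disjoint_left.1 hAB (Finset.mem_product.1 hx).1 (Finset.mem_product.1 hx').1
  have h4 := Finset.card_le_card h1
  have h5 := Finset.card_le_card h2
  rw [Finset.card_product, Finset.card_union_of_disjoint hAB] at h4
  rw [Finset.card_union_of_disjoint h3, Finset.card_product, Finset.card_product] at h5
  refine h4.trans ((?_ : _ ≤ 2 * (A.card * A.card + B.card * B.card)).trans
    (Nat.mul_le_mul_left 2 h5))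
  zify
  nlinarith [sq_nonneg ((A.card : ℤ) - (B.card : ℤ))]

theorem mulE_le {k : ℕ} {S : Finset ℤ} (h0 : (0 : ℤ) ∉ S) :
    mulE k S ≤ En (fun z : ℤ => be z.natAbs) k S := by
  unfold mulE En
  apply Finset.card_le_card
  rintro ⟨x, y⟩ hz
  rw [Finset.mem_filter, Finset.mem_product, Fintype.mem_piFinset, Fintype.mem_piFinset] at hz
  rw [Finset.mem_filter, Finset.mem_product, Fintype.mem_piFinset, Fintype.mem_piFinset]
  obtain ⟨⟨hx, hy⟩, hxy⟩ := hz
  refine ⟨⟨hx, hy⟩, ?_⟩
  simp only at hx hy hxy ⊢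
  rw [← enz_be_prod x (fun i h => h0 (h ▸ hx i)), ← enz_be_prod y (fun i h => h0 (h ▸ hy i)), hxy]

private theorem enz_En_le {k : ℕ} {S : Finset ℤ} (h0 : (0 : ℤ) ∉ S) :
    En (fun z : ℤ => be z.natAbs) k S ≤ 2 * mulE k S := by
  have h1 := enz_sign (Fintype.piFinset (fun _ : Fin k => S)) (fun x => ∏ i, x i) (by
    intro x hx
    rw [Fintype.mem_piFinset] at hx
    exact Finset.prod_ne_zero_iff.2 fun i _ h => h0 (h ▸ hx i))
  refine le_trans ?_ h1
  unfold En
  apply Finset.card_le_card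
  rintro ⟨x, y⟩ hz
  rw [Finset.mem_filter, Finset.mem_product, Fintype.mem_piFinset, Fintype.mem_piFinset] at hz
  rw [Finset.mem_filter, Finset.mem_product, Fintype.mem_piFinset, Fintype.mem_piFinset]
  obtain ⟨⟨hx, hy⟩, hxy⟩ := hz
  refine ⟨⟨hx, hy⟩, ?_⟩
  simp only at hx hy hxy ⊢
  have hx0 : ∀ i, x i ≠ 0 := fun i h => h0 (h ▸ hx i)
  have hy0 : ∀ i, y i ≠ 0 := fun i h => h0 (h ▸ hy i)
  rw [← enz_be_prod x hx0, ← enz_be_prod y hy0] at hxy
  exact enz_be_inj (Int.natAbs_ne_zero.2 (Finset.prod_ne_zero_iff.2 fun i _ => hx0 i))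
    (Int.natAbs_ne_zero.2 (Finset.prod_ne_zero_iff.2 fun i _ => hy0 i)) hxy

private theorem enz_NF_le {k : ℕ} (hk : 1 ≤ k) {S : Finset ℤ} (h0 : (0 : ℤ) ∉ S) :
    NF (fun z : ℤ => be z.natAbs) k S ≤ 2 * (mulE k S : ℝ) ^ ((1 : ℝ) / k) := by
  have h1 := enz_rpow_mono k (enz_En_le (k := k) h0)
  refine h1.trans ?_
  push_cast
  rw [Real.mul_rpow (by norm_num) (by positivity)]
  apply mul_le_mul_of_nonneg_right _ (by positivity)
  have hk' : (1 : ℝ) ≤ k := by exact_mod_cast hk
  calc (2 : ℝ) ^ ((1 : ℝ) / k) ≤ 2 ^ (1 : ℝ) := by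
        apply Real.rpow_le_rpow_of_exponent_le (by norm_num)
        rw [div_le_one (by linarith)]
        exact hk'
    _ = 2 := Real.rpow_one 2

/-- subadditivity of the additive energies -/
theorem addE_union {k : ℕ} (hk : 1 ≤ k) (S T : Finset ℤ) :
    ((addE k (S ∪ T) : ℝ)) ^ ((1 : ℝ) / k) ≤
      2 * (addE k S : ℝ) ^ ((1 : ℝ) / k) + 2 * (addE k T : ℝ) ^ ((1 : ℝ) / k) := by
  have h := enz_union RF_int (fun z : ℤ => z) hk S T
  exact h

/-- subadditivity of the multiplicative energies -/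
theorem mulE_union {k : ℕ} (hk : 1 ≤ k) {S T : Finset ℤ} (hS : (0 : ℤ) ∉ S)
    (hT : (0 : ℤ) ∉ T) :
    ((mulE k (S ∪ T) : ℝ)) ^ ((1 : ℝ) / k) ≤
      4 * (mulE k S : ℝ) ^ ((1 : ℝ) / k) + 4 * (mulE k T : ℝ) ^ ((1 : ℝ) / k) := by
  have h0 : (0 : ℤ) ∉ S ∪ T := by
    rw [Finset.mem_union]
    tauto
  have h1 : ((mulE k (S ∪ T) : ℝ)) ^ ((1 : ℝ) / k) ≤ NF (fun z : ℤ => be z.natAbs) k (S ∪ T) :=
    enz_rpow_mono k (mulE_le h0)
  have h2 := enz_union RF_finsupp (fun z : ℤ => be z.natAbs) hk S T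
  have h3 := enz_NF_le hk hS
  have h4 := enz_NF_le hk hT
  linarith

private theorem enz_part_inj (e : ℤ) (S : Finset ℤ) :
    Set.InjOn Int.natAbs ((S.filter (fun z => 0 < e * z) : Finset ℤ) : Set ℤ) := by
  intro x hx y hy hxy
  have h1 : 0 < e * x := (Finset.mem_filter.1 (Finset.mem_coe.1 hx)).2
  have h2 : 0 < e * y := (Finset.mem_filter.1 (Finset.mem_coe.1 hy)).2
  rcases Int.natAbs_eq_natAbs_iff.1 hxy with h | h
  · exact h
  · rw [h] at h1
    have : e * (-y) = -(e * y) := by ring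
    omega

private theorem enz_part_add (k : ℕ) {e : ℤ} (he : e = 1 ∨ e = -1) (S : Finset ℤ) :
    NF (fun z : ℤ => z) k (S.filter (fun z => 0 < e * z)) ≤ NF al k (part e S) := by
  unfold part
  apply enz_image (fun z : ℤ => z) al Int.natAbs k (enz_part_inj e S)
  intro x y hx hy hxy
  have key : ∀ z ∈ S.filter (fun z => 0 < e * z), al z.natAbs = e * z := by
    intro z hz
    have h1 : 0 < e * z := (Finset.mem_filter.1 hz).2
    unfold al
    rcases he with rfl | rfl <;> omega
  rw [Finset.sum_congr rfl fun i _ => key _ (hx i), Finset.sum_congr rfl fun i _ => key _ (hy i),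
    ← Finset.mul_sum, ← Finset.mul_sum, hxy]

private theorem enz_part_mul (k : ℕ) (e : ℤ) (S : Finset ℤ) :
    NF (fun z : ℤ => be z.natAbs) k (S.filter (fun z => 0 < e * z)) ≤ NF be k (part e S) := by
  unfold part
  exact enz_image (fun z : ℤ => be z.natAbs) be Int.natAbs k (enz_part_inj e S)
    (fun x y _ _ hxy => hxy)

theorem addE_part {k : ℕ} (hk : 1 ≤ k) (S : Finset ℤ) :
    ((addE k S : ℝ)) ^ ((1 : ℝ) / k) ≤
      4 * NF al k (part 1 S) + 4 * NF al k (part (-1) S) + 4 := by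
  have h1 : NF (fun z : ℤ => z) k S ≤ NF (fun z : ℤ => z) k
      (S.filter (fun z => 0 < 1 * z) ∪ (S.filter (fun z => 0 < (-1) * z) ∪ {0})) := by
    apply enz_NF_mono
    intro z hz
    rw [Finset.mem_union, Finset.mem_union, Finset.mem_filter, Finset.mem_filter,
      Finset.mem_singleton]
    rcases lt_trichotomy z 0 with h | h | h
    · right; left
      exact ⟨hz, by omega⟩
    · right; right
      exact h
    · left
      exact ⟨hz, by omega⟩
  have h2 := enz_union RF_int (fun z : ℤ => z) hk (S.filter (fun z => 0 < 1 * z))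
    (S.filter (fun z => 0 < (-1) * z) ∪ {0})
  have h3 := enz_union RF_int (fun z : ℤ => z) hk (S.filter (fun z => 0 < (-1) * z)) {0}
  have h4 := enz_part_add k (e := 1) (Or.inl rfl) S
  have h5 := enz_part_add k (e := -1) (Or.inr rfl) S
  have h6 : NF (fun z : ℤ => z) k {0} ≤ 1 := by
    have h : En (fun z : ℤ => z) k {0} ≤ 1 := by
      unfold En
      refine (Finset.card_filter_le _ _).trans ?_
      rw [Finset.card_product, Fintype.card_piFinset]
      simp
    unfold NF
    exact Real.rpow_le_one (by positivity) (by exact_mod_cast h) (by positivity)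
  have h7 : ((addE k S : ℝ)) ^ ((1 : ℝ) / k) = NF (fun z : ℤ => z) k S := rfl
  rw [h7]
  have h8 := enz_NF_nonneg al k (part 1 S)
  linarith

theorem mulE_part {k : ℕ} (hk : 1 ≤ k) {S : Finset ℤ} (h0 : (0 : ℤ) ∉ S) :
    ((mulE k S : ℝ)) ^ ((1 : ℝ) / k) ≤
      4 * NF be k (part 1 S) + 4 * NF be k (part (-1) S) := by
  have h1 : ((mulE k S : ℝ)) ^ ((1 : ℝ) / k) ≤ NF (fun z : ℤ => be z.natAbs) k S :=
    enz_rpow_mono k (mulE_le h0)
  have h2 : NF (fun z : ℤ => be z.natAbs) k S ≤ NF (fun z : ℤ => be z.natAbs) k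
      (S.filter (fun z => 0 < 1 * z) ∪ S.filter (fun z => 0 < (-1) * z)) := by
    apply enz_NF_mono
    intro z hz
    rw [Finset.mem_union, Finset.mem_filter, Finset.mem_filter]
    rcases lt_trichotomy z 0 with h | h | h
    · right
      exact ⟨hz, by omega⟩
    · exact absurd (h ▸ hz) h0
    · left
      exact ⟨hz, by omega⟩
  have h3 := enz_union RF_finsupp (fun z : ℤ => be z.natAbs) hk (S.filter (fun z => 0 < 1 * z))
    (S.filter (fun z => 0 < (-1) * z))
  have h4 := enz_part_mul k 1 S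
  have h5 := enz_part_mul k (-1) S
  have h6 := enz_NF_nonneg be k (part 1 S)
  have h7 := enz_NF_nonneg be k (part (-1) S)
  linarith

end Pool.Agent.Helper94.LE
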