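import Mathlib

set_option autoImplicit false

/-!
MP_120218_co, theorem LE: the pointwise inequality behind (M) (note 2496, part 2).
-/

namespace Pool.Agent.Helper94.LE

private lemma pt_exp {z : ℝ} (hz : |z| ≤ 5 / 4) : Real.exp z ≤ 1 + z + z ^ 2 := by
  obtain ⟨hz1, hz2⟩ := abs_le.1 hz
  have hw : |z / 2| ≤ 1 := by
    rw [abs_le]
    constructor <;> linarith
  have hb := Real.exp_bound hw (n := 3) (by norm_num)
  have hs : ∑ m ∈ Finset.range 3, (z / 2) ^ m / (m.factorial : ℝ) = 1 + z / 2 + (z / 2) ^ 2 / 2 := by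
    simp [Finset.sum_range_succ, Nat.factorial]
  rw [hs] at hb
  have hc : |z / 2| ^ 3 * ((Nat.succ 3 : ℕ) / ((Nat.factorial 3 : ℕ) * (3 : ℕ)) : ℝ)
      = 2 / 9 * |z / 2| ^ 3 := by
    norm_num [Nat.factorial]
    ring
  rw [hc] at hb
  have hE : Real.exp (z / 2) ≤ 1 + z / 2 + (z / 2) ^ 2 / 2 + 2 / 9 * |z / 2| ^ 3 := by
    have := (abs_le.1 hb).2
    linarith
  have hE0 : 0 ≤ Real.exp (z / 2) := (Real.exp_pos _).le
  have hsq : Real.exp z = Real.exp (z / 2) ^ 2 := by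
    rw [← Real.exp_nat_mul]
    congr 1
    push_cast
    ring
  rw [hsq]
  generalize Real.exp (z / 2) = E at hE hE0
  obtain ⟨w, rfl⟩ : ∃ w, z = 2 * w := ⟨z / 2, by ring⟩
  have e1 : 2 * w / 2 = w := by ring
  rw [e1] at hE
  have hw1 : -(5 / 8) ≤ w := by linarith
  have hw2 : w ≤ 5 / 8 := by linarith
  have h1 : E ^ 2 ≤ (1 + w + w ^ 2 / 2 + 2 / 9 * |w| ^ 3) ^ 2 := pow_le_pow_left₀ hE0 hE 2
  refine h1.trans ?_
  set P : ℝ := w + w ^ 2 / 2 + 2 / 9 * |w| ^ 3 with hP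
  have h2 : (1 + w + w ^ 2 / 2 + 2 / 9 * |w| ^ 3) ^ 2 = 1 + 2 * P + P ^ 2 := by
    rw [hP]; ring
  rw [h2]
  have h3 : |P| ≤ 7 / 5 * |w| := by
    have h4 : |P| ≤ |w| + |w| ^ 2 / 2 + 2 / 9 * |w| ^ 3 := by
      rw [hP]
      calc |w + w ^ 2 / 2 + 2 / 9 * |w| ^ 3| ≤ |w + w ^ 2 / 2| + |2 / 9 * |w| ^ 3| :=
            abs_add_le _ _
        _ ≤ (|w| + |w ^ 2 / 2|) + |2 / 9 * |w| ^ 3| := by
            gcongr
            exact abs_add_le _ _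
        _ = |w| + |w| ^ 2 / 2 + 2 / 9 * |w| ^ 3 := by
            rw [abs_of_nonneg (show (0 : ℝ) ≤ w ^ 2 / 2 by positivity),
              abs_of_nonneg (show (0 : ℝ) ≤ 2 / 9 * |w| ^ 3 by positivity), sq_abs]
    have h5 : |w| ≤ 5 / 8 := abs_le.2 ⟨by linarith, hw2⟩
    have h6 : 0 ≤ |w| := abs_nonneg w
    generalize |w| = v at h4 h5 h6
    have h7 : v ^ 2 / 2 ≤ 5 / 16 * v := by nlinarith
    have h8 : v ^ 3 ≤ 25 / 64 * v := by
      have : v ^ 2 ≤ 25 / 64 := by nlinarith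
      nlinarith
    nlinarith
  have h9 : P ^ 2 ≤ 49 / 25 * w ^ 2 := by
    have h10 : |P| ^ 2 ≤ (7 / 5 * |w|) ^ 2 := pow_le_pow_left₀ (abs_nonneg _) h3 2
    rw [sq_abs, mul_pow, sq_abs] at h10
    linarith
  have h11 : |w| ^ 3 ≤ 5 / 8 * w ^ 2 := by
    have h5 : |w| ≤ 5 / 8 := abs_le.2 ⟨by linarith, hw2⟩
    calc |w| ^ 3 = |w| * |w| ^ 2 := by ring
      _ ≤ 5 / 8 * |w| ^ 2 := mul_le_mul_of_nonneg_right h5 (by positivity)
      _ = 5 / 8 * w ^ 2 := by rw [sq_abs]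
  have h12 : 2 * P = 2 * w + w ^ 2 + 4 / 9 * |w| ^ 3 := by
    rw [hP]; ring
  nlinarith [sq_nonneg w]

private lemma pt_bern (A δ : ℝ) (hA : 1 ≤ A) (hδ : 0 ≤ δ) (k : ℕ) :
    A ^ k + k * δ ≤ (A + δ) ^ k := by
  induction k with
  | zero => simp
  | succ k ih =>
    have h1 : 1 ≤ A ^ k := one_le_pow₀ hA
    have h2 : (A ^ k + k * δ) * (A + δ) ≤ (A + δ) ^ k * (A + δ) :=
      mul_le_mul_of_nonneg_right ih (by linarith)
    have h3 : (A ^ k + k * δ) * (A + δ) = A ^ (k + 1) + A ^ k * δ + k * δ * A + k * δ ^ 2 := by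
      ring
    have h4 : δ ≤ A ^ k * δ := by nlinarith
    have h5 : (k : ℝ) * δ ≤ k * δ * A := by
      have : (0 : ℝ) ≤ k * δ := by positivity
      nlinarith
    have h6 : (0 : ℝ) ≤ k * δ ^ 2 := by positivity
    rw [pow_succ (A + δ)]
    push_cast
    nlinarith

private lemma pt_core {k : ℕ} (hk : 1 ≤ k) (r t : ℝ) (ht : 0 ≤ t) (hr : |r| ≤ t)
    (hx : 0 ≤ 1 + (2 * r + t ^ 2)) :
    (1 + (2 * r + t ^ 2)) ^ k ≤ 2 * k * r + (1 + 14 * k ^ 2 * t ^ 2) ^ k := by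
  obtain ⟨hr1, hr2⟩ := abs_le.1 hr
  have hk' : (1 : ℝ) ≤ k := by exact_mod_cast hk
  rcases le_or_gt t (1 / (2 * k)) with h | h
  · have h' : k * t ≤ 1 / 2 := by
      rw [le_div_iff₀ (by positivity)] at h
      linarith
    have ht2 : t ≤ 1 / 2 := by nlinarith
    have hxt : |2 * r + t ^ 2| ≤ 5 / 2 * t := by
      rw [abs_le]
      constructor <;> nlinarith
    have h1 : (1 + (2 * r + t ^ 2)) ^ k ≤ Real.exp (k * (2 * r + t ^ 2)) := by
      rw [Real.exp_nat_mul]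
      apply pow_le_pow_left₀ hx
      rw [add_comm]
      exact Real.add_one_le_exp _
    have h2 : |k * (2 * r + t ^ 2)| ≤ 5 / 2 * (k * t) := by
      rw [abs_mul, abs_of_nonneg (by positivity : (0 : ℝ) ≤ k)]
      nlinarith
    have h3 := pt_exp (z := k * (2 * r + t ^ 2)) (by linarith)
    have h4 : (k * (2 * r + t ^ 2)) ^ 2 ≤ 25 / 4 * (k * t) ^ 2 := by
      have h5 := pow_le_pow_left₀ (abs_nonneg _) h2 2
      rw [sq_abs] at h5
      linarith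
    have h6 : 1 + (k : ℝ) * (14 * k ^ 2 * t ^ 2) ≤ (1 + 14 * k ^ 2 * t ^ 2) ^ k := by
      have := pt_bern 1 (14 * k ^ 2 * t ^ 2) le_rfl (by positivity) k
      simpa using this
    have h7 : (k : ℝ) * t ^ 2 ≤ k ^ 2 * t ^ 2 := by
      have : (k : ℝ) ≤ k ^ 2 := by nlinarith
      nlinarith [sq_nonneg t]
    have h8 : (k : ℝ) ^ 2 * t ^ 2 ≤ k * (k ^ 2 * t ^ 2) := by
      have : (0 : ℝ) ≤ (k : ℝ) ^ 2 * t ^ 2 := by positivity
      nlinarith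
    nlinarith
  · have h' : 1 / 2 < k * t := by
      rw [div_lt_iff₀ (by positivity)] at h
      linarith
    have h1 : 1 + (2 * r + t ^ 2) ≤ 1 + 5 * (k * t) ^ 2 := by
      have h2 : t ≤ 2 * (k * t) ^ 2 := by
        have : t ≤ k * t := by nlinarith
        nlinarith
      have h3 : t ^ 2 ≤ (k * t) ^ 2 := by
        apply pow_le_pow_left₀ ht
        nlinarith
      nlinarith
    have h2 : (1 + (2 * r + t ^ 2)) ^ k ≤ (1 + 5 * (k * t) ^ 2) ^ k := pow_le_pow_left₀ hx h1 k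
    have h3 := pt_bern (1 + 5 * (k * t) ^ 2) (9 * (k * t) ^ 2) (by nlinarith [sq_nonneg (k * t)])
      (by positivity) k
    have h4 : 1 + 5 * (k * t) ^ 2 + 9 * (k * t) ^ 2 = 1 + 14 * k ^ 2 * t ^ 2 := by ring
    rw [h4] at h3
    have h5 : (k : ℝ) * (9 * (k * t) ^ 2) ≥ 2 * k * t := by
      have h6 : (k * t) ^ 2 ≥ 1 / 2 * (k * t) := by nlinarith
      have h7 : k * (k * t) ≥ k * t := by
        have : (0 : ℝ) ≤ k * t := by positivity
        nlinarith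
      nlinarith
    have h8 : 2 * k * r ≥ - (2 * k * t) := by nlinarith
    linarith

theorem pt {k : ℕ} (hk : 1 ≤ k) (a b : ℂ) :
    ‖a + b‖ ^ (2 * k) ≤
      2 * k * ((b * (starRingEnd ℂ) a).re * ‖a‖ ^ (2 * (k - 1))) +
        (‖a‖ ^ 2 + 14 * k ^ 2 * ‖b‖ ^ 2) ^ k := by
  have hk' : (1 : ℝ) ≤ k := by exact_mod_cast hk
  by_cases ha : a = 0
  · subst ha
    simp only [zero_add, map_zero, mul_zero, Complex.zero_re, zero_mul, norm_zero]
    rw [pow_mul]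
    apply pow_le_pow_left₀ (by positivity)
    have h1 : (0 : ℝ) ≤ ‖b‖ ^ 2 := by positivity
    have h2 : (1 : ℝ) ≤ (k : ℝ) ^ 2 := one_le_pow₀ hk'
    norm_num
    nlinarith
  · have hA : 0 < ‖a‖ := norm_pos_iff.2 ha
    set R := (b * (starRingEnd ℂ) a).re with hR
    have hRle : |R| ≤ ‖a‖ * ‖b‖ := by
      calc |R| ≤ ‖b * (starRingEnd ℂ) a‖ := Complex.abs_re_le_norm _
        _ = ‖a‖ * ‖b‖ := by rw [norm_mul, Complex.norm_conj, mul_comm]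
    have hsq : ‖a + b‖ ^ 2 = ‖a‖ ^ 2 * (1 + (2 * (R / ‖a‖ ^ 2) + (‖b‖ / ‖a‖) ^ 2)) := by
      have h1 : ‖a + b‖ ^ 2 = ‖a‖ ^ 2 + 2 * R + ‖b‖ ^ 2 := by
        rw [← Complex.normSq_eq_norm_sq, ← Complex.normSq_eq_norm_sq, ← Complex.normSq_eq_norm_sq,
          hR]
        simp only [Complex.normSq_apply, Complex.add_re, Complex.add_im, Complex.mul_re,
          Complex.conj_re, Complex.conj_im]
        ring
      rw [h1]
      field_simp
      ring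
    have hx : 0 ≤ 1 + (2 * (R / ‖a‖ ^ 2) + (‖b‖ / ‖a‖) ^ 2) := by
      have h1 : 0 ≤ ‖a‖ ^ 2 * (1 + (2 * (R / ‖a‖ ^ 2) + (‖b‖ / ‖a‖) ^ 2)) := by
        rw [← hsq]
        positivity
      exact nonneg_of_mul_nonneg_right h1 (by positivity)
    have hr : |R / ‖a‖ ^ 2| ≤ ‖b‖ / ‖a‖ := by
      rw [abs_div, abs_of_pos (show (0 : ℝ) < ‖a‖ ^ 2 by positivity), div_le_div_iff₀ (by positivity) hA]
      nlinarith
    have hmain := pt_core hk (R / ‖a‖ ^ 2) (‖b‖ / ‖a‖) (by positivity) hr hx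
    rw [pow_mul, hsq, mul_pow]
    have h2 : (‖a‖ ^ 2) ^ k * (2 * k * (R / ‖a‖ ^ 2) + (1 + 14 * k ^ 2 * (‖b‖ / ‖a‖) ^ 2) ^ k)
        = 2 * k * (R * ‖a‖ ^ (2 * (k - 1))) + (‖a‖ ^ 2 + 14 * k ^ 2 * ‖b‖ ^ 2) ^ k := by
      obtain ⟨j, rfl⟩ := Nat.exists_eq_add_of_le' hk
      rw [mul_add, ← mul_pow]
      congr 1
      · rw [Nat.add_sub_cancel, pow_succ, pow_mul ‖a‖ 2 j]
        field_simp
      · congr 1
        field_simp
    rw [← h2]
    exact mul_le_mul_of_nonneg_left hmain (by positivity)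

end Pool.Agent.Helper94.LE
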