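import Pool.Agent.Helper94.LE.FouA
import Pool.Agent.Helper94.LE.Pt

set_option autoImplicit false

/-!
MP_120218_co, theorem LE: the two norm inequalities in a finite abelian group.
-/

open Finset

namespace Pool.Agent.Helper94.LE

variable {ι H : Type*} [DecidableEq ι] [AddCommGroup H] [Fintype H] [DecidableEq H]

private lemma fou_mink {Ψ : Type*} [Fintype Ψ] {f g : Ψ → ℝ} (hf : ∀ x, 0 ≤ f x)
    (hg : ∀ x, 0 ≤ g x) {k : ℕ} (hk : 1 ≤ k) {c E Ea Eb : ℝ} (hc : 0 < c) (hE0 : 0 ≤ E)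
    (hEa0 : 0 ≤ Ea) (hEb0 : 0 ≤ Eb) (hE : c * E ≤ ∑ x, (f x + g x) ^ k)
    (hEa : ∑ x, f x ^ k = c * Ea) (hEb : ∑ x, g x ^ k = c * Eb) :
    E ^ ((1 : ℝ) / k) ≤ Ea ^ ((1 : ℝ) / k) + Eb ^ ((1 : ℝ) / k) := by
  have hk' : (1 : ℝ) ≤ (k : ℝ) := by exact_mod_cast hk
  have hm := Real.Lp_add_le (Finset.univ : Finset Ψ) f g hk'
  have e1 : ∑ x, |f x + g x| ^ (k : ℝ) = ∑ x, (f x + g x) ^ k := by
    refine Finset.sum_congr rfl fun x _ => ?_
    rw [abs_of_nonneg (add_nonneg (hf x) (hg x)), Real.rpow_natCast]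
  have e2 : ∑ x, |f x| ^ (k : ℝ) = ∑ x, f x ^ k := by
    refine Finset.sum_congr rfl fun x _ => ?_
    rw [abs_of_nonneg (hf x), Real.rpow_natCast]
  have e3 : ∑ x, |g x| ^ (k : ℝ) = ∑ x, g x ^ k := by
    refine Finset.sum_congr rfl fun x _ => ?_
    rw [abs_of_nonneg (hg x), Real.rpow_natCast]
  rw [e1, e2, e3, hEa, hEb, Real.mul_rpow hc.le hEa0, Real.mul_rpow hc.le hEb0,
    ← mul_add] at hm
  have h1 : (c * E) ^ ((1 : ℝ) / k) ≤ (∑ x, (f x + g x) ^ k) ^ ((1 : ℝ) / k) :=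
    Real.rpow_le_rpow (by positivity) hE (by positivity)
  rw [Real.mul_rpow hc.le hE0] at h1
  exact le_of_mul_le_mul_left (h1.trans hm) (Real.rpow_pos_of_pos hc _)

private lemma fou_pow_rpow {a : ℝ} (ha : 0 ≤ a) {k : ℕ} (hk : 1 ≤ k) :
    (a ^ k) ^ ((1 : ℝ) / k) = a := by
  rw [one_div]
  exact Real.pow_rpow_inv_natCast ha (by omega)

private lemma fou_chs_union (φ : ι → H) {S₀ S₁ : Finset ι} (hd : Disjoint S₀ S₁)
    (ψ : AddChar H ℂ) : chs φ (S₀ ∪ S₁) ψ = chs φ S₀ ψ + chs φ S₁ ψ :=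
  Finset.sum_union hd

theorem fou_tri (φ : ι → H) {k : ℕ} (hk : 1 ≤ k) {S₀ S₁ : Finset ι} (hd : Disjoint S₀ S₁)
    {θ η : ℝ} (hθ : 0 < θ) (hη : 0 < η) (hs : θ + η = 1) :
    NF φ k (S₀ ∪ S₁) ≤ NF φ k S₀ / θ + NF φ k S₁ / η := by
  have hc : (0 : ℝ) < (Fintype.card H : ℝ) := by
    exact_mod_cast Fintype.card_pos
  have key := fou_mink (Ψ := AddChar H ℂ) (f := fun ψ => ‖chs φ S₀ ψ‖ ^ 2 / θ)
    (g := fun ψ => ‖chs φ S₁ ψ‖ ^ 2 / η) (fun _ => by positivity) (fun _ => by positivity) hk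
    (c := Fintype.card H) (E := En φ k (S₀ ∪ S₁)) (Ea := (En φ k S₀ : ℝ) * (1 / θ) ^ k)
    (Eb := (En φ k S₁ : ℝ) * (1 / η) ^ k) hc (by positivity) (by positivity) (by positivity)
    (by
      rw [En_eq]
      refine Finset.sum_le_sum fun ψ _ => ?_
      rw [pow_mul, fou_chs_union φ hd]
      refine pow_le_pow_left₀ (by positivity) ?_ k
      have h1 : ‖chs φ S₀ ψ + chs φ S₁ ψ‖ ≤ ‖chs φ S₀ ψ‖ + ‖chs φ S₁ ψ‖ := norm_add_le _ _
      have h2 := pow_le_pow_left₀ (norm_nonneg _) h1 2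
      refine h2.trans ?_
      generalize ‖chs φ S₀ ψ‖ = a
      generalize ‖chs φ S₁ ψ‖ = b
      rw [div_add_div _ _ hθ.ne' hη.ne', le_div_iff₀ (mul_pos hθ hη)]
      have hη' : η = 1 - θ := by linarith
      subst hη'
      nlinarith [sq_nonneg ((1 - θ) * a - θ * b)])
    (by
      rw [← mul_assoc, En_eq, Finset.sum_mul]
      refine Finset.sum_congr rfl fun ψ _ => ?_
      rw [pow_mul, ← mul_pow]
      congr 1
      ring)
    (by
      rw [← mul_assoc, En_eq, Finset.sum_mul]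
      refine Finset.sum_congr rfl fun ψ _ => ?_
      rw [pow_mul, ← mul_pow]
      congr 1
      ring)
  rw [Real.mul_rpow (by positivity) (by positivity), Real.mul_rpow (by positivity) (by positivity),
    fou_pow_rpow (by positivity) hk, fou_pow_rpow (by positivity) hk, mul_one_div,
    mul_one_div] at key
  exact key

theorem fou_mart (φ : ι → H) {k : ℕ} (hk : 1 ≤ k) {Sa Sb : Finset ι} (hd : Disjoint Sa Sb)
    (h : ∀ b ∈ Sb, ∀ x : Fin (k - 1) → ι, (∀ i, x i ∈ Sa) → ∀ y : Fin k → ι, (∀ i, y i ∈ Sa) →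
      φ b + ∑ i, φ (x i) ≠ ∑ i, φ (y i)) :
    NF φ k (Sa ∪ Sb) ≤ NF φ k Sa + 14 * k ^ 2 * NF φ k Sb := by
  have hc : (0 : ℝ) < (Fintype.card H : ℝ) := by
    exact_mod_cast Fintype.card_pos
  have hlin := lin_zero φ hk h
  have key := fou_mink (Ψ := AddChar H ℂ) (f := fun ψ => ‖chs φ Sa ψ‖ ^ 2)
    (g := fun ψ => 14 * (k : ℝ) ^ 2 * ‖chs φ Sb ψ‖ ^ 2) (fun _ => by positivity)
    (fun _ => by positivity) hk
    (c := Fintype.card H) (E := En φ k (Sa ∪ Sb)) (Ea := (En φ k Sa : ℝ))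
    (Eb := (En φ k Sb : ℝ) * (14 * (k : ℝ) ^ 2) ^ k) hc (by positivity) (by positivity)
    (by positivity)
    (by
      rw [En_eq]
      have h1 : ∀ ψ : AddChar H ℂ, ‖chs φ (Sa ∪ Sb) ψ‖ ^ (2 * k) ≤
          2 * k * ((chs φ Sb ψ * (starRingEnd ℂ) (chs φ Sa ψ)).re *
            ‖chs φ Sa ψ‖ ^ (2 * (k - 1))) +
          (‖chs φ Sa ψ‖ ^ 2 + 14 * (k : ℝ) ^ 2 * ‖chs φ Sb ψ‖ ^ 2) ^ k := by
        intro ψ
        rw [fou_chs_union φ hd]
        exact pt hk _ _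
      refine (Finset.sum_le_sum fun ψ _ => h1 ψ).trans ?_
      rw [Finset.sum_add_distrib, ← Finset.mul_sum, hlin, mul_zero, zero_add])
    (by
      rw [En_eq]
      refine Finset.sum_congr rfl fun ψ _ => ?_
      rw [pow_mul])
    (by
      rw [← mul_assoc, En_eq, Finset.sum_mul]
      refine Finset.sum_congr rfl fun ψ _ => ?_
      rw [pow_mul, ← mul_pow]
      congr 1
      ring)
  rw [Real.mul_rpow (by positivity) (by positivity), fou_pow_rpow (by positivity) hk,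
    mul_comm ((En φ k Sb : ℝ) ^ ((1 : ℝ) / k))] at key
  exact key

end Pool.Agent.Helper94.LE
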