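import Pool.Agent.Helper94.LE.Defs

set_option autoImplicit false

/-!
MP_120218_co, theorem LE: energies as moments of character sums of a finite abelian group.
-/

open Finset

namespace Pool.Agent.Helper94.LE

variable {ι H : Type*} [DecidableEq ι] [AddCommGroup H] [Fintype H] [DecidableEq H]

/-- the character sum of `S` -/
noncomputable def chs (φ : ι → H) (S : Finset ι) (ψ : AddChar H ℂ) : ℂ := ∑ x ∈ S, ψ (φ x)

private theorem foua_sum {κ : Type*} (ψ : AddChar H ℂ) (s : Finset κ) (f : κ → H) :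
    ψ (∑ i ∈ s, f i) = ∏ i ∈ s, ψ (f i) := by
  classical
  induction s using Finset.induction_on with
  | empty => simp
  | insert a s ha ih =>
    rw [Finset.sum_insert ha, Finset.prod_insert ha, AddChar.map_add_eq_mul, ih]

private theorem foua_pow (φ : ι → H) (k : ℕ) (S : Finset ι) (ψ : AddChar H ℂ) :
    chs φ S ψ ^ k = ∑ x ∈ Fintype.piFinset (fun _ : Fin k => S), ψ (∑ i, φ (x i)) := by
  have h1 : chs φ S ψ ^ k = ∏ _i : Fin k, ∑ x ∈ S, ψ (φ x) := by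
    rw [Finset.prod_const, Finset.card_univ, Fintype.card_fin]
    rfl
  rw [h1, Finset.prod_univ_sum]
  exact Finset.sum_congr rfl fun x _ => (foua_sum ψ _ _).symm

private theorem foua_conj (φ : ι → H) (k : ℕ) (S : Finset ι) (ψ : AddChar H ℂ) :
    (starRingEnd ℂ) (chs φ S ψ) ^ k =
      ∑ y ∈ Fintype.piFinset (fun _ : Fin k => S), ψ (-∑ i, φ (y i)) := by
  rw [← map_pow, foua_pow, map_sum]
  exact Finset.sum_congr rfl fun y _ => (AddChar.map_neg_eq_conj ψ _).symm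

private theorem foua_norm (z : ℂ) (k : ℕ) :
    ((‖z‖ ^ (2 * k) : ℝ) : ℂ) = z ^ k * (starRingEnd ℂ) z ^ k := by
  rw [← mul_pow, Complex.mul_conj, Complex.normSq_eq_norm_sq]
  push_cast
  rw [pow_mul]

/-- the energy as a moment -/
theorem En_eq (φ : ι → H) (k : ℕ) (S : Finset ι) :
    (Fintype.card H : ℝ) * (En φ k S : ℝ) = ∑ ψ : AddChar H ℂ, ‖chs φ S ψ‖ ^ (2 * k) := by
  apply Complex.ofReal_injective
  rw [Complex.ofReal_sum]
  have h1 : ∀ ψ : AddChar H ℂ, ((‖chs φ S ψ‖ ^ (2 * k) : ℝ) : ℂ) =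
      ∑ z ∈ Fintype.piFinset (fun _ : Fin k => S) ×ˢ Fintype.piFinset (fun _ : Fin k => S),
        ψ (∑ i, φ (z.1 i) - ∑ i, φ (z.2 i)) := by
    intro ψ
    rw [foua_norm, foua_pow, foua_conj, Finset.sum_mul_sum, Finset.sum_product]
    exact Finset.sum_congr rfl fun x _ => Finset.sum_congr rfl fun y _ => by
      rw [sub_eq_add_neg, AddChar.map_add_eq_mul]
  rw [Finset.sum_congr rfl fun ψ _ => h1 ψ, Finset.sum_comm]
  simp only [AddChar.sum_apply_eq_ite, sub_eq_zero]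
  rw [← Finset.sum_filter, Finset.sum_const, nsmul_eq_mul]
  push_cast
  rw [mul_comm]
  rfl

/-- the linear term vanishes -/
theorem lin_zero (φ : ι → H) {k : ℕ} (hk : 1 ≤ k) {Sa Sb : Finset ι}
    (h : ∀ b ∈ Sb, ∀ x : Fin (k - 1) → ι, (∀ i, x i ∈ Sa) → ∀ y : Fin k → ι, (∀ i, y i ∈ Sa) →
      φ b + ∑ i, φ (x i) ≠ ∑ i, φ (y i)) :
    ∑ ψ : AddChar H ℂ, (chs φ Sb ψ * (starRingEnd ℂ) (chs φ Sa ψ)).re *
      ‖chs φ Sa ψ‖ ^ (2 * (k - 1)) = 0 := by
  have h1 : ∀ ψ : AddChar H ℂ, (chs φ Sb ψ * (starRingEnd ℂ) (chs φ Sa ψ)).re *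
      ‖chs φ Sa ψ‖ ^ (2 * (k - 1)) = (∑ b ∈ Sb,
        ∑ z ∈ Fintype.piFinset (fun _ : Fin (k - 1) => Sa) ×ˢ
          Fintype.piFinset (fun _ : Fin k => Sa),
        ψ (φ b + ∑ i, φ (z.1 i) - ∑ i, φ (z.2 i))).re := by
    intro ψ
    have h2 : chs φ Sb ψ * (starRingEnd ℂ) (chs φ Sa ψ) *
        ((‖chs φ Sa ψ‖ ^ (2 * (k - 1)) : ℝ) : ℂ) = ∑ b ∈ Sb,
        ∑ z ∈ Fintype.piFinset (fun _ : Fin (k - 1) => Sa) ×ˢ
          Fintype.piFinset (fun _ : Fin k => Sa),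
        ψ (φ b + ∑ i, φ (z.1 i) - ∑ i, φ (z.2 i)) := by
      rw [foua_norm]
      have h3 : chs φ Sb ψ * (starRingEnd ℂ) (chs φ Sa ψ) *
          (chs φ Sa ψ ^ (k - 1) * (starRingEnd ℂ) (chs φ Sa ψ) ^ (k - 1)) =
          chs φ Sb ψ * (chs φ Sa ψ ^ (k - 1) * (starRingEnd ℂ) (chs φ Sa ψ) ^ k) := by
        obtain ⟨m, rfl⟩ : ∃ m, k = m + 1 := ⟨k - 1, by omega⟩
        rw [Nat.add_sub_cancel, pow_succ]
        ring
      rw [h3, foua_pow, foua_conj, Finset.sum_mul_sum, chs, Finset.sum_mul]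
      refine Finset.sum_congr rfl fun b _ => ?_
      rw [Finset.sum_product, Finset.mul_sum]
      refine Finset.sum_congr rfl fun x _ => ?_
      rw [Finset.mul_sum]
      refine Finset.sum_congr rfl fun y _ => ?_
      rw [sub_eq_add_neg, AddChar.map_add_eq_mul, AddChar.map_add_eq_mul]
      ring
    rw [← h2, Complex.re_mul_ofReal]
  rw [Finset.sum_congr rfl fun ψ _ => h1 ψ, ← Complex.re_sum, Finset.sum_comm]
  rw [Finset.sum_eq_zero, Complex.zero_re]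
  intro b hb
  rw [Finset.sum_comm]
  refine Finset.sum_eq_zero fun z hz => ?_
  rw [AddChar.sum_apply_eq_ite, if_neg]
  rw [sub_eq_zero]
  rw [Finset.mem_product, Fintype.mem_piFinset, Fintype.mem_piFinset] at hz
  exact h b hb z.1 hz.1 z.2 hz.2

end Pool.Agent.Helper94.LE
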