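import Pool.Agent.Helper94.LE.Law

set_option autoImplicit false

/-!
MP_120218_co, theorem LE: iteration of the dyadic step (note 2496, part 5).
-/

open Finset

namespace Pool.Agent.Helper94.LE

variable {ι G : Type*} [DecidableEq ι] [AddCommGroup G] [DecidableEq G]

private theorem log_le_two_log {h : ℕ} (hh : 1 ≤ h) :
    Real.log h ≤ 2 * (Nat.log 2 h : ℝ) := by
  rcases Nat.eq_zero_or_pos (Nat.log 2 h) with h0 | h0
  · have h2 : h < 2 := by
      by_contra hlt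
      have : 0 < Nat.log 2 h := Nat.log_pos (by norm_num) (by omega)
      omega
    have h1 : h = 1 := by omega
    subst h1
    simp
  · have hlt : h < 2 ^ (Nat.log 2 h + 1) := Nat.lt_pow_succ_log_self (by norm_num) h
    have hpos : (0 : ℝ) < h := by exact_mod_cast hh
    have hle : (h : ℝ) ≤ 2 ^ (Nat.log 2 h + 1) := by exact_mod_cast hlt.le
    have h3 : Real.log h ≤ ((Nat.log 2 h + 1 : ℕ) : ℝ) * Real.log 2 := by
      rw [← Real.log_pow]
      exact Real.log_le_log hpos hle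
    have h4 : Real.log 2 ≤ 1 := by
      have := Real.log_two_lt_d9
      linarith
    have h5 : (0 : ℝ) ≤ Real.log 2 := Real.log_nonneg (by norm_num)
    have h6 : (1 : ℝ) ≤ (Nat.log 2 h : ℝ) := by exact_mod_cast h0
    push_cast at h3
    nlinarith

private theorem log_le_self' {h : ℕ} (hh : 1 ≤ h) :
    Real.log h ≤ 2 * (2 * (h : ℝ) - 1) := by
  have h1 : (1 : ℝ) ≤ h := by exact_mod_cast hh
  have h2 : Real.log h ≤ h - 1 := Real.log_le_sub_one_of_pos (by linarith)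
  linarith

theorem iter {c σ : ℝ} (hc : 0 < c) (hc1 : c ≤ 1) (hσ : 0 < σ) (hσ1 : σ ≤ 1) {C : ℕ → ℝ}
    (hC : ∀ j, 1 ≤ C j) {h : ℕ} (hh : 1 ≤ h) : ∃ C' : ℝ, 1 ≤ C' ∧
    ∀ (α : ι → G) (N : ℝ) (S : Finset ι), 1 ≤ N → (S.card : ℝ) ≤ N → Set.InjOn α S →
      (N ^ (1 - c * σ) ≤ S.card → ∀ j : ℕ, 1 ≤ j →
        (En α (2 * j) S : ℝ) ≤ C j * N ^ (-(c * σ)) * (S.card : ℝ) ^ (2 * j) * En α j S) →
      (En α h S : ℝ) ≤ C' * N ^ (2 * (h : ℝ) - 1 - c / 2 * σ * Real.log h) := by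
  have hP : ∀ t : ℕ, 1 ≤ ∏ s ∈ range t, C (2 ^ s) := by
    intro t
    induction t with
    | zero => simp
    | succ t ih =>
      rw [prod_range_succ]
      have := hC (2 ^ t)
      nlinarith
  refine ⟨∏ s ∈ range (Nat.log 2 h), C (2 ^ s), hP _, ?_⟩
  intro α N S hN hSN hinj hstep
  have hN0 : 0 < N := by linarith
  have hS0 : (0 : ℝ) ≤ S.card := Nat.cast_nonneg _
  have hcσ : 0 < c * σ := mul_pos hc hσ
  have hcσ1 : c * σ ≤ 1 := by nlinarith
  have hh1 : (1 : ℝ) ≤ h := by exact_mod_cast hh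
  have hlog0 : 0 ≤ Real.log h := Real.log_nonneg hh1
  have hRpos : 0 < N ^ (2 * (h : ℝ) - 1 - c / 2 * σ * Real.log h) := Real.rpow_pos_of_pos hN0 _
  have hCP := hP (Nat.log 2 h)
  rcases lt_or_ge (S.card : ℝ) (N ^ (1 - c * σ)) with hlt | hge
  · have h1 : (En α h S : ℝ) ≤ (S.card : ℝ) ^ (2 * h - 1) := En_le_pow hinj hh
    have h2 : (S.card : ℝ) ^ (2 * h - 1) ≤ (N ^ (1 - c * σ)) ^ (2 * h - 1) :=
      pow_le_pow_left₀ hS0 hlt.le _
    have h3 : (N ^ (1 - c * σ)) ^ (2 * h - 1) = N ^ ((1 - c * σ) * (2 * (h : ℝ) - 1)) := by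
      rw [← Real.rpow_natCast, ← Real.rpow_mul hN0.le]
      congr 2
      rw [Nat.cast_sub (by omega)]
      push_cast
      ring
    have h4 : N ^ ((1 - c * σ) * (2 * (h : ℝ) - 1)) ≤
        N ^ (2 * (h : ℝ) - 1 - c / 2 * σ * Real.log h) := by
      apply Real.rpow_le_rpow_of_exponent_le hN
      have := log_le_self' hh
      nlinarith
    calc (En α h S : ℝ) ≤ 1 * N ^ (2 * (h : ℝ) - 1 - c / 2 * σ * Real.log h) := by
          rw [one_mul]; exact h1.trans (h2.trans (h3 ▸ h4))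
      _ ≤ _ := mul_le_mul_of_nonneg_right hCP hRpos.le
  · have hs := hstep hge
    have key : ∀ t : ℕ, (En α (2 ^ t) S : ℝ) ≤
        (∏ s ∈ range t, C (2 ^ s)) * N ^ (-(c * σ) * (t : ℝ)) * (S.card : ℝ) ^ (2 * 2 ^ t - 1) := by
      intro t
      induction t with
      | zero =>
        have : (En α 1 S : ℝ) ≤ (S.card : ℝ) := by exact_mod_cast En_one_le hinj
        simpa using this
      | succ t ih =>
        have h1 := hs (2 ^ t) Nat.one_le_two_pow
        have e1 : 2 ^ (t + 1) = 2 * 2 ^ t := by ring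
        rw [e1]
        have hCt := hC (2 ^ t)
        have hNn : 0 ≤ N ^ (-(c * σ)) := Real.rpow_nonneg hN0.le _
        have h2 : C (2 ^ t) * N ^ (-(c * σ)) * (S.card : ℝ) ^ (2 * 2 ^ t) * En α (2 ^ t) S ≤
            C (2 ^ t) * N ^ (-(c * σ)) * (S.card : ℝ) ^ (2 * 2 ^ t) *
              ((∏ s ∈ range t, C (2 ^ s)) * N ^ (-(c * σ) * (t : ℝ)) *
                (S.card : ℝ) ^ (2 * 2 ^ t - 1)) := by
          apply mul_le_mul_of_nonneg_left ih
          have : 0 ≤ C (2 ^ t) := by linarith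
          positivity
        have h3 : C (2 ^ t) * N ^ (-(c * σ)) * (S.card : ℝ) ^ (2 * 2 ^ t) *
              ((∏ s ∈ range t, C (2 ^ s)) * N ^ (-(c * σ) * (t : ℝ)) *
                (S.card : ℝ) ^ (2 * 2 ^ t - 1)) =
            (∏ s ∈ range (t + 1), C (2 ^ s)) * N ^ (-(c * σ) * ((t + 1 : ℕ) : ℝ)) *
              (S.card : ℝ) ^ (2 * (2 * 2 ^ t) - 1) := by
          rw [prod_range_succ]
          have e2 : N ^ (-(c * σ) * ((t + 1 : ℕ) : ℝ)) =
              N ^ (-(c * σ)) * N ^ (-(c * σ) * (t : ℝ)) := by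
            rw [← Real.rpow_add hN0]
            congr 1
            push_cast
            ring
          have e3 : (S.card : ℝ) ^ (2 * (2 * 2 ^ t) - 1) =
              (S.card : ℝ) ^ (2 * 2 ^ t) * (S.card : ℝ) ^ (2 * 2 ^ t - 1) := by
            rw [← pow_add]
            congr 1
            have : 1 ≤ 2 ^ t := Nat.one_le_two_pow
            omega
          rw [e2, e3]
          ring
        exact h1.trans (h3 ▸ h2)
    have hi : 2 ^ (Nat.log 2 h) ≤ h := Nat.pow_log_le_self 2 (by omega)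
    have h1 : (En α h S : ℝ) ≤ En α (2 ^ (Nat.log 2 h)) S *
        (S.card : ℝ) ^ (2 * (h - 2 ^ (Nat.log 2 h))) := En_mono α hi S
    have h2 := key (Nat.log 2 h)
    have h3 : (En α (2 ^ (Nat.log 2 h)) S : ℝ) * (S.card : ℝ) ^ (2 * (h - 2 ^ (Nat.log 2 h))) ≤
        (∏ s ∈ range (Nat.log 2 h), C (2 ^ s)) * N ^ (-(c * σ) * ((Nat.log 2 h : ℕ) : ℝ)) *
          (S.card : ℝ) ^ (2 * 2 ^ (Nat.log 2 h) - 1) *
            (S.card : ℝ) ^ (2 * (h - 2 ^ (Nat.log 2 h))) :=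
      mul_le_mul_of_nonneg_right h2 (by positivity)
    have h4 : (∏ s ∈ range (Nat.log 2 h), C (2 ^ s)) * N ^ (-(c * σ) * ((Nat.log 2 h : ℕ) : ℝ)) *
          (S.card : ℝ) ^ (2 * 2 ^ (Nat.log 2 h) - 1) *
            (S.card : ℝ) ^ (2 * (h - 2 ^ (Nat.log 2 h))) =
        (∏ s ∈ range (Nat.log 2 h), C (2 ^ s)) * (N ^ (-(c * σ) * ((Nat.log 2 h : ℕ) : ℝ)) *
          (S.card : ℝ) ^ (2 * h - 1)) := by
      have e3 : (S.card : ℝ) ^ (2 * h - 1) = (S.card : ℝ) ^ (2 * 2 ^ (Nat.log 2 h) - 1) *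
          (S.card : ℝ) ^ (2 * (h - 2 ^ (Nat.log 2 h))) := by
        rw [← pow_add]
        congr 1
        have : 1 ≤ 2 ^ (Nat.log 2 h) := Nat.one_le_two_pow
        omega
      rw [e3]
      ring
    have h5 : N ^ (-(c * σ) * ((Nat.log 2 h : ℕ) : ℝ)) * (S.card : ℝ) ^ (2 * h - 1) ≤
        N ^ (2 * (h : ℝ) - 1 - c / 2 * σ * Real.log h) := by
      have e1 : (S.card : ℝ) ^ (2 * h - 1) ≤ N ^ (2 * (h : ℝ) - 1) := by
        have : (S.card : ℝ) ^ (2 * h - 1) ≤ N ^ (2 * h - 1) := pow_le_pow_left₀ hS0 hSN _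
        refine this.trans (le_of_eq ?_)
        rw [← Real.rpow_natCast]
        congr 1
        rw [Nat.cast_sub (by omega)]
        push_cast
        ring
      calc N ^ (-(c * σ) * ((Nat.log 2 h : ℕ) : ℝ)) * (S.card : ℝ) ^ (2 * h - 1)
          ≤ N ^ (-(c * σ) * ((Nat.log 2 h : ℕ) : ℝ)) * N ^ (2 * (h : ℝ) - 1) :=
            mul_le_mul_of_nonneg_left e1 (Real.rpow_nonneg hN0.le _)
        _ = N ^ (-(c * σ) * ((Nat.log 2 h : ℕ) : ℝ) + (2 * (h : ℝ) - 1)) := by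
            rw [Real.rpow_add hN0]
        _ ≤ _ := by
            apply Real.rpow_le_rpow_of_exponent_le hN
            have := log_le_two_log hh
            nlinarith
    calc (En α h S : ℝ) ≤ _ := h1
      _ ≤ _ := h3
      _ = _ := h4
      _ ≤ _ := mul_le_mul_of_nonneg_left h5 (by linarith)

end Pool.Agent.Helper94.LE
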