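import Pool.Agent.Helper94.LE.Defs

set_option autoImplicit false

/-!
MP_120218_co, theorem LE: the laws of `α y₁ + ... + α y_j` (note 2496, part 4).
-/

open Finset
open scoped Pointwise

namespace Pool.Agent.Helper94.LE

variable {ι G : Type*} [DecidableEq ι] [AddCommGroup G] [DecidableEq G]

/-- the law of `α y₁ + ... + α y_j`, `y_i` uniform in `S` -/
noncomputable def law (α : ι → G) (j : ℕ) (S : Finset ι) (t : G) : ℝ :=
  (rr α j S t : ℝ) / (S.card : ℝ) ^ j

/-- the sum of `g` over all tuples -/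
private noncomputable def TT (α : ι → G) (j : ℕ) (S : Finset ι) (g : G → ℝ) : ℝ :=
  ∑ x ∈ Fintype.piFinset (fun _ : Fin j => S), g (∑ i, α (x i))

omit [DecidableEq ι] in
private theorem TT_congr (α : ι → G) (j : ℕ) (S : Finset ι) {g h : G → ℝ}
    (H : ∀ a, g a = h a) : TT α j S g = TT α j S h := by
  unfold TT
  exact sum_congr rfl fun x _ => H _

omit [DecidableEq ι] in
private theorem TT_add (α : ι → G) (j l : ℕ) (S : Finset ι) (g : G → ℝ) :
    TT α (j + l) S g = TT α j S (fun a => TT α l S (fun b => g (a + b))) := by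
  unfold TT
  rw [← sum_product']
  symm
  refine sum_bij' (fun z _ => Fin.append z.1 z.2)
    (fun x _ => (fun i => x (Fin.castAdd l i), fun i => x (Fin.natAdd j i))) ?_ ?_ ?_ ?_ ?_
  · rintro ⟨x, y⟩ h
    rw [mem_product, Fintype.mem_piFinset, Fintype.mem_piFinset] at h
    rw [Fintype.mem_piFinset]
    intro i
    refine Fin.addCases (fun a => ?_) (fun b => ?_) i
    · rw [Fin.append_left]
      exact h.1 a
    · rw [Fin.append_right]
      exact h.2 b
  · intro x h
    rw [Fintype.mem_piFinset] at h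
    rw [mem_product, Fintype.mem_piFinset, Fintype.mem_piFinset]
    exact ⟨fun i => h _, fun i => h _⟩
  · rintro ⟨x, y⟩ _
    ext i
    · exact Fin.append_left x y i
    · exact Fin.append_right x y i
  · intro x _
    funext i
    refine Fin.addCases (fun a => ?_) (fun b => ?_) i
    · rw [Fin.append_left]
    · rw [Fin.append_right]
  · rintro ⟨x, y⟩ _
    rw [Fin.sum_univ_add]
    simp only [Fin.append_left, Fin.append_right]

omit [DecidableEq ι] in
private theorem TT_one (α : ι → G) (S : Finset ι) (g : G → ℝ) :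
    TT α 1 S g = ∑ y ∈ S, g (α y) := by
  unfold TT
  symm
  refine sum_bij' (fun y _ => fun _ => y) (fun x _ => x 0) ?_ ?_ ?_ ?_ ?_
  · intro y hy
    rw [Fintype.mem_piFinset]
    exact fun _ => hy
  · intro x hx
    rw [Fintype.mem_piFinset] at hx
    exact hx 0
  · intro y _
    rfl
  · intro x _
    funext i
    rw [Subsingleton.elim i 0]
  · intro y _
    rw [Fin.sum_univ_one]

omit [DecidableEq ι] in
private theorem rr_eq (α : ι → G) (j : ℕ) (S : Finset ι) (t : G) :
    (rr α j S t : ℝ) = TT α j S (fun a => if a = t then 1 else 0) := by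
  unfold rr TT
  rw [card_filter]
  push_cast
  rfl

omit [DecidableEq ι] in
private theorem TT_fiber (α : ι → G) (j : ℕ) (S : Finset ι) (g : G → ℝ) :
    TT α j S g = ∑ t ∈ su α j S, (rr α j S t : ℝ) * g t := by
  unfold TT
  rw [← sum_fiberwise_of_maps_to (s := Fintype.piFinset (fun _ : Fin j => S)) (t := su α j S)
    (g := fun x => ∑ i, α (x i))]
  · refine sum_congr rfl fun t _ => ?_
    unfold rr
    rw [card_eq_sum_ones]
    push_cast
    rw [sum_mul]
    refine sum_congr rfl fun x hx => ?_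
    rw [mem_filter] at hx
    rw [hx.2, one_mul]
  · intro x hx
    unfold su
    exact mem_image_of_mem _ hx

omit [DecidableEq ι] in
private theorem rr_zero_of_notMem (α : ι → G) (j : ℕ) (S : Finset ι) {t : G}
    (ht : t ∉ su α j S) : rr α j S t = 0 := by
  unfold rr
  rw [card_eq_zero, filter_eq_empty_iff]
  intro x hx h
  apply ht
  unfold su
  exact mem_image.2 ⟨x, hx, h⟩

omit [DecidableEq ι] in
private theorem TT_card (α : ι → G) (j : ℕ) (S : Finset ι) :
    TT α j S (fun _ => 1) = (S.card : ℝ) ^ j := by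
  unfold TT
  rw [sum_const, Fintype.card_piFinset_const, nsmul_eq_mul, mul_one]
  push_cast
  rfl

omit [DecidableEq ι] in
private theorem En_eq_TT (α : ι → G) (k : ℕ) (S : Finset ι) :
    (En α k S : ℝ) = TT α k S (fun a => (rr α k S a : ℝ)) := by
  unfold En
  rw [card_filter, sum_product]
  push_cast
  unfold TT
  refine sum_congr rfl fun x _ => ?_
  beta_reduce
  rw [rr_eq]
  unfold TT
  refine sum_congr rfl fun y _ => ?_
  beta_reduce
  by_cases h : ∑ i, α (x i) = ∑ i, α (y i)
  · rw [if_pos h, if_pos h.symm]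
  · rw [if_neg h, if_neg (fun h' => h h'.symm)]

theorem law_nonneg (α : ι → G) (j : ℕ) (S : Finset ι) (t : G) : 0 ≤ law α j S t := by
  unfold law
  positivity

theorem law_supp (α : ι → G) (j : ℕ) (S : Finset ι) {t : G} (ht : t ∉ su α j S) :
    law α j S t = 0 := by
  unfold law
  rw [rr_zero_of_notMem α j S ht, Nat.cast_zero, zero_div]

omit [DecidableEq ι] in
private theorem rr_sum (α : ι → G) (j : ℕ) (S : Finset ι) :
    ∑ t ∈ su α j S, (rr α j S t : ℝ) = (S.card : ℝ) ^ j := by
  rw [← TT_card α j S, TT_fiber]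
  refine sum_congr rfl fun t _ => ?_
  rw [mul_one]

theorem law_mass (α : ι → G) (j : ℕ) {S : Finset ι} (hS : S.Nonempty) :
    ∑ t ∈ su α j S, law α j S t = 1 := by
  unfold law
  rw [← sum_div, rr_sum]
  have h : (S.card : ℝ) ≠ 0 := by exact_mod_cast (card_pos.2 hS).ne'
  exact div_self (pow_ne_zero _ h)

theorem En_eq_sum (α : ι → G) (j : ℕ) (S : Finset ι) :
    (En α j S : ℝ) = ∑ t ∈ su α j S, (rr α j S t : ℝ) ^ 2 := by
  rw [En_eq_TT, TT_fiber]
  refine sum_congr rfl fun t _ => ?_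
  rw [sq]

/-- the representations of `s` by `j + l` summands -/
private theorem rr_add (α : ι → G) (j l : ℕ) (S : Finset ι) (s : G) :
    (rr α (j + l) S s : ℝ) = TT α j S (fun a => (rr α l S (s - a) : ℝ)) := by
  rw [rr_eq, TT_add]
  refine TT_congr _ _ _ fun a => ?_
  rw [rr_eq]
  refine TT_congr _ _ _ fun b => ?_
  by_cases h : a + b = s
  · rw [if_pos h, if_pos (by rw [← h]; abel)]
  · rw [if_neg h, if_neg (fun h' => h (by rw [h']; abel))]

/-- a sum over the differences from a fixed element -/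
private theorem sum_sub_set {U : Finset G} {r c : G → ℝ} (hr : ∀ t, t ∉ U → r t = 0) {x : G}
    (hx : x ∈ U) : ∑ t ∈ U - U, c t * r (x + t) = ∑ x' ∈ U, c (x' - x) * r x' := by
  have h1 : ∑ x' ∈ U, c (x' - x) * r x' = ∑ t ∈ U.image (fun x' => x' - x), c t * r (x + t) := by
    rw [sum_image]
    · refine sum_congr rfl fun x' _ => ?_
      rw [add_sub_cancel]
    · intro a _ b _ h
      exact sub_left_injective h
  rw [h1]
  symm
  apply sum_subset
  · intro t ht
    obtain ⟨x', hx', rfl⟩ := mem_image.1 ht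
    exact sub_mem_sub hx' hx
  · intro t _ ht
    have h2 : x + t ∉ U := by
      intro h3
      apply ht
      refine mem_image.2 ⟨x + t, h3, ?_⟩
      rw [add_sub_cancel_left]
    rw [hr _ h2, mul_zero]

theorem En_two (α : ι → G) (j : ℕ) (S : Finset ι) :
    (En α (2 * j) S : ℝ) = ∑ t ∈ su α j S - su α j S,
      (∑ x ∈ su α j S, (rr α j S x : ℝ) * rr α j S (x + t)) ^ 2 := by
  set U := su α j S with hU
  set r : G → ℝ := fun t => (rr α j S t : ℝ) with hrdef
  have hr : ∀ t, t ∉ U → r t = 0 := fun t ht => by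
    simp only [hrdef]
    rw [rr_zero_of_notMem α j S ht, Nat.cast_zero]
  -- the left side
  have hL : (En α (2 * j) S : ℝ) =
      ∑ a ∈ U, r a * ∑ b ∈ U, r b * ∑ c ∈ U, r c * r (a + b - c) := by
    rw [two_mul, En_eq_TT, TT_add, TT_fiber]
    refine sum_congr rfl fun a _ => ?_
    rw [TT_fiber]
    congr 1
    refine sum_congr rfl fun b _ => ?_
    rw [rr_add, TT_fiber]
  -- the right side
  have hR : ∑ t ∈ U - U, (∑ x ∈ U, r x * r (x + t)) ^ 2 =
      ∑ x ∈ U, r x * ∑ x' ∈ U, r x' * ∑ y ∈ U, r y * r (y + (x' - x)) := by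
    have h1 : ∀ t, (∑ x ∈ U, r x * r (x + t)) ^ 2 =
        ∑ x ∈ U, r x * ((∑ y ∈ U, r y * r (y + t)) * r (x + t)) := by
      intro t
      rw [sq, sum_mul]
      refine sum_congr rfl fun x _ => ?_
      ring
    rw [sum_congr rfl fun t _ => h1 t, sum_comm]
    refine sum_congr rfl fun x hx => ?_
    rw [← mul_sum]
    congr 1
    rw [sum_sub_set (c := fun t => ∑ y ∈ U, r y * r (y + t)) hr hx]
    refine sum_congr rfl fun x' _ => ?_
    rw [mul_comm]
  rw [hL]
  show _ = ∑ t ∈ U - U, (∑ x ∈ U, r x * r (x + t)) ^ 2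
  rw [hR]
  -- rename the variables
  have h3 : ∑ a ∈ U, r a * ∑ b ∈ U, r b * ∑ c ∈ U, r c * r (a + b - c) =
      ∑ a ∈ U, ∑ b ∈ U, ∑ c ∈ U, r a * r b * r c * r (a + b - c) := by
    refine sum_congr rfl fun a _ => ?_
    rw [mul_sum]
    refine sum_congr rfl fun b _ => ?_
    rw [mul_sum, mul_sum]
    refine sum_congr rfl fun c _ => ?_
    ring
  have h4 : ∑ x ∈ U, r x * ∑ x' ∈ U, r x' * ∑ y ∈ U, r y * r (y + (x' - x)) =
      ∑ x ∈ U, ∑ x' ∈ U, ∑ y ∈ U, r x' * r y * r x * r (x' + y - x) := by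
    refine sum_congr rfl fun x _ => ?_
    rw [mul_sum]
    refine sum_congr rfl fun x' _ => ?_
    rw [mul_sum, mul_sum]
    refine sum_congr rfl fun y _ => ?_
    rw [show y + (x' - x) = x' + y - x by abel]
    ring
  rw [h3, h4]
  have h5 : ∑ a ∈ U, ∑ b ∈ U, ∑ c ∈ U, r a * r b * r c * r (a + b - c) =
      ∑ a ∈ U, ∑ c ∈ U, ∑ b ∈ U, r a * r b * r c * r (a + b - c) :=
    sum_congr rfl fun a _ => sum_comm
  rw [h5, sum_comm]

/-- one more summand -/
private theorem En_succ (α : ι → G) (l : ℕ) (S : Finset ι) :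
    (En α (l + 1) S : ℝ) ≤ En α l S * (S.card : ℝ) ^ 2 := by
  rw [En_eq_sum]
  have h1 : ∀ s, (rr α (l + 1) S s : ℝ) = ∑ y ∈ S, (rr α l S (s - α y) : ℝ) := by
    intro s
    rw [add_comm l 1, rr_add, TT_one]
  have h2 : ∀ s, (rr α (l + 1) S s : ℝ) ^ 2 ≤
      S.card * ∑ y ∈ S, (rr α l S (s - α y) : ℝ) ^ 2 := by
    intro s
    rw [h1]
    exact sq_sum_le_card_mul_sum_sq
  refine (sum_le_sum fun s _ => h2 s).trans ?_
  rw [← mul_sum, sum_comm]
  have h3 : ∀ y ∈ S, ∑ s ∈ su α (l + 1) S, (rr α l S (s - α y) : ℝ) ^ 2 ≤ En α l S := by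
    intro y _
    have h4 : ∑ s ∈ su α (l + 1) S, (rr α l S (s - α y) : ℝ) ^ 2 =
        ∑ t ∈ (su α (l + 1) S).image (fun s => s - α y), (rr α l S t : ℝ) ^ 2 := by
      rw [sum_image]
      intro a _ b _ h
      exact sub_left_injective h
    rw [h4, En_eq_sum]
    set V := (su α (l + 1) S).image (fun s => s - α y) with hV
    have h5 : ∑ t ∈ V, (rr α l S t : ℝ) ^ 2 = ∑ t ∈ V.filter (fun t => t ∈ su α l S),
        (rr α l S t : ℝ) ^ 2 := by
      symm
      apply sum_filter_of_ne
      intro t _ ht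
      by_contra h6
      apply ht
      rw [rr_zero_of_notMem α l S h6, Nat.cast_zero]
      norm_num
    rw [h5]
    apply sum_le_sum_of_subset_of_nonneg
    · intro t ht
      exact (mem_filter.1 ht).2
    · intro t _ _
      positivity
  have h7 : ∑ y ∈ S, ∑ s ∈ su α (l + 1) S, (rr α l S (s - α y) : ℝ) ^ 2 ≤
      S.card * (En α l S : ℝ) := by
    refine (sum_le_sum h3).trans ?_
    rw [sum_const, nsmul_eq_mul]
  calc (S.card : ℝ) * ∑ y ∈ S, ∑ s ∈ su α (l + 1) S, (rr α l S (s - α y) : ℝ) ^ 2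
      ≤ S.card * (S.card * (En α l S : ℝ)) := mul_le_mul_of_nonneg_left h7 (by positivity)
    _ = En α l S * (S.card : ℝ) ^ 2 := by ring

/-- adding summands does not increase the normalised energy -/
theorem En_mono (α : ι → G) {j l : ℕ} (hjl : j ≤ l) (S : Finset ι) :
    (En α l S : ℝ) ≤ En α j S * (S.card : ℝ) ^ (2 * (l - j)) := by
  induction l, hjl using Nat.le_induction with
  | base => rw [Nat.sub_self, mul_zero, pow_zero, mul_one]
  | succ l hl ih =>
    have h1 := En_succ α l S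
    have h2 : 2 * (l + 1 - j) = 2 * (l - j) + 2 := by omega
    rw [h2, pow_add, ← mul_assoc]
    exact h1.trans (mul_le_mul_of_nonneg_right ih (by positivity))

theorem En_one_le {α : ι → G} {S : Finset ι} (h : Set.InjOn α S) : En α 1 S ≤ S.card := by
  have h1 : (En α 1 S : ℝ) ≤ S.card := by
    rw [En_eq_TT, TT_one]
    have h2 : ∀ y ∈ S, (rr α 1 S (α y) : ℝ) ≤ 1 := by
      intro y hy
      rw [rr_eq, TT_one]
      rw [sum_eq_single y]
      · rw [if_pos rfl]
      · intro z hz hzy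
        rw [if_neg fun h3 => hzy (h hz hy h3)]
      · intro h3
        exact absurd hy h3
    refine (sum_le_sum h2).trans ?_
    rw [sum_const, nsmul_eq_mul, mul_one]
  exact_mod_cast h1

theorem En_le_pow {α : ι → G} {S : Finset ι} (h : Set.InjOn α S) {k : ℕ} (hk : 1 ≤ k) :
    (En α k S : ℝ) ≤ (S.card : ℝ) ^ (2 * k - 1) := by
  have h1 := En_mono α hk S
  have h2 : (En α 1 S : ℝ) ≤ S.card := by exact_mod_cast En_one_le h
  have h3 : 2 * k - 1 = 2 * (k - 1) + 1 := by omega
  rw [h3, pow_succ, mul_comm _ (S.card : ℝ)]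
  exact h1.trans (mul_le_mul_of_nonneg_right h2 (by positivity))

/-- the lower bound of Cauchy-Schwarz -/
theorem En_ge (α : ι → G) (k : ℕ) (S : Finset ι) :
    (S.card : ℝ) ^ (2 * k) ≤ En α k S * (su α k S).card := by
  rw [En_eq_sum, mul_comm 2 k, pow_mul, ← rr_sum α k S, mul_comm]
  exact sq_sum_le_card_mul_sum_sq

theorem su_card_le (α : ι → G) (k : ℕ) (S : Finset ι) : (su α k S).card ≤ S.card ^ k := by
  unfold su
  refine card_image_le.trans ?_
  rw [Fintype.card_piFinset_const]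

/-- a translate of `S` with many points in `X` -/
theorem law_point (α : ι → G) {j : ℕ} (hj : 1 ≤ j) {S : Finset ι} (hS : S.Nonempty)
    (X : Finset G) : ∃ z : G, (∑ x ∈ X, law α j S x) * S.card ≤
      ((S.filter (fun y => z + α y ∈ X)).card : ℝ) := by
  obtain ⟨i, rfl⟩ : ∃ i, j = i + 1 := ⟨j - 1, by omega⟩
  have hc : (0 : ℝ) < S.card := by exact_mod_cast card_pos.2 hS
  have h1 : ∑ x ∈ X, law α (i + 1) S x * (S.card : ℝ) ^ (i + 1) =
      TT α i S (fun z => ((S.filter (fun y => z + α y ∈ X)).card : ℝ)) := by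
    have h2 : ∀ x ∈ X, law α (i + 1) S x * (S.card : ℝ) ^ (i + 1) =
        TT α (i + 1) S (fun a => if a = x then 1 else 0) := by
      intro x _
      unfold law
      rw [div_mul_cancel₀ _ (pow_ne_zero _ hc.ne'), rr_eq]
    rw [sum_congr rfl h2]
    have h3 : ∑ x ∈ X, TT α (i + 1) S (fun a => if a = x then (1 : ℝ) else 0) =
        TT α (i + 1) S (fun a => if a ∈ X then (1 : ℝ) else 0) := by
      unfold TT
      rw [sum_comm]
      refine sum_congr rfl fun x _ => ?_
      rw [sum_ite_eq]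
    rw [h3, TT_add]
    refine TT_congr _ _ _ fun z => ?_
    rw [TT_one, card_filter]
    push_cast
    rfl
  by_contra hcon
  push_neg at hcon
  have h4 : TT α i S (fun z => ((S.filter (fun y => z + α y ∈ X)).card : ℝ)) <
      ((∑ x ∈ X, law α (i + 1) S x) * S.card) * (S.card : ℝ) ^ i := by
    have h5 : ((∑ x ∈ X, law α (i + 1) S x) * S.card) * (S.card : ℝ) ^ i =
        ∑ x ∈ Fintype.piFinset (fun _ : Fin i => S),
          ((∑ x ∈ X, law α (i + 1) S x) * S.card) := by
      rw [sum_const, Fintype.card_piFinset_const, nsmul_eq_mul, mul_comm]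
      push_cast
      rfl
    rw [h5]
    unfold TT
    apply sum_lt_sum_of_nonempty
    · rw [← card_pos, Fintype.card_piFinset_const]
      exact pow_pos (card_pos.2 hS) _
    · intro x _
      exact hcon _
  rw [← h1, ← sum_mul] at h4
  have h6 : (∑ x ∈ X, law α (i + 1) S x) * (S.card : ℝ) ^ (i + 1) =
      ((∑ x ∈ X, law α (i + 1) S x) * S.card) * (S.card : ℝ) ^ i := by
    rw [pow_succ]
    ring
  rw [h6] at h4
  exact lt_irrefl _ h4

end Pool.Agent.Helper94.LE
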