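import Pool.Agent.Helper94.LE.Law
import Pool.Agent.Helper94.LE.BSG

set_option autoImplicit false

/-!
MP_120218_co, theorem LE: large energy of order `2j` against order `j` (note 2496, part 4).
-/

open Finset
open scoped Pointwise

namespace Pool.Agent.Helper94.LE

variable {ι G : Type*} [DecidableEq ι] [AddCommGroup G] [DecidableEq G]

/-- large energy of order `2j` against order `j`: a structured piece of `S` -/
theorem law_step (α : ι → G) {j : ℕ} (hj : 1 ≤ j) {S : Finset ι} (hS : S.Nonempty) {K : ℝ}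
    (hK : 1 ≤ K) (hE : (En α j S : ℝ) * (S.card : ℝ) ^ (2 * j) ≤ K * En α (2 * j) S) :
    ∃ X : Finset G, ∃ z : G, X.Nonempty ∧
      (S.card : ℝ) ≤ 128 * K ^ 3 * (S.filter (fun y => z + α y ∈ X)).card ∧
      (X.card : ℝ) ≤ 2 ^ 22 * K ^ 6 * (S.card : ℝ) ^ j ∧
      ((X + X).card : ℝ) ≤ 2 ^ 62 * K ^ 20 * X.card := by
  have hK0 : 0 < K := by linarith
  have hSc : (0 : ℝ) < S.card := by exact_mod_cast hS.card_pos
  set n : ℝ := (S.card : ℝ) ^ j with hn
  have hn0 : 0 < n := by positivity
  have hcs : n ^ 2 ≤ En α j S * n := by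
    calc n ^ 2 = (S.card : ℝ) ^ (2 * j) := by rw [hn, ← pow_mul, mul_comm j 2]
      _ ≤ En α j S * (su α j S).card := En_ge α j S
      _ ≤ En α j S * n := by
          refine mul_le_mul_of_nonneg_left ?_ (Nat.cast_nonneg _)
          rw [hn]
          exact_mod_cast su_card_le α j S
  have hEn : n ≤ En α j S := by nlinarith
  have hm : ∑ x ∈ su α j S, law α j S x ^ 2 = En α j S / n ^ 2 := by
    rw [En_eq_sum, sum_div]
    exact sum_congr rfl fun x _ => by rw [law, div_pow]
  have hE' : (∑ x ∈ su α j S, law α j S x ^ 2) / K ≤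
      ∑ t ∈ su α j S - su α j S, (∑ x ∈ su α j S, law α j S x * law α j S (x + t)) ^ 2 := by
    have h3 : ∑ t ∈ su α j S - su α j S,
        (∑ x ∈ su α j S, law α j S x * law α j S (x + t)) ^ 2 = En α (2 * j) S / n ^ 4 := by
      rw [En_two, sum_div]
      refine sum_congr rfl fun t _ => ?_
      have h4 : ∑ x ∈ su α j S, law α j S x * law α j S (x + t) =
          (∑ x ∈ su α j S, (rr α j S x : ℝ) * rr α j S (x + t)) / n ^ 2 := by
        rw [sum_div]
        refine sum_congr rfl fun x _ => ?_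
        simp only [law]
        rw [← hn]
        field_simp
      rw [h4, div_pow]
      ring
    rw [hm, h3, div_div, div_le_div_iff₀ (by positivity) (by positivity)]
    have h5 : (S.card : ℝ) ^ (2 * j) = n ^ 2 := by
      rw [hn, ← pow_mul, mul_comm j 2]
    rw [h5] at hE
    nlinarith [mul_le_mul_of_nonneg_right hE (show (0 : ℝ) ≤ n ^ 2 by positivity)]
  obtain ⟨X, hXne, hXs, hXm, hXc, -, hXX⟩ := bsg_law (su α j S) (law α j S) (law_nonneg α j S)
    (fun x hx => law_supp α j S hx) (law_mass α j hS) K hK hE'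
  obtain ⟨z, hz⟩ := law_point α hj hS X
  refine ⟨X, z, hXne, ?_, ?_, hXX⟩
  · have h1 : 1 / (128 * K ^ 3) * S.card ≤
        ((S.filter (fun y => z + α y ∈ X)).card : ℝ) :=
      (mul_le_mul_of_nonneg_right hXm hSc.le).trans hz
    rw [one_div, inv_mul_le_iff₀ (by positivity)] at h1
    exact h1
  · rw [hm] at hXc
    have h10 : (1 : ℝ) ≤ n * (En α j S / n ^ 2) := by
      have h12 : n * (En α j S / n ^ 2) = En α j S / n := by
        field_simp
      rw [h12, le_div_iff₀ hn0, one_mul]
      exact hEn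
    calc (X.card : ℝ) ≤ X.card * (n * (En α j S / n ^ 2)) := by
          have : (0 : ℝ) ≤ X.card := Nat.cast_nonneg _
          nlinarith
      _ = X.card * (En α j S / n ^ 2) * n := by ring
      _ ≤ 2 ^ 22 * K ^ 6 * n := mul_le_mul_of_nonneg_right hXc hn0.le

end Pool.Agent.Helper94.LE
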