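import Pool.Agent.Helper94.LE.Tr
import Pool.Agent.Helper84.SPMain

set_option autoImplicit false

/-!
MP_120218_co, theorem LE: the energies of sums and of products satisfy `NormS`, `NormP`.
-/

open Finset
open Pool.Agent.Helper84.SP

namespace Pool.Agent.Helper94.LE

private theorem norm_empty {G : Type*} [AddCommMonoid G] [DecidableEq G] (α : ℕ → G) {k : ℕ}
    (hk : 1 ≤ k) : NF α k ∅ ≤ 0 := by
  have h1 : En α k (∅ : Finset ℕ) = 0 := by
    unfold En
    rw [Finset.card_eq_zero, Finset.filter_eq_empty_iff]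
    rintro ⟨x, y⟩ hz _
    rw [Finset.mem_product, Fintype.mem_piFinset] at hz
    exact absurd (hz.1 ⟨0, hk⟩) (Finset.notMem_empty _)
  unfold NF
  rw [h1, Nat.cast_zero, Real.zero_rpow]
  have : (k : ℝ) ≠ 0 := by
    have : k ≠ 0 := by omega
    exact_mod_cast this
  exact one_div_ne_zero this

private theorem norm_single {G : Type*} [AddCommMonoid G] [DecidableEq G] (α : ℕ → G) (k : ℕ)
    (a : ℕ) : NF α k {a} ≤ 1 := by
  have h1 : En α k ({a} : Finset ℕ) ≤ 1 := by
    unfold En
    refine (Finset.card_filter_le _ _).trans ?_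
    rw [Finset.card_product, Fintype.card_piFinset]
    simp
  unfold NF
  exact Real.rpow_le_one (by positivity) (by exact_mod_cast h1) (by positivity)

theorem normS_al {k : ℕ} (hk : 1 ≤ k) : NormS (14 * k ^ 2) (NF al k) where
  empty := norm_empty al hk
  single := norm_single al k
  tri := fun _ _ _ _ hθ hη hs hd => tr_tri RF_int al hk hd hθ hη hs
  mart := by
    intro q l S₀ S₁ hq h0 h1 h2 h3
    have hd : Disjoint S₁ S₀ := by
      rw [Finset.disjoint_left]
      intro y hy hy'
      have := h3 y hy
      rw [h2 y hy'] at this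
      exact lt_irrefl _ this
    rw [Finset.union_comm]
    refine tr_mart RF_int al hk hd ?_
    intro b hb x hx y hy hxy
    have hdv : ∀ z ∈ S₁, ((q : ℤ) ^ (l + 1)) ∣ al z := by
      intro z hz
      unfold al
      have h4 : q ^ (l + 1) ∣ z :=
        (hq.pow_dvd_iff_le_factorization (h1 z hz).ne').2 (h3 z hz)
      exact_mod_cast h4
    have h5 : ((q : ℤ) ^ (l + 1)) ∣ al b := by
      have h6 : al b = ∑ i, al (y i) - ∑ i, al (x i) := by
        rw [← hxy]; ring
      rw [h6]
      exact dvd_sub (Finset.dvd_sum fun i _ => hdv _ (hy i))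
        (Finset.dvd_sum fun i _ => hdv _ (hx i))
    unfold al at h5
    have h7 : q ^ (l + 1) ∣ b := by exact_mod_cast h5
    have h8 := (hq.pow_dvd_iff_le_factorization (h0 b hb).ne').1 h7
    rw [h2 b hb] at h8
    omega

theorem normP_be {k : ℕ} (hk : 1 ≤ k) : NormP (14 * k ^ 2) (NF be k) where
  empty := norm_empty be hk
  single := norm_single be k
  tri := fun _ _ _ _ hθ hη hs hd => tr_tri RF_finsupp be hk hd hθ hη hs
  mart := by
    intro q l S₀ S₁ _ _ _ h2 h3
    have hd : Disjoint S₀ S₁ := by
      rw [Finset.disjoint_left]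
      intro y hy hy'
      have := h3 y hy'
      rw [h2 y hy] at this
      exact lt_irrefl _ this
    refine tr_mart RF_finsupp be hk hd ?_
    intro b hb x hx y hy hxy
    have h4 := congrArg (piB q) hxy
    have hx' : ∀ i, piB q (be (x i)) = (l : ℤ) := fun i => by rw [piB_be, h2 _ (hx i)]
    have hy' : ∀ i, piB q (be (y i)) = (l : ℤ) := fun i => by rw [piB_be, h2 _ (hy i)]
    simp only [map_add, map_sum, hx', hy'] at h4
    rw [piB_be, Finset.sum_const, Finset.sum_const, Finset.card_univ, Finset.card_univ,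
      Fintype.card_fin, Fintype.card_fin, nsmul_eq_mul, nsmul_eq_mul, Nat.cast_sub hk] at h4
    have h5 := h3 b hb
    have h6 : (l : ℤ) < (b.factorization q : ℤ) := by exact_mod_cast h5
    push_cast at h4
    nlinarith [h4, h6]

end Pool.Agent.Helper94.LE
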