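import Pool.Agent.Helper94.LE.Pos
import Pool.Agent.Helper94.LE.EnZ

set_option autoImplicit false

/-!
MP_120218_co, theorem LE: the two functions `p`, `q` for arbitrary finite sets of integers.
-/

open Finset
open Pool.Agent.Helper84.SP

namespace Pool.Agent.Helper94.LE

namespace PQAux

theorem mem_part {e : ℤ} {S : Finset ℤ} {y : ℕ} :
    y ∈ part e S ↔ ∃ z ∈ S, 0 < e * z ∧ z.natAbs = y := by
  unfold part
  simp only [mem_image, mem_filter]
  constructor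
  · rintro ⟨z, ⟨h1, h2⟩, h3⟩
    exact ⟨z, h1, h2, h3⟩
  · rintro ⟨z, h1, h2, h3⟩
    exact ⟨z, ⟨h1, h2⟩, h3⟩

theorem part_pos {e : ℤ} {S : Finset ℤ} : ∀ y ∈ part e S, 0 < y := by
  intro y hy
  obtain ⟨z, -, h2, rfl⟩ := mem_part.1 hy
  rw [Int.natAbs_pos]
  rintro rfl
  simp at h2

theorem part_mono {e : ℤ} {S A : Finset ℤ} (h : S ⊆ A) : part e S ⊆ part e A := by
  intro y hy
  obtain ⟨z, h1, h2, h3⟩ := mem_part.1 hy
  exact mem_part.2 ⟨z, h h1, h2, h3⟩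

theorem part_card (e : ℤ) (S : Finset ℤ) : (part e S).card ≤ S.card :=
  card_image_le.trans (card_filter_le _ _)

theorem NF_empty {ι G : Type*} [AddCommMonoid G] [DecidableEq G] (α : ι → G) {k : ℕ}
    (hk : 1 ≤ k) : En α k ∅ = 0 ∧ NF α k ∅ = 0 := by
  have h : En α k ∅ = 0 := by
    unfold En
    rw [Fintype.piFinset_eq_empty.2 ?_]
    · simp
    · exact ⟨⟨0, by omega⟩, rfl⟩
  refine ⟨h, ?_⟩
  unfold NF
  rw [h, Nat.cast_zero, Real.zero_rpow]
  have : (0 : ℝ) < k := by exact_mod_cast (by omega : 0 < k)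
  positivity

/-- the two functions, on the part of sign `e` -/
theorem one_part {c : ℝ} {K : ℝ → ℕ → ℝ} (hc : 0 < c) (hc4 : c ≤ 1 / 4) (hK : ∀ σ h, 1 ≤ K σ h)
    (H : ∀ D : Finset ℕ, D.Nonempty → (∀ y ∈ D, 0 < y) → ∃ p q : ℕ → ℝ,
      (∀ a ∈ D, 0 ≤ p a ∧ 0 ≤ q a ∧ 1 ≤ p a + q a) ∧ ∀ S ⊆ D, ∀ σ : ℝ, 0 < σ → σ ≤ 1 →
        ((∀ a ∈ S, p a ≤ σ) → ∀ k : ℕ, 2 ≤ k →
          NF be k S ≤ S.card * (D.card : ℝ) ^ (6 * σ * Real.log k)) ∧
        ((∀ a ∈ S, q a ≤ σ) → ∀ k : ℕ, 2 ≤ k →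
          NF al k S ≤ S.card * (D.card : ℝ) ^ (6 * σ * Real.log k)) ∧
        ((∀ a ∈ S, σ ≤ p a) → ∀ h : ℕ, 1 ≤ h →
          (En al h S : ℝ) ≤ K σ h * (D.card : ℝ) ^ (2 * (h : ℝ) - 1 - c * σ * Real.log h)) ∧
        ((∀ a ∈ S, σ ≤ q a) → ∀ h : ℕ, 1 ≤ h →
          (En be h S : ℝ) ≤ K σ h * (D.card : ℝ) ^ (2 * (h : ℝ) - 1 - c * σ * Real.log h)))
    (e : ℤ) (A : Finset ℤ) (hA : A.Nonempty) : ∃ p q : ℕ → ℝ,
      (∀ a ∈ part e A, 0 ≤ p a ∧ 0 ≤ q a ∧ 1 ≤ p a + q a) ∧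
      ∀ S ⊆ A, ∀ σ : ℝ, 0 < σ → σ ≤ 1 →
        ((∀ a ∈ part e S, p a ≤ σ) → ∀ k : ℕ, 2 ≤ k →
          NF be k (part e S) ≤ S.card * (A.card : ℝ) ^ (6 * σ * Real.log k)) ∧
        ((∀ a ∈ part e S, q a ≤ σ) → ∀ k : ℕ, 2 ≤ k →
          NF al k (part e S) ≤ S.card * (A.card : ℝ) ^ (6 * σ * Real.log k)) ∧
        ((∀ a ∈ part e S, σ ≤ p a) → ∀ h : ℕ, 1 ≤ h →
          NF al h (part e S) ≤
            (K σ h * (A.card : ℝ) ^ (2 * (h : ℝ) - 1 - c * σ * Real.log h)) ^ ((1 : ℝ) / h)) ∧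
        ((∀ a ∈ part e S, σ ≤ q a) → ∀ h : ℕ, 1 ≤ h →
          NF be h (part e S) ≤
            (K σ h * (A.card : ℝ) ^ (2 * (h : ℝ) - 1 - c * σ * Real.log h)) ^ ((1 : ℝ) / h)) := by
  have hN : (1 : ℝ) ≤ A.card := by exact_mod_cast hA.card_pos
  rcases (part e A).eq_empty_or_nonempty with h0 | h0
  · refine ⟨fun _ => 1, fun _ => 1, fun a ha => ?_, fun S hS σ hσ hσ1 => ?_⟩
    · rw [h0] at ha
      exact absurd ha (notMem_empty _)
    · have h1 : part e S = ∅ := subset_empty.1 (h0 ▸ part_mono hS)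
      rw [h1]
      refine ⟨fun _ k hk => ?_, fun _ k hk => ?_, fun _ h hh => ?_, fun _ h hh => ?_⟩
      · rw [(NF_empty be (by omega)).2]
        positivity
      · rw [(NF_empty al (by omega)).2]
        positivity
      · rw [(NF_empty al (by omega)).2]
        have := hK σ h
        positivity
      · rw [(NF_empty be (by omega)).2]
        have := hK σ h
        positivity
  · obtain ⟨p, q, h1, h2⟩ := H (part e A) h0 part_pos
    have hD : (1 : ℝ) ≤ (part e A).card := by exact_mod_cast h0.card_pos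
    have hDN : ((part e A).card : ℝ) ≤ A.card := by exact_mod_cast part_card e A
    refine ⟨p, q, h1, fun S hS σ hσ hσ1 => ?_⟩
    obtain ⟨a1, a2, a3, a4⟩ := h2 (part e S) (part_mono hS) σ hσ hσ1
    have hcard : ((part e S).card : ℝ) ≤ S.card := by exact_mod_cast part_card e S
    have key : ∀ k : ℕ, 2 ≤ k → ((part e S).card : ℝ) *
        ((part e A).card : ℝ) ^ (6 * σ * Real.log k) ≤
          S.card * (A.card : ℝ) ^ (6 * σ * Real.log k) := by
      intro k hk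
      have hlog : 0 ≤ Real.log k := Real.log_natCast_nonneg k
      gcongr
    have key2 : ∀ h : ℕ, 1 ≤ h →
        K σ h * ((part e A).card : ℝ) ^ (2 * (h : ℝ) - 1 - c * σ * Real.log h) ≤
          K σ h * (A.card : ℝ) ^ (2 * (h : ℝ) - 1 - c * σ * Real.log h) := by
      intro h hh
      have hh1 : (1 : ℝ) ≤ h := by exact_mod_cast hh
      have hlog : Real.log h ≤ h - 1 := Real.log_le_sub_one_of_pos (by linarith)
      have hlog0 : 0 ≤ Real.log h := Real.log_natCast_nonneg h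
      have hcs : c * σ ≤ 1 := by nlinarith
      have hcs0 : 0 ≤ c * σ := by positivity
      have he : 0 ≤ 2 * (h : ℝ) - 1 - c * σ * Real.log h := by
        have : c * σ * Real.log h ≤ 1 * Real.log h := by gcongr
        linarith
      have := hK σ h
      gcongr
    refine ⟨fun hp k hk => (a1 hp k hk).trans (key k hk),
      fun hq k hk => (a2 hq k hk).trans (key k hk), fun hp h hh => ?_, fun hq h hh => ?_⟩
    · unfold NF
      apply Real.rpow_le_rpow (Nat.cast_nonneg _) ((a3 hp h hh).trans (key2 h hh))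
      positivity
    · unfold NF
      apply Real.rpow_le_rpow (Nat.cast_nonneg _) ((a4 hq h hh).trans (key2 h hh))
      positivity

/-- from a bound of the `k`-th root to a bound -/
theorem root {E x : ℝ} {k : ℕ} (hk : 1 ≤ k) (hE : 0 ≤ E) (h : E ^ ((1 : ℝ) / k) ≤ x) :
    E ≤ x ^ k := by
  have hk0 : (k : ℝ) ≠ 0 := by
    have : k ≠ 0 := by omega
    exact_mod_cast this
  have h1 : (E ^ ((1 : ℝ) / k)) ^ k ≤ x ^ k := pow_le_pow_left₀ (Real.rpow_nonneg hE _) h k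
  rwa [← Real.rpow_natCast (E ^ ((1 : ℝ) / k)) k, ← Real.rpow_mul hE, one_div,
    inv_mul_cancel₀ hk0, Real.rpow_one] at h1

theorem big {E M : ℝ} {k : ℕ} (hk : 1 ≤ k) (hE : 0 ≤ E) (hM : 1 ≤ M)
    (h : E ^ ((1 : ℝ) / k) ≤ 4 * M ^ ((1 : ℝ) / k) + 4 * M ^ ((1 : ℝ) / k) + 4) :
    E ≤ 12 ^ k * M := by
  have hk0 : (k : ℝ) ≠ 0 := by
    have : k ≠ 0 := by omega
    exact_mod_cast this
  have h1 : 1 ≤ M ^ ((1 : ℝ) / k) := Real.one_le_rpow hM (by positivity)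
  have h2 : E ^ ((1 : ℝ) / k) ≤ 12 * M ^ ((1 : ℝ) / k) := by linarith
  have h3 := root hk hE h2
  rwa [mul_pow, ← Real.rpow_natCast (M ^ ((1 : ℝ) / k)) k, ← Real.rpow_mul (by linarith), one_div,
    inv_mul_cancel₀ hk0, Real.rpow_one] at h3

theorem fin {E X N s l : ℝ} {k : ℕ} (hk : 1 ≤ k) (hE : 0 ≤ E) (hN : 1 ≤ N) (hX : 0 ≤ X)
    (hs : 0 ≤ s) (hl : 0 ≤ l)
    (h : E ^ ((1 : ℝ) / k) ≤ 12 * (X * N ^ (6 * s * l))) :
    E ≤ 12 ^ k * X ^ k * N ^ (12 * s * k * l) := by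
  have h3 := root hk hE h
  rw [mul_pow, mul_pow, ← Real.rpow_natCast (N ^ (6 * s * l)) k,
    ← Real.rpow_mul (by linarith)] at h3
  refine h3.trans ?_
  rw [← mul_assoc]
  apply mul_le_mul_of_nonneg_left _ (by positivity)
  apply Real.rpow_le_rpow_of_exponent_le hN
  have hk0 : (0 : ℝ) ≤ k := Nat.cast_nonneg k
  have : 0 ≤ s * l * k := by positivity
  nlinarith

theorem triv {X Y R : ℝ} {k : ℕ} (hX : 0 ≤ X) (hR : 0 ≤ R) (h : Y ≤ R) :
    X * Y ≤ 12 ^ k * X * R := by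
  have t5 : (1 : ℝ) ≤ 12 ^ k := one_le_pow₀ (by norm_num)
  have h1 : X * Y ≤ X * R := mul_le_mul_of_nonneg_left h hX
  have h2 : 0 ≤ X * R := mul_nonneg hX hR
  nlinarith

end PQAux

open PQAux

/-- **Two functions control all energies of all subsets.** -/
theorem pq : ∃ c C : ℝ, 0 < c ∧ 0 < C ∧ ∃ K : ℝ → ℕ → ℝ, (∀ σ h, 1 ≤ K σ h) ∧
    ∀ A : Finset ℤ, A.Nonempty → ∃ p q : ℤ → ℝ,
      (∀ a ∈ A, 0 ≤ p a ∧ 0 ≤ q a ∧ 1 ≤ p a + q a) ∧ (q 0 ≤ 0) ∧
      ∀ S ⊆ A, ∀ σ : ℝ, 0 < σ → σ ≤ 1 →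
        ((∀ a ∈ S, p a ≤ σ) → ∀ k : ℕ, 2 ≤ k →
          (mulE k S : ℝ) ≤ C ^ k * (S.card : ℝ) ^ k * (A.card : ℝ) ^ (C * σ * k * Real.log k)) ∧
        ((∀ a ∈ S, q a ≤ σ) → ∀ k : ℕ, 2 ≤ k →
          (addE k S : ℝ) ≤ C ^ k * (S.card : ℝ) ^ k * (A.card : ℝ) ^ (C * σ * k * Real.log k)) ∧
        ((∀ a ∈ S, σ ≤ p a) → ∀ h : ℕ, 1 ≤ h →
          (addE h S : ℝ) ≤ K σ h * (A.card : ℝ) ^ (2 * (h : ℝ) - 1 - c * σ * Real.log h)) ∧
        ((∀ a ∈ S, σ ≤ q a) → ∀ h : ℕ, 1 ≤ h →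
          (mulE h S : ℝ) ≤ K σ h * (A.card : ℝ) ^ (2 * (h : ℝ) - 1 - c * σ * Real.log h)) := by
  obtain ⟨c, hc, hc4, K, hK, H⟩ := posPQ
  refine ⟨c, 12, hc, by norm_num, fun σ h => 12 ^ h * K σ h, fun σ h => ?_, fun A hA => ?_⟩
  · have h1 : (1 : ℝ) ≤ 12 ^ h := one_le_pow₀ (by norm_num)
    have h2 := hK σ h
    nlinarith
  obtain ⟨p1, q1, a1, b1⟩ := one_part hc hc4 hK H 1 A hA
  obtain ⟨p2, q2, a2, b2⟩ := one_part hc hc4 hK H (-1) A hA
  have hN : (1 : ℝ) ≤ A.card := by exact_mod_cast hA.card_pos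
  set p : ℤ → ℝ := fun z => if z = 0 then 1 else if 0 < z then p1 z.natAbs else p2 z.natAbs
    with hpdef
  set q : ℤ → ℝ := fun z => if z = 0 then 0 else if 0 < z then q1 z.natAbs else q2 z.natAbs
    with hqdef
  have p0 : p 0 = 1 := by simp [hpdef]
  have q0 : q 0 = 0 := by simp [hqdef]
  have ppos : ∀ z : ℤ, 0 < z → p z = p1 z.natAbs ∧ q z = q1 z.natAbs := by
    intro z hz
    simp [hpdef, hqdef, hz, hz.ne']
  have pneg : ∀ z : ℤ, z < 0 → p z = p2 z.natAbs ∧ q z = q2 z.natAbs := by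
    intro z hz
    simp [hpdef, hqdef, not_lt.2 hz.le, hz.ne]
  refine ⟨p, q, fun a ha => ?_, q0.le, fun S hS σ hσ hσ1 => ?_⟩
  · rcases lt_trichotomy a 0 with h | h | h
    · rw [(pneg a h).1, (pneg a h).2]
      exact a2 _ (mem_part.2 ⟨a, ha, by omega, rfl⟩)
    · rw [h, p0, q0]
      norm_num
    · rw [(ppos a h).1, (ppos a h).2]
      exact a1 _ (mem_part.2 ⟨a, ha, by omega, rfl⟩)
  obtain ⟨u1, u2, u3, u4⟩ := b1 S hS σ hσ hσ1
  obtain ⟨v1, v2, v3, v4⟩ := b2 S hS σ hσ hσ1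
  have hpart1 : ∀ P : ℝ → Prop, (∀ a ∈ S, P (p a)) → (∀ a ∈ part 1 S, P (p1 a)) ∧
      ∀ a ∈ part (-1) S, P (p2 a) := by
    intro P hP
    constructor
    · intro a ha
      obtain ⟨z, h1, h2, rfl⟩ := mem_part.1 ha
      rw [← (ppos z (by omega)).1]
      exact hP z h1
    · intro a ha
      obtain ⟨z, h1, h2, rfl⟩ := mem_part.1 ha
      rw [← (pneg z (by omega)).1]
      exact hP z h1
  have hpart2 : ∀ P : ℝ → Prop, (∀ a ∈ S, P (q a)) → (∀ a ∈ part 1 S, P (q1 a)) ∧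
      ∀ a ∈ part (-1) S, P (q2 a) := by
    intro P hP
    constructor
    · intro a ha
      obtain ⟨z, h1, h2, rfl⟩ := mem_part.1 ha
      rw [← (ppos z (by omega)).2]
      exact hP z h1
    · intro a ha
      obtain ⟨z, h1, h2, rfl⟩ := mem_part.1 ha
      rw [← (pneg z (by omega)).2]
      exact hP z h1
  refine ⟨fun hp k hk => ?_, fun hq k hk => ?_, fun hp h hh => ?_, fun hq h hh => ?_⟩
  · have hk1 : 1 ≤ k := by omega
    have hlog : 0 ≤ Real.log k := Real.log_natCast_nonneg k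
    by_cases h0 : (0 : ℤ) ∈ S
    · -- `σ = 1`
      have hσ' : σ = 1 := by
        have := hp 0 h0
        rw [p0] at this
        linarith
      have t1 : (mulE k S : ℝ) ≤ (S.card : ℝ) ^ k * (A.card : ℝ) ^ k := by
        have t2 : mulE k S ≤ S.card ^ k * S.card ^ k := by
          unfold mulE
          refine (card_filter_le _ _).trans ?_
          rw [card_product, Fintype.card_piFinset_const]
        have t3 : S.card ^ k * S.card ^ k ≤ S.card ^ k * A.card ^ k :=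
          Nat.mul_le_mul_left _ (Nat.pow_le_pow_left (card_le_card hS) k)
        exact_mod_cast t2.trans t3
      refine t1.trans ?_
      have t4 : ((A.card : ℝ)) ^ k ≤ (A.card : ℝ) ^ ((12 : ℝ) * σ * k * Real.log k) := by
        rw [← Real.rpow_natCast]
        apply Real.rpow_le_rpow_of_exponent_le hN
        have l2 : Real.log 2 ≤ Real.log k := by
          apply Real.log_le_log (by norm_num)
          exact_mod_cast hk
        have l3 : (1 : ℝ) / 2 ≤ Real.log 2 := by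
          have := Real.log_two_gt_d9
          linarith
        have hk0 : (0 : ℝ) ≤ k := Nat.cast_nonneg k
        rw [hσ']
        nlinarith
      exact triv (pow_nonneg (Nat.cast_nonneg _) k) (Real.rpow_nonneg (Nat.cast_nonneg _) _) t4
    · obtain ⟨w1, w2⟩ := hpart1 (fun x => x ≤ σ) hp
      have t1 := mulE_part hk1 h0
      have t2 := u1 w1 k hk
      have t3 := v1 w2 k hk
      apply fin hk1 (Nat.cast_nonneg _) hN (Nat.cast_nonneg _) hσ.le hlog
      have t4 : 0 ≤ (S.card : ℝ) * (A.card : ℝ) ^ (6 * σ * Real.log k) := by positivity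
      linarith
  · have hk1 : 1 ≤ k := by omega
    have hlog : 0 ≤ Real.log k := Real.log_natCast_nonneg k
    rcases S.eq_empty_or_nonempty with hSe | hSn
    · have t1 : addE k S = 0 := by
        rw [hSe, addE_eq]
        exact (NF_empty _ hk1).1
      rw [t1, Nat.cast_zero]
      positivity
    · obtain ⟨w1, w2⟩ := hpart2 (fun x => x ≤ σ) hq
      have t1 := addE_part hk1 S
      have t2 := u2 w1 k hk
      have t3 := v2 w2 k hk
      apply fin hk1 (Nat.cast_nonneg _) hN (Nat.cast_nonneg _) hσ.le hlog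
      have t5 : (1 : ℝ) ≤ S.card := by exact_mod_cast hSn.card_pos
      have t6 : 1 ≤ (A.card : ℝ) ^ (6 * σ * Real.log k) := Real.one_le_rpow hN (by positivity)
      have t4 : 1 ≤ (S.card : ℝ) * (A.card : ℝ) ^ (6 * σ * Real.log k) := by nlinarith
      linarith
  · have hM : 1 ≤ K σ h * (A.card : ℝ) ^ (2 * (h : ℝ) - 1 - c * σ * Real.log h) := by
      have hh1 : (1 : ℝ) ≤ h := by exact_mod_cast hh
      have hlog : Real.log h ≤ h - 1 := Real.log_le_sub_one_of_pos (by linarith)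
      have hlog0 : 0 ≤ Real.log h := Real.log_natCast_nonneg h
      have hcs : c * σ ≤ 1 := by nlinarith
      have he : 0 ≤ 2 * (h : ℝ) - 1 - c * σ * Real.log h := by
        have : c * σ * Real.log h ≤ 1 * Real.log h := by gcongr
        linarith
      have h1 : 1 ≤ (A.card : ℝ) ^ (2 * (h : ℝ) - 1 - c * σ * Real.log h) :=
        Real.one_le_rpow hN he
      have h2 := hK σ h
      nlinarith
    obtain ⟨w1, w2⟩ := hpart1 (fun x => σ ≤ x) hp
    have t1 := addE_part hh S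
    have t2 := u3 w1 h hh
    have t3 := v3 w2 h hh
    rw [mul_assoc]
    apply big hh (Nat.cast_nonneg _) hM
    linarith
  · have hM : 1 ≤ K σ h * (A.card : ℝ) ^ (2 * (h : ℝ) - 1 - c * σ * Real.log h) := by
      have hh1 : (1 : ℝ) ≤ h := by exact_mod_cast hh
      have hlog : Real.log h ≤ h - 1 := Real.log_le_sub_one_of_pos (by linarith)
      have hlog0 : 0 ≤ Real.log h := Real.log_natCast_nonneg h
      have hcs : c * σ ≤ 1 := by nlinarith
      have he : 0 ≤ 2 * (h : ℝ) - 1 - c * σ * Real.log h := by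
        have : c * σ * Real.log h ≤ 1 * Real.log h := by gcongr
        linarith
      have h1 : 1 ≤ (A.card : ℝ) ^ (2 * (h : ℝ) - 1 - c * σ * Real.log h) :=
        Real.one_le_rpow hN he
      have h2 := hK σ h
      nlinarith
    have h0 : (0 : ℤ) ∉ S := by
      intro h0
      have := hq 0 h0
      rw [q0] at this
      linarith
    obtain ⟨w1, w2⟩ := hpart2 (fun x => σ ≤ x) hq
    have t1 := mulE_part hh h0
    have t2 := u4 w1 h hh
    have t3 := v4 w2 h hh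
    rw [mul_assoc]
    apply big hh (Nat.cast_nonneg _) hM
    linarith

end Pool.Agent.Helper94.LE
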