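import Pool.Agent.Helper94.LE.PQ

set_option autoImplicit false

/-!
MP_120218_co, theorem LE: the partition, and the dichotomy for Q1.
-/

open Finset

namespace Pool.Agent.Helper94.LE

/-- **The partition.** -/
theorem partition : ∃ c : ℝ, 0 < c ∧ c ≤ 1 / 8 ∧ ∀ (k : ℕ) (ε : ℝ), 2 ≤ k → 0 < ε → ε ≤ 1 →
    ∃ C : ℕ → ℝ, (∀ h, 1 ≤ C h) ∧ ∀ A : Finset ℤ, A.Nonempty →
      ∃ B P M : Finset ℤ, Disjoint B P ∧ Disjoint B M ∧ Disjoint P M ∧ B ∪ P ∪ M = A ∧
        (0 : ℤ) ∉ P ∪ M ∧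
        (addE k B : ℝ) ≤ C k * (A.card : ℝ) ^ ((k : ℝ) + ε) ∧
        (mulE k P : ℝ) ≤ C k * (A.card : ℝ) ^ ((k : ℝ) + ε) ∧
        ∀ h : ℕ, 1 ≤ h →
          (addE h (B ∪ M) : ℝ) ≤
            C h * (A.card : ℝ) ^ (2 * (h : ℝ) - 1 - c * ε / (k * Real.log k) * Real.log h) ∧
          (mulE h (P ∪ M) : ℝ) ≤
            C h * (A.card : ℝ) ^ (2 * (h : ℝ) - 1 - c * ε / (k * Real.log k) * Real.log h) := by
  classical
  obtain ⟨c, C₀, hc, hC₀, K, hK, H⟩ := pq
  set C : ℝ := max C₀ 6 with hCdef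
  have hC6 : (6 : ℝ) ≤ C := le_max_right _ _
  have hC0 : C₀ ≤ C := le_max_left _ _
  have hCpos : 0 < C := by linarith
  refine ⟨min (c / C) (1 / 8), lt_min (div_pos hc hCpos) (by norm_num), min_le_right _ _, ?_⟩
  intro k ε hk hε hε1
  have hlog2 : (0.69 : ℝ) < Real.log 2 := lt_trans (by norm_num) Real.log_two_gt_d9
  have hk2 : (2 : ℝ) ≤ k := by exact_mod_cast hk
  have hlogk : (0.69 : ℝ) < Real.log k :=
    lt_of_lt_of_le hlog2 (Real.log_le_log (by norm_num) hk2)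
  have hlogk0 : 0 < Real.log k := by linarith
  have hkl : (1 : ℝ) < k * Real.log k := by nlinarith
  set σ : ℝ := ε / (C * k * Real.log k) with hσdef
  have hden : 0 < C * k * Real.log k := by positivity
  have hσ0 : 0 < σ := div_pos hε hden
  have hden6 : 6 < C * k * Real.log k := by
    have : C * k * Real.log k = C * (k * Real.log k) := by ring
    rw [this]; nlinarith
  have hσ1 : σ < 1 / 2 := by
    rw [hσdef, div_lt_iff₀ hden]; linarith
  have hσC : C * σ * k * Real.log k = ε := by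
    rw [hσdef]; field_simp
  refine ⟨fun h => max (C ^ h) (K σ h), fun h => le_trans (hK σ h) (le_max_right _ _), ?_⟩
  intro A hA
  obtain ⟨p, q, hpq, hq0, HS⟩ := H A hA
  have hN1 : (1 : ℝ) ≤ A.card := by exact_mod_cast hA.card_pos
  have hN0 : (0 : ℝ) < A.card := by linarith
  set B : Finset ℤ := A.filter (fun a => q a ≤ σ) with hB
  set P : Finset ℤ := A.filter (fun a => p a ≤ σ) with hP
  set M : Finset ℤ := A.filter (fun a => ¬ (q a ≤ σ) ∧ ¬ (p a ≤ σ)) with hM
  have hBA : B ⊆ A := filter_subset _ _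
  have hPA : P ⊆ A := filter_subset _ _
  have hMA : M ⊆ A := filter_subset _ _
  -- the bound for the low energies
  have key1 : ∀ S : Finset ℤ, S ⊆ A → ∀ x : ℝ, x ≤ C₀ ^ k * (S.card : ℝ) ^ k *
      (A.card : ℝ) ^ (C₀ * σ * k * Real.log k) →
      x ≤ max (C ^ k) (K σ k) * (A.card : ℝ) ^ ((k : ℝ) + ε) := by
    intro S hSA x hx
    refine hx.trans ?_
    have h1 : C₀ ^ k ≤ C ^ k := pow_le_pow_left₀ hC₀.le hC0 k
    have h2 : (S.card : ℝ) ^ k ≤ (A.card : ℝ) ^ k :=
      pow_le_pow_left₀ (by positivity) (by exact_mod_cast card_le_card hSA) k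
    have h3 : (A.card : ℝ) ^ (C₀ * σ * k * Real.log k) ≤ (A.card : ℝ) ^ ε := by
      apply Real.rpow_le_rpow_of_exponent_le hN1
      rw [← hσC]
      have : C₀ * (σ * k * Real.log k) ≤ C * (σ * k * Real.log k) :=
        mul_le_mul_of_nonneg_right hC0 (by positivity)
      nlinarith
    calc C₀ ^ k * (S.card : ℝ) ^ k * (A.card : ℝ) ^ (C₀ * σ * k * Real.log k)
        ≤ C ^ k * (A.card : ℝ) ^ k * (A.card : ℝ) ^ ε := by gcongr
      _ = C ^ k * (A.card : ℝ) ^ ((k : ℝ) + ε) := by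
          rw [Real.rpow_add hN0, Real.rpow_natCast]; ring
      _ ≤ max (C ^ k) (K σ k) * (A.card : ℝ) ^ ((k : ℝ) + ε) := by
          gcongr; exact le_max_left _ _
  have key2 : ∀ h : ℕ, 1 ≤ h → ∀ x : ℝ, x ≤ K σ h *
      (A.card : ℝ) ^ (2 * (h : ℝ) - 1 - c * σ * Real.log h) →
      x ≤ max (C ^ h) (K σ h) * (A.card : ℝ) ^ (2 * (h : ℝ) - 1 -
        min (c / C) (1 / 8) * ε / (k * Real.log k) * Real.log h) := by
    intro h hh x hx
    refine hx.trans ?_
    have hlogh : 0 ≤ Real.log h := Real.log_nonneg (by exact_mod_cast hh)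
    have h3 : (A.card : ℝ) ^ (2 * (h : ℝ) - 1 - c * σ * Real.log h) ≤
        (A.card : ℝ) ^ (2 * (h : ℝ) - 1 -
          min (c / C) (1 / 8) * ε / (k * Real.log k) * Real.log h) := by
      apply Real.rpow_le_rpow_of_exponent_le hN1
      have h4 : min (c / C) (1 / 8) * ε / (k * Real.log k) ≤ c * σ := by
        have h5 : c * σ = (c / C) * ε / (k * Real.log k) := by
          rw [hσdef]; field_simp
        rw [h5]
        have : min (c / C) (1 / 8) ≤ c / C := min_le_left _ _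
        gcongr
      have := mul_le_mul_of_nonneg_right h4 hlogh
      linarith
    have hK0 : 0 ≤ K σ h := le_trans zero_le_one (hK σ h)
    calc K σ h * (A.card : ℝ) ^ (2 * (h : ℝ) - 1 - c * σ * Real.log h)
        ≤ K σ h * (A.card : ℝ) ^ (2 * (h : ℝ) - 1 -
          min (c / C) (1 / 8) * ε / (k * Real.log k) * Real.log h) := by gcongr
      _ ≤ _ := by
          gcongr; exact le_max_right _ _
  refine ⟨B, P, M, ?_, ?_, ?_, ?_, ?_, ?_, ?_, ?_⟩
  · rw [Finset.disjoint_left]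
    intro a ha hb
    rw [hB, mem_filter] at ha
    rw [hP, mem_filter] at hb
    have := (hpq a ha.1).2.2
    linarith [ha.2, hb.2]
  · rw [Finset.disjoint_left]
    intro a ha hb
    rw [hB, mem_filter] at ha
    rw [hM, mem_filter] at hb
    exact hb.2.1 ha.2
  · rw [Finset.disjoint_left]
    intro a ha hb
    rw [hP, mem_filter] at ha
    rw [hM, mem_filter] at hb
    exact hb.2.2 ha.2
  · ext a
    simp only [hB, hP, hM, mem_union, mem_filter]
    tauto
  · intro h0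
    rcases mem_union.mp h0 with h | h
    · rw [hP, mem_filter] at h
      have := (hpq 0 h.1).2.2
      linarith [h.2]
    · rw [hM, mem_filter] at h
      exact h.2.1 (hq0.trans hσ0.le)
  · refine key1 B hBA _ ((HS B hBA σ hσ0 (by linarith)).2.1 ?_ k hk)
    intro a ha
    rw [hB, mem_filter] at ha
    exact ha.2
  · refine key1 P hPA _ ((HS P hPA σ hσ0 (by linarith)).1 ?_ k hk)
    intro a ha
    rw [hP, mem_filter] at ha
    exact ha.2
  · intro h hh
    have hBM : B ∪ M ⊆ A := union_subset hBA hMA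
    have hPM : P ∪ M ⊆ A := union_subset hPA hMA
    constructor
    · refine key2 h hh _ ((HS (B ∪ M) hBM σ hσ0 (by linarith)).2.2.1 ?_ h hh)
      intro a ha
      rcases mem_union.mp ha with h' | h'
      · rw [hB, mem_filter] at h'
        have := (hpq a h'.1).2.2
        linarith [h'.2]
      · rw [hM, mem_filter] at h'
        exact (not_le.mp h'.2.2).le
    · refine key2 h hh _ ((HS (P ∪ M) hPM σ hσ0 (by linarith)).2.2.2 ?_ h hh)
      intro a ha
      rcases mem_union.mp ha with h' | h'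
      · rw [hP, mem_filter] at h'
        have := (hpq a h'.1).2.2
        linarith [h'.2]
      · rw [hM, mem_filter] at h'
        exact (not_le.mp h'.2.1).le

theorem addE_trivial {h : ℕ} (hh : 1 ≤ h) (S : Finset ℤ) :
    addE h S ≤ S.card ^ (2 * h - 1) := by
  obtain ⟨n, rfl⟩ : ∃ n, h = n + 1 := ⟨h - 1, by omega⟩
  unfold addE
  have hc : S.card ^ (2 * (n + 1) - 1) = (Fintype.piFinset (fun _ : Fin (n + 1) => S) ×ˢ
      Fintype.piFinset (fun _ : Fin n => S)).card := by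
    rw [Finset.card_product, Fintype.card_piFinset, Fintype.card_piFinset]
    simp only [prod_const, card_univ, Fintype.card_fin]
    rw [← pow_add]
    congr 1
    omega
  rw [hc]
  refine Finset.card_le_card_of_injOn (fun z => (z.1, Fin.tail z.2)) ?_ ?_
  · intro z hz
    simp only [coe_filter, mem_product, Fintype.mem_piFinset, Set.mem_ofPred_eq] at hz
    simp only [mem_coe, mem_product, Fintype.mem_piFinset]
    exact ⟨hz.1.1, fun i => hz.1.2 _⟩
  · rintro ⟨x, y⟩ hz ⟨x', y'⟩ hw hzw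
    simp only [coe_filter, mem_product, Fintype.mem_piFinset, Set.mem_ofPred_eq] at hz hw
    simp only [Prod.mk.injEq] at hzw
    obtain ⟨hx, hy⟩ := hzw
    have h1 := hz.2
    have h2 := hw.2
    rw [Fin.sum_univ_succ (f := y)] at h1
    rw [Fin.sum_univ_succ (f := y'), ← hx, h1] at h2
    have h3 : ∀ i : Fin n, y (Fin.succ i) = y' (Fin.succ i) := fun i => congrFun hy i
    have h4 : y 0 = y' 0 := by
      rw [Finset.sum_congr rfl (fun i _ => h3 i)] at h2
      exact add_right_cancel h2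
    have h5 : y = y' := by
      funext i
      refine Fin.cases h4 h3 i
    rw [hx, h5]

theorem mulE_trivial {h : ℕ} (hh : 1 ≤ h) (S : Finset ℤ) (h0 : (0 : ℤ) ∉ S) :
    mulE h S ≤ S.card ^ (2 * h - 1) := by
  obtain ⟨n, rfl⟩ : ∃ n, h = n + 1 := ⟨h - 1, by omega⟩
  unfold mulE
  have hc : S.card ^ (2 * (n + 1) - 1) = (Fintype.piFinset (fun _ : Fin (n + 1) => S) ×ˢ
      Fintype.piFinset (fun _ : Fin n => S)).card := by
    rw [Finset.card_product, Fintype.card_piFinset, Fintype.card_piFinset]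
    simp only [prod_const, card_univ, Fintype.card_fin]
    rw [← pow_add]
    congr 1
    omega
  rw [hc]
  refine Finset.card_le_card_of_injOn (fun z => (z.1, Fin.tail z.2)) ?_ ?_
  · intro z hz
    simp only [coe_filter, mem_product, Fintype.mem_piFinset, Set.mem_ofPred_eq] at hz
    simp only [mem_coe, mem_product, Fintype.mem_piFinset]
    exact ⟨hz.1.1, fun i => hz.1.2 _⟩
  · rintro ⟨x, y⟩ hz ⟨x', y'⟩ hw hzw
    simp only [coe_filter, mem_product, Fintype.mem_piFinset, Set.mem_ofPred_eq] at hz hw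
    simp only [Prod.mk.injEq] at hzw
    obtain ⟨hx, hy⟩ := hzw
    have h1 := hz.2
    have h2 := hw.2
    rw [Fin.prod_univ_succ (f := y)] at h1
    rw [Fin.prod_univ_succ (f := y'), ← hx, h1] at h2
    have h3 : ∀ i : Fin n, y (Fin.succ i) = y' (Fin.succ i) := fun i => congrFun hy i
    have h4 : y 0 = y' 0 := by
      rw [Finset.prod_congr rfl (fun i _ => h3 i)] at h2
      refine mul_right_cancel₀ ?_ h2
      rw [Finset.prod_ne_zero_iff]
      intro i _ hi
      exact h0 (hi ▸ hw.1.2 (Fin.succ i))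
    have h5 : y = y' := by
      funext i
      refine Fin.cases h4 h3 i
    rw [hx, h5]

theorem cs_image {X Y : Type*} [DecidableEq Y] (T : Finset X) (f : X → Y) :
    T.card ^ 2 ≤ (T.image f).card * ((T ×ˢ T).filter (fun z => f z.1 = f z.2)).card := by
  classical
  have h1 : T.card = ∑ b ∈ T.image f, (T.filter (fun a => f a = b)).card :=
    Finset.card_eq_sum_card_image f T
  have h2 : ((T ×ˢ T).filter (fun z => f z.1 = f z.2)).card =
      ∑ b ∈ T.image f, ((T.filter (fun a => f a = b)).card) ^ 2 := by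
    rw [Finset.card_eq_sum_card_fiberwise (f := fun z : X × X => f z.1) (t := T.image f)]
    · refine Finset.sum_congr rfl (fun b _ => ?_)
      rw [sq, ← Finset.card_product]
      congr 1
      ext ⟨x, y⟩
      simp only [mem_filter, mem_product]
      constructor
      · rintro ⟨⟨⟨hx, hy⟩, hxy⟩, hb⟩
        exact ⟨⟨hx, hb⟩, hy, hxy ▸ hb⟩
      · rintro ⟨⟨hx, hb⟩, hy, hb'⟩
        exact ⟨⟨⟨hx, hy⟩, hb.trans hb'.symm⟩, hb⟩
    · rintro ⟨x, y⟩ hz
      simp only [coe_filter, mem_product, Set.mem_ofPred_eq] at hz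
      simp only [mem_coe]
      exact mem_image_of_mem f hz.1.1
  rw [h2]
  calc T.card ^ 2 = (∑ b ∈ T.image f, (T.filter (fun a => f a = b)).card) ^ 2 := by rw [← h1]
    _ ≤ _ := sq_sum_le_card_mul_sum_sq

theorem real_step {N E₁ E₂ EA s C' e e₁ : ℝ} {h : ℕ} (hh : 1 ≤ h) (hN : 1 ≤ N)
    (hE₁ : 0 ≤ E₁) (hE₂ : 0 ≤ E₂) (_hEA : 0 ≤ EA) (hC' : 1 ≤ C') (hee : e₁ ≤ e)
    (hsub : EA ^ ((1 : ℝ) / h) ≤ 4 * E₁ ^ ((1 : ℝ) / h) + 4 * E₂ ^ ((1 : ℝ) / h))
    (h1 : E₁ ≤ C' * N ^ e₁) (h2 : E₂ ≤ s ^ (2 * h - 1))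
    (h3 : 8 ^ h * C' * N ^ e < EA) : N ^ e ≤ s ^ (2 * h - 1) := by
  have hN0 : (0 : ℝ) < N := by linarith
  have hh0 : (0 : ℝ) < h := by exact_mod_cast hh
  have hhne : h ≠ 0 := by omega
  have hp : 0 < (1 : ℝ) / h := by positivity
  have hNe : 0 < N ^ e := Real.rpow_pos_of_pos hN0 e
  have hX : 0 ≤ C' * N ^ e := by positivity
  have a1 : E₁ ≤ C' * N ^ e := h1.trans (by
    have := Real.rpow_le_rpow_of_exponent_le hN hee
    gcongr)
  have a2 : E₁ ^ ((1 : ℝ) / h) ≤ (C' * N ^ e) ^ ((1 : ℝ) / h) :=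
    Real.rpow_le_rpow hE₁ a1 hp.le
  have e8 : ((8 : ℝ) ^ h) ^ ((1 : ℝ) / h) = 8 := by
    rw [one_div, Real.pow_rpow_inv_natCast (by norm_num) hhne]
  have a3 : 8 * (C' * N ^ e) ^ ((1 : ℝ) / h) < EA ^ ((1 : ℝ) / h) := by
    have : (8 ^ h * C' * N ^ e) ^ ((1 : ℝ) / h) < EA ^ ((1 : ℝ) / h) :=
      Real.rpow_lt_rpow (by positivity) h3 hp
    rw [mul_assoc, Real.mul_rpow (by positivity) hX, e8] at this
    exact this
  have a4 : EA ^ ((1 : ℝ) / h) < 8 * E₂ ^ ((1 : ℝ) / h) := by linarith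
  have a5 : EA < 8 ^ h * E₂ := by
    by_contra hcon
    push Not at hcon
    have : (8 ^ h * E₂) ^ ((1 : ℝ) / h) ≤ EA ^ ((1 : ℝ) / h) :=
      Real.rpow_le_rpow (by positivity) hcon hp.le
    rw [Real.mul_rpow (by positivity) hE₂, e8] at this
    linarith
  have a6 : C' * N ^ e < E₂ := by
    have : (8 : ℝ) ^ h * (C' * N ^ e) < 8 ^ h * E₂ := by
      rw [← mul_assoc]; exact h3.trans a5
    exact lt_of_mul_lt_mul_left this (by positivity)
  have a7 : N ^ e ≤ C' * N ^ e := le_mul_of_one_le_left hNe.le hC'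
  linarith

theorem real_end {N s C' X E c ε : ℝ} {h k : ℕ} (hh : 1 ≤ h) (hk : 2 ≤ k) (hN : 1 ≤ N)
    (hs : 0 ≤ s) (hX : 0 ≤ X) (hC' : 0 ≤ C') (hc : 0 < c) (hc' : c ≤ 1 / 16) (hε : 0 < ε)
    (h1 : N ^ (2 * (h : ℝ) - 1 - c * ε / (k * Real.log k) * Real.log h) ≤ s ^ (2 * h - 1))
    (h2 : E ≤ C' * N ^ ((k : ℝ) + ε / 2)) (h3 : (s ^ k) ^ 2 ≤ X * E) :
    N ^ ((k : ℝ) - ε) ≤ C' * X := by
  have hN0 : (0 : ℝ) < N := by linarith
  have hh1 : (1 : ℝ) ≤ h := by exact_mod_cast hh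
  have hlog2 : (0.69 : ℝ) < Real.log 2 := lt_trans (by norm_num) Real.log_two_gt_d9
  have hk2 : (2 : ℝ) ≤ k := by exact_mod_cast hk
  have hlogk : (0.69 : ℝ) < Real.log k :=
    lt_of_lt_of_le hlog2 (Real.log_le_log (by norm_num) hk2)
  have hlogk0 : 0 < Real.log k := by linarith
  set δ : ℝ := c * ε / (k * Real.log k) with hδ
  have hδ0 : 0 ≤ δ := by positivity
  have hlogh : Real.log h ≤ 2 * (h : ℝ) - 1 := by
    have := Real.log_le_sub_one_of_pos (show (0 : ℝ) < h by linarith)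
    linarith
  have h2h : (0 : ℝ) < 2 * (h : ℝ) - 1 := by linarith
  -- `N ^ (1 - δ) ≤ s`
  have b1 : N ^ (1 - δ) ≤ s := by
    have c1 : N ^ ((1 - δ) * (2 * (h : ℝ) - 1)) ≤ s ^ (2 * h - 1) := by
      refine le_trans (Real.rpow_le_rpow_of_exponent_le hN ?_) h1
      nlinarith [mul_le_mul_of_nonneg_left hlogh hδ0]
    have c2 : N ^ ((1 - δ) * (2 * (h : ℝ) - 1)) = (N ^ (1 - δ)) ^ (2 * h - 1) := by
      rw [Real.rpow_mul hN0.le, ← Real.rpow_natCast]
      congr 1
      rw [Nat.cast_sub (by omega)]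
      push_cast
      ring
    rw [c2] at c1
    exact le_of_pow_le_pow_left₀ (by omega) hs c1
  -- the end
  have hδk : 2 * k * δ ≤ ε / 2 := by
    have : 2 * k * δ = 2 * c * ε / Real.log k := by
      rw [hδ]; field_simp
    rw [this, div_le_iff₀ hlogk0]
    nlinarith
  have b2 : N ^ (2 * k * (1 - δ)) ≤ (s ^ k) ^ 2 := by
    have c2 : N ^ (2 * k * (1 - δ)) = ((N ^ (1 - δ)) ^ k) ^ 2 := by
      rw [show 2 * (k : ℝ) * (1 - δ) = (1 - δ) * (k * (2 : ℕ)) by push_cast; ring,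
        Real.rpow_mul hN0.le, Real.rpow_mul (by positivity), Real.rpow_natCast,
        Real.rpow_natCast]
    rw [c2]
    gcongr
  have b3 : N ^ (2 * k * (1 - δ)) ≤ X * (C' * N ^ ((k : ℝ) + ε / 2)) :=
    b2.trans (h3.trans (mul_le_mul_of_nonneg_left h2 hX))
  have b4 : N ^ ((k : ℝ) - ε) * N ^ ((k : ℝ) + ε / 2) ≤
      (C' * X) * N ^ ((k : ℝ) + ε / 2) := by
    rw [← Real.rpow_add hN0]
    calc N ^ ((k : ℝ) - ε + (k + ε / 2)) ≤ N ^ (2 * k * (1 - δ)) := by
          apply Real.rpow_le_rpow_of_exponent_le hN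
          nlinarith
      _ ≤ _ := b3
      _ = _ := by ring
  exact le_of_mul_le_mul_right b4 (Real.rpow_pos_of_pos hN0 _)

/-- **The structure theorem with its two consequences for Q1.** -/
theorem main : ∃ c : ℝ, 0 < c ∧ ∀ (k : ℕ) (ε : ℝ), 2 ≤ k → 0 < ε → ε ≤ 1 →
    ∃ C : ℕ → ℝ, (∀ h, 1 ≤ C h) ∧ ∀ A : Finset ℤ, A.Nonempty →
      (∃ B P M : Finset ℤ, Disjoint B P ∧ Disjoint B M ∧ Disjoint P M ∧ B ∪ P ∪ M = A ∧
        (0 : ℤ) ∉ P ∪ M ∧
        (addE k B : ℝ) ≤ C k * (A.card : ℝ) ^ ((k : ℝ) + ε) ∧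
        (mulE k P : ℝ) ≤ C k * (A.card : ℝ) ^ ((k : ℝ) + ε) ∧
        ∀ h : ℕ, 1 ≤ h →
          (addE h (B ∪ M) : ℝ) ≤
            C h * (A.card : ℝ) ^ (2 * (h : ℝ) - 1 - c * ε / (k * Real.log k) * Real.log h) ∧
          (mulE h (P ∪ M) : ℝ) ≤
            C h * (A.card : ℝ) ^ (2 * (h : ℝ) - 1 - c * ε / (k * Real.log k) * Real.log h)) ∧
      ((A.card : ℝ) ^ ((k : ℝ) - ε) ≤ C k *
          (((Fintype.piFinset (fun _ : Fin k => A)).image
            (fun f : Fin k → ℤ => ∏ i, f i)).card : ℝ) ∨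
        ∀ h : ℕ, 1 ≤ h → (addE h A : ℝ) ≤
          C h * (A.card : ℝ) ^ (2 * (h : ℝ) - 1 - c * ε / (k * Real.log k) * Real.log h)) ∧
      ((A.card : ℝ) ^ ((k : ℝ) - ε) ≤ C k *
          (((Fintype.piFinset (fun _ : Fin k => A)).image
            (fun f : Fin k → ℤ => ∑ i, f i)).card : ℝ) ∨
        ∀ h : ℕ, 1 ≤ h → (mulE h (A.erase 0) : ℝ) ≤
          C h * (A.card : ℝ) ^ (2 * (h : ℝ) - 1 - c * ε / (k * Real.log k) * Real.log h)) := by
  classical
  obtain ⟨c, hc, hc8, H⟩ := partition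
  refine ⟨c / 2, by positivity, ?_⟩
  intro k ε hk hε hε1
  obtain ⟨C, hC, HA⟩ := H k (ε / 2) hk (by linarith) (by linarith)
  have h8h : ∀ h : ℕ, (1 : ℝ) ≤ 8 ^ h := fun h => one_le_pow₀ (by norm_num)
  have hC8 : ∀ h : ℕ, C h ≤ 8 ^ h * C h := fun h =>
    le_mul_of_one_le_left (by linarith [hC h]) (h8h h)
  refine ⟨fun h => 8 ^ h * C h, fun h => (hC h).trans (hC8 h), ?_⟩
  intro A hA
  obtain ⟨B, P, M, hBP, hBM, hPM, hun, h0, hB, hP, hE⟩ := HA A hA
  have hN1 : (1 : ℝ) ≤ A.card := by exact_mod_cast hA.card_pos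
  have hBA : B ⊆ A := by rw [← hun]; intro a ha; simp [ha]
  have hPA : P ⊆ A := by rw [← hun]; intro a ha; simp [ha]
  have hexp : c / 2 * ε / (k * Real.log k) = c * (ε / 2) / (k * Real.log k) := by ring
  have hCk := hC k
  refine ⟨⟨B, P, M, hBP, hBM, hPM, hun, h0, ?_, ?_, ?_⟩, ?_, ?_⟩
  · refine hB.trans (mul_le_mul (hC8 k) ?_ (by positivity) (by linarith [hC8 k]))
    exact Real.rpow_le_rpow_of_exponent_le hN1 (by linarith)
  · refine hP.trans (mul_le_mul (hC8 k) ?_ (by positivity) (by linarith [hC8 k]))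
    exact Real.rpow_le_rpow_of_exponent_le hN1 (by linarith)
  · intro h hh
    rw [hexp]
    exact ⟨(hE h hh).1.trans (mul_le_mul_of_nonneg_right (hC8 h) (by positivity)),
      (hE h hh).2.trans (mul_le_mul_of_nonneg_right (hC8 h) (by positivity))⟩
  · -- large additive energy
    by_cases hgood : ∀ h : ℕ, 1 ≤ h → (addE h A : ℝ) ≤ 8 ^ h * C h *
        (A.card : ℝ) ^ (2 * (h : ℝ) - 1 - c / 2 * ε / (k * Real.log k) * Real.log h)
    · exact Or.inr hgood
    left
    push Not at hgood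
    obtain ⟨h, hh, hbad'⟩ := hgood
    have hun' : A = (B ∪ M) ∪ P := by
      rw [← hun]
      ext a
      simp only [mem_union]
      tauto
    have hsub := addE_union hh (B ∪ M) P
    rw [← hun'] at hsub
    have hsub' : (addE h A : ℝ) ^ ((1 : ℝ) / h) ≤
        4 * (addE h (B ∪ M) : ℝ) ^ ((1 : ℝ) / h) + 4 * (addE h P : ℝ) ^ ((1 : ℝ) / h) := by
      have p1 : 0 ≤ (addE h (B ∪ M) : ℝ) ^ ((1 : ℝ) / h) := by positivity
      have p2 : 0 ≤ (addE h P : ℝ) ^ ((1 : ℝ) / h) := by positivity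
      linarith
    have hE2 : (addE h P : ℝ) ≤ ((P.card : ℝ)) ^ (2 * h - 1) := by
      exact_mod_cast addE_trivial hh P
    have b1 := real_step hh hN1 (Nat.cast_nonneg _) (Nat.cast_nonneg _) (Nat.cast_nonneg _)
      (hC h) (le_of_eq (by rw [hexp])) hsub' (hE h hh).1 hE2 hbad'
    have b2 : ((P.card : ℝ) ^ k) ^ 2 ≤
        (((Fintype.piFinset (fun _ : Fin k => P)).image
          (fun f : Fin k → ℤ => ∏ i, f i)).card : ℝ) * (mulE k P : ℝ) := by
      have := cs_image (Fintype.piFinset (fun _ : Fin k => P)) (fun f : Fin k → ℤ => ∏ i, f i)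
      rw [Fintype.card_piFinset] at this
      simp only [prod_const, card_univ, Fintype.card_fin] at this
      exact_mod_cast this
    have b3 := real_end (c := c / 2) hh hk hN1 (Nat.cast_nonneg _) (Nat.cast_nonneg _)
      (by linarith) (by positivity) (by linarith) hε b1 hP b2
    refine b3.trans (mul_le_mul (hC8 k) ?_ (Nat.cast_nonneg _) (by linarith [hC8 k]))
    exact_mod_cast card_le_card (image_subset_image (Fintype.piFinset_subset _ _ (fun _ => hPA)))
  · -- large multiplicative energy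
    by_cases hgood : ∀ h : ℕ, 1 ≤ h → (mulE h (A.erase 0) : ℝ) ≤ 8 ^ h * C h *
        (A.card : ℝ) ^ (2 * (h : ℝ) - 1 - c / 2 * ε / (k * Real.log k) * Real.log h)
    · exact Or.inr hgood
    left
    push Not at hgood
    obtain ⟨h, hh, hbad'⟩ := hgood
    have h0B : (0 : ℤ) ∉ B.erase 0 := by simp
    have hun' : A.erase 0 = (P ∪ M) ∪ B.erase 0 := by
      rw [← hun]
      ext a
      simp only [mem_erase, mem_union]
      constructor
      · rintro ⟨ha, (hb | hb) | hb⟩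
        · exact Or.inr ⟨ha, hb⟩
        · exact Or.inl (Or.inl hb)
        · exact Or.inl (Or.inr hb)
      · rintro (hb | hb)
        · refine ⟨fun h => h0 (by rw [← h]; exact mem_union.mpr hb), ?_⟩
          tauto
        · tauto
    have hsub := mulE_union hh h0 h0B
    rw [← hun'] at hsub
    have hE2 : (mulE h (B.erase 0) : ℝ) ≤ ((B.card : ℝ)) ^ (2 * h - 1) := by
      have a1 := mulE_trivial hh (B.erase 0) h0B
      have a2 : (B.erase 0).card ^ (2 * h - 1) ≤ B.card ^ (2 * h - 1) :=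
        Nat.pow_le_pow_left (card_le_card (erase_subset _ _)) _
      exact_mod_cast a1.trans a2
    have b1 := real_step hh hN1 (Nat.cast_nonneg _) (Nat.cast_nonneg _) (Nat.cast_nonneg _)
      (hC h) (le_of_eq (by rw [hexp])) hsub (hE h hh).2 hE2 hbad'
    have b2 : ((B.card : ℝ) ^ k) ^ 2 ≤
        (((Fintype.piFinset (fun _ : Fin k => B)).image
          (fun f : Fin k → ℤ => ∑ i, f i)).card : ℝ) * (addE k B : ℝ) := by
      have := cs_image (Fintype.piFinset (fun _ : Fin k => B)) (fun f : Fin k → ℤ => ∑ i, f i)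
      rw [Fintype.card_piFinset] at this
      simp only [prod_const, card_univ, Fintype.card_fin] at this
      exact_mod_cast this
    have b3 := real_end (c := c / 2) hh hk hN1 (Nat.cast_nonneg _) (Nat.cast_nonneg _)
      (by linarith) (by positivity) (by linarith) hε b1 hB b2
    refine b3.trans (mul_le_mul (hC8 k) ?_ (Nat.cast_nonneg _) (by linarith [hC8 k]))
    exact_mod_cast card_le_card (image_subset_image (Fintype.piFinset_subset _ _ (fun _ => hBA)))

end Pool.Agent.Helper94.LE
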