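import Pool.Agent.Helper94.LE.PotStep

set_option autoImplicit false

/-!
MP_120218_co, theorem LE: existence of the potentials.
-/

open Finset
open Pool.Agent.Helper80.LL

namespace Pool.Agent.Helper94.LE

/-- a constant valuation changes nothing -/
theorem good_const {q : ℕ} {ps : List ℕ} {D : Finset ℕ} {l : ℕ}
    (h : ∀ y ∈ D, y.factorization q = l) {P Q : ℕ → ℝ} (g : Good ps D P Q) :
    Good (q :: ps) D P Q where
  nonneg := g.nonneg
  sum := g.sum
  herP := fun S hS hne => by
    rw [Psi_const hne (fun y hy => h y (hS hy))]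
    exact g.herP S hS hne
  herQ := fun S hS hne => by
    rw [Psi_const hne (fun y hy => h y (hS hy))]
    exact g.herQ S hS hne
  normP := g.normP
  normQ := g.normQ

theorem Pot_Psi_single (a : ℕ) (ps : List ℕ) : Psi ps {a} = 0 := by
  induction ps with
  | nil => rfl
  | cons q ps ih =>
    rw [Psi_const (l := a.factorization q) (singleton_nonempty a) (fun y hy => by
      rw [mem_singleton.1 hy])]
    exact ih

theorem good_single {a : ℕ} (ps : List ℕ) : Good ps {a} (fun _ => 0) (fun _ => 0) where
  nonneg := fun _ _ => ⟨le_rfl, le_rfl⟩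
  sum := fun _ _ => by rw [card_singleton, Nat.cast_one, Real.log_one, add_zero]
  herP := fun S hS hne => by
    have h1 : S = {a} := (Finset.subset_singleton_iff.1 hS).resolve_left hne.ne_empty
    rw [h1, Pot_Psi_single, card_singleton]
    simp
  herQ := fun S hS hne => by
    have h1 : S = {a} := (Finset.subset_singleton_iff.1 hS).resolve_left hne.ne_empty
    rw [h1, Pot_Psi_single, card_singleton]
    simp
  normP := fun F K κ hF _ _ S hS => by
    rcases Finset.subset_singleton_iff.1 hS with h1 | h1
    · rw [h1, sum_empty]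
      exact hF.empty
    · rw [h1, sum_singleton, mul_zero, Real.exp_zero]
      exact hF.single a
  normQ := fun F K κ hF _ _ S hS => by
    rcases Finset.subset_singleton_iff.1 hS with h1 | h1
    · rw [h1, sum_empty]
      exact hF.empty
    · rw [h1, sum_singleton, mul_zero, Real.exp_zero]
      exact hF.single a

theorem pot : ∀ ps : List ℕ, (∀ q ∈ ps, q.Prime) → ∀ D : Finset ℕ, D.Nonempty →
    (∀ y ∈ D, 0 < y) →
    (∀ y ∈ D, ∀ y' ∈ D, (∀ q ∈ ps, y.factorization q = y'.factorization q) → y = y') →
    ∃ P Q : ℕ → ℝ, Good ps D P Q := by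
  intro ps
  induction ps with
  | nil =>
    intro _ D hDne _ hsep
    obtain ⟨y, hy⟩ := hDne
    have h1 : D = {y} := by
      ext z
      rw [mem_singleton]
      constructor
      · intro hz
        exact hsep z hz y hy (fun q hq => absurd hq (List.not_mem_nil))
      · rintro rfl
        exact hy
    rw [h1]
    exact ⟨_, _, good_single []⟩
  | cons q ps ihps =>
    intro hps
    have hps' : ∀ q' ∈ ps, q'.Prime := fun q' hq' => hps q' (List.mem_cons_of_mem _ hq')
    have key : ∀ n : ℕ, ∀ D : Finset ℕ, D.card = n → D.Nonempty → (∀ y ∈ D, 0 < y) →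
        (∀ y ∈ D, ∀ y' ∈ D,
          (∀ q' ∈ q :: ps, y.factorization q' = y'.factorization q') → y = y') →
        ∃ P Q : ℕ → ℝ, Good (q :: ps) D P Q := by
      intro n
      induction n using Nat.strong_induction_on with
      | _ n ih =>
      intro D hcard hDne hpos hsep
      obtain ⟨ym, hym, hmin⟩ := exists_min_image D (fun y => y.factorization q) hDne
      obtain ⟨l, hl⟩ : ∃ l, l = ym.factorization q := ⟨_, rfl⟩
      rw [← hl] at hmin
      obtain ⟨D₀, hD₀⟩ : ∃ D₀, D₀ = D.filter (fun y => y.factorization q = l) := ⟨_, rfl⟩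
      obtain ⟨D₁, hD₁⟩ : ∃ D₁, D₁ = D.filter (fun y => l < y.factorization q) := ⟨_, rfl⟩
      have h₀ : D₀.Nonempty := ⟨ym, by rw [hD₀, mem_filter]; exact ⟨hym, hl.symm⟩⟩
      rcases D₁.eq_empty_or_nonempty with hemp | h₁
      · -- the valuation is constant
        have hall : ∀ y ∈ D, y.factorization q = l := by
          intro y hy
          by_contra hne
          have : y ∈ D₁ := by
            rw [hD₁, mem_filter]
            exact ⟨hy, lt_of_le_of_ne (hmin y hy) (Ne.symm hne)⟩
          rw [hemp] at this
          exact notMem_empty _ this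
        obtain ⟨P, Q, g⟩ := ihps hps' D hDne hpos (by
          intro y hy y' hy' h
          apply hsep y hy y' hy'
          intro q' hq'
          rcases List.mem_cons.1 hq' with rfl | hq'
          · rw [hall y hy, hall y' hy']
          · exact h q' hq')
        exact ⟨P, Q, good_const hall g⟩
      have hD₀v : ∀ y ∈ D₀, y.factorization q = l := fun y hy => by
        rw [hD₀, mem_filter] at hy; exact hy.2
      have hsub0 : D₀ ⊆ D := by rw [hD₀]; exact filter_subset _ _
      have hsub1 : D₁ ⊆ D := by rw [hD₁]; exact filter_subset _ _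
      have hlt1 : D₁.card < n := by
        rw [← hcard]
        apply card_lt_card
        refine ⟨hsub1, fun h => ?_⟩
        obtain ⟨y, hy⟩ := h₀
        have h2 := h (hsub0 hy)
        rw [hD₁, mem_filter] at h2
        have h3 := hD₀v y hy
        omega
      obtain ⟨P₀, Q₀, g0⟩ := ihps hps' D₀ h₀ (fun y hy => hpos y (hsub0 hy)) (by
        intro y hy y' hy' h
        apply hsep y (hsub0 hy) y' (hsub0 hy')
        intro q' hq'
        rcases List.mem_cons.1 hq' with rfl | hq'
        · rw [hD₀v y hy, hD₀v y' hy']
        · exact h q' hq')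
      obtain ⟨P₁, Q₁, g1⟩ := ih D₁.card hlt1 D₁ rfl h₁ (fun y hy => hpos y (hsub1 hy))
        (fun y hy y' hy' => hsep y (hsub1 hy) y' (hsub1 hy'))
      exact good_step (hps q List.mem_cons_self) hpos hmin hD₀ hD₁ h₀ h₁ g0 g1
    intro D hDne hpos hsep
    exact key D.card D rfl hDne hpos hsep

end Pool.Agent.Helper94.LE
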