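import Pool.Agent.Helper94.LE.Defs
import Pool.Agent.Helper94.LE.Cost
import Pool.Agent.Helper80.LL.Defs

set_option autoImplicit false

/-!
MP_120218_co, theorem LE: the potentials `P`, `Q` on a finite set of positive integers, the step.
-/

open Finset
open Pool.Agent.Helper80.LL

namespace Pool.Agent.Helper94.LE

/-- `P`, `Q` are good potentials for `D` along the primes `ps` -/
structure Good (ps : List ℕ) (D : Finset ℕ) (P Q : ℕ → ℝ) : Prop where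
  nonneg : ∀ a ∈ D, 0 ≤ P a ∧ 0 ≤ Q a
  sum : ∀ a ∈ D, Real.log D.card ≤ P a + Q a
  herP : ∀ S ⊆ D, S.Nonempty → ∑ a ∈ S, P a ≤
    5 * Psi ps S + 8 * (S.card * Real.log (D.card / S.card))
  herQ : ∀ S ⊆ D, S.Nonempty → ∑ a ∈ S, Q a ≤
    5 * (S.card * Real.log S.card - Psi ps S) + 8 * (S.card * Real.log (D.card / S.card))
  normP : ∀ (F : Finset ℕ → ℝ) (K κ : ℝ), NormP K F → 1 ≤ κ → K ≤ Real.exp κ → ∀ S ⊆ D,
    F S ≤ ∑ a ∈ S, Real.exp (κ * P a)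
  normQ : ∀ (F : Finset ℕ → ℝ) (K κ : ℝ), NormS K F → 1 ≤ κ → K ≤ Real.exp κ → ∀ S ⊆ D,
    F S ≤ ∑ a ∈ S, Real.exp (κ * Q a)

private theorem mul_log_div {s a : ℝ} (ha : a ≠ 0) :
    s * Real.log (a / s) = s * (Real.log a - Real.log s) := by
  rcases eq_or_ne s 0 with rfl | hs
  · simp
  · rw [Real.log_div ha hs]

private theorem mul_kl {s₀ s₁ n₀ n₁ : ℝ} (h0 : 0 ≤ s₀) (h1 : 0 ≤ s₁) (hs : 0 < s₀ + s₁)
    (hn0 : 0 < n₀) (hn1 : 0 < n₁) :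
    (s₀ + s₁) * kl (s₀ / (s₀ + s₁)) (n₀ / (n₀ + n₁)) =
      s₀ * (Real.log s₀ - Real.log (s₀ + s₁) - Real.log n₀ + Real.log (n₀ + n₁)) +
      s₁ * (Real.log s₁ - Real.log (s₀ + s₁) - Real.log n₁ + Real.log (n₀ + n₁)) := by
  have hn : 0 < n₀ + n₁ := by linarith
  have e1 : 1 - s₀ / (s₀ + s₁) = s₁ / (s₀ + s₁) := by
    rw [eq_div_iff hs.ne', sub_mul, div_mul_cancel₀ _ hs.ne']
    ring
  have e2 : 1 - n₀ / (n₀ + n₁) = n₁ / (n₀ + n₁) := by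
    rw [eq_div_iff hn.ne', sub_mul, div_mul_cancel₀ _ hn.ne']
    ring
  have key : ∀ {t m : ℝ}, 0 ≤ t → 0 < m →
      (s₀ + s₁) * (t / (s₀ + s₁) * Real.log (t / (s₀ + s₁) / (m / (n₀ + n₁)))) =
        t * (Real.log t - Real.log (s₀ + s₁) - Real.log m + Real.log (n₀ + n₁)) := by
    intro t m ht hm
    rcases eq_or_ne t 0 with rfl | ht0
    · simp
    · rw [Real.log_div (div_ne_zero ht0 hs.ne') (div_ne_zero hm.ne' hn.ne'),
        Real.log_div ht0 hs.ne', Real.log_div hm.ne' hn.ne', ← mul_assoc,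
        mul_div_cancel₀ _ hs.ne']
      ring
  unfold kl
  rw [e1, e2, mul_add, key h0 hn0, key h1 hn1]

private theorem numP {s₀ s₁ n₀ n₁ ψ₀ ψ₁ A B p₀ p₁ : ℝ} (h0 : 0 ≤ s₀) (h1 : 0 ≤ s₁)
    (hs : 0 < s₀ + s₁) (hn0 : 0 < n₀) (hn1 : 0 < n₁)
    (b0 : A ≤ 5 * ψ₀ + 8 * (s₀ * Real.log (n₀ / s₀)))
    (b1 : B ≤ 5 * ψ₁ + 8 * (s₁ * Real.log (n₁ / s₁)))
    (hP : ∀ y : ℝ, 0 ≤ y → y ≤ 1 → p₀ * y + p₁ * (1 - y) ≤
      5 * (y * Real.log (1 / y)) + 8 * kl y (n₀ / (n₀ + n₁))) :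
    (A + s₀ * p₀) + (B + s₁ * p₁) ≤ 5 * (s₀ * Real.log ((s₀ + s₁) / s₀) + ψ₀ + ψ₁) +
      8 * ((s₀ + s₁) * Real.log ((n₀ + n₁) / (s₀ + s₁))) := by
  have hy0 : 0 ≤ s₀ / (s₀ + s₁) := div_nonneg h0 hs.le
  have hy1 : s₀ / (s₀ + s₁) ≤ 1 := by
    rw [div_le_one hs]
    linarith
  have hm := mul_le_mul_of_nonneg_left (hP _ hy0 hy1) hs.le
  have f1 : (s₀ + s₁) * (p₀ * (s₀ / (s₀ + s₁)) + p₁ * (1 - s₀ / (s₀ + s₁))) =
      s₀ * p₀ + s₁ * p₁ := by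
    field_simp
    ring
  have f2 : (s₀ + s₁) * (5 * (s₀ / (s₀ + s₁) * Real.log (1 / (s₀ / (s₀ + s₁)))) +
      8 * kl (s₀ / (s₀ + s₁)) (n₀ / (n₀ + n₁))) = 5 * (s₀ * Real.log ((s₀ + s₁) / s₀)) +
      8 * ((s₀ + s₁) * kl (s₀ / (s₀ + s₁)) (n₀ / (n₀ + n₁))) := by
    rw [one_div_div]
    field_simp
  rw [f1, f2, mul_kl h0 h1 hs hn0 hn1] at hm
  rw [mul_log_div hn0.ne'] at b0
  rw [mul_log_div hn1.ne'] at b1
  rw [mul_log_div (add_pos hn0 hn1).ne']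
  linarith

private theorem numQ {s₀ s₁ n₀ n₁ ψ₀ ψ₁ A B q₀ q₁ : ℝ} (h0 : 0 ≤ s₀) (h1 : 0 ≤ s₁)
    (hs : 0 < s₀ + s₁) (hn0 : 0 < n₀) (hn1 : 0 < n₁)
    (b0 : A ≤ 5 * (s₀ * Real.log s₀ - ψ₀) + 8 * (s₀ * Real.log (n₀ / s₀)))
    (b1 : B ≤ 5 * (s₁ * Real.log s₁ - ψ₁) + 8 * (s₁ * Real.log (n₁ / s₁)))
    (hQ : ∀ y : ℝ, 0 ≤ y → y ≤ 1 → q₀ * y + q₁ * (1 - y) ≤
      5 * ((1 - y) * Real.log (1 / (1 - y))) + 8 * kl y (n₀ / (n₀ + n₁))) :
    (A + s₀ * q₀) + (B + s₁ * q₁) ≤ 5 * ((s₀ + s₁) * Real.log (s₀ + s₁) -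
      (s₀ * Real.log ((s₀ + s₁) / s₀) + ψ₀ + ψ₁)) +
      8 * ((s₀ + s₁) * Real.log ((n₀ + n₁) / (s₀ + s₁))) := by
  have hy0 : 0 ≤ s₀ / (s₀ + s₁) := div_nonneg h0 hs.le
  have hy1 : s₀ / (s₀ + s₁) ≤ 1 := by
    rw [div_le_one hs]
    linarith
  have hm := mul_le_mul_of_nonneg_left (hQ _ hy0 hy1) hs.le
  have f0 : 1 - s₀ / (s₀ + s₁) = s₁ / (s₀ + s₁) := by
    rw [eq_div_iff hs.ne', sub_mul, div_mul_cancel₀ _ hs.ne']
    ring
  have f1 : (s₀ + s₁) * (q₀ * (s₀ / (s₀ + s₁)) + q₁ * (s₁ / (s₀ + s₁))) =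
      s₀ * q₀ + s₁ * q₁ := by
    field_simp
  have f2 : (s₀ + s₁) * (5 * (s₁ / (s₀ + s₁) * Real.log (1 / (s₁ / (s₀ + s₁)))) +
      8 * kl (s₀ / (s₀ + s₁)) (n₀ / (n₀ + n₁))) = 5 * (s₁ * Real.log ((s₀ + s₁) / s₁)) +
      8 * ((s₀ + s₁) * kl (s₀ / (s₀ + s₁)) (n₀ / (n₀ + n₁))) := by
    rw [one_div_div]
    field_simp
  rw [f0, f1, f2, mul_kl h0 h1 hs hn0 hn1, mul_log_div hs.ne'] at hm
  rw [mul_log_div hn0.ne'] at b0
  rw [mul_log_div hn1.ne'] at b1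
  rw [mul_log_div (add_pos hn0 hn1).ne', mul_log_div hs.ne']
  linarith

private theorem kl_symm (y x : ℝ) : kl (1 - y) (1 - x) = kl y x := by
  unfold kl
  rw [sub_sub_cancel, sub_sub_cancel, add_comm]

private theorem normP_nonneg {K : ℝ} {F : Finset ℕ → ℝ} (hF : NormP K F) (S : Finset ℕ) :
    0 ≤ F S := by
  have h := hF.tri ∅ S (1 / 2) (1 / 2) (by norm_num) (by norm_num) (by norm_num)
    (disjoint_empty_left S)
  rw [empty_union] at h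
  have h2 := hF.empty
  have h3 : F ∅ / (1 / 2) = 2 * F ∅ := by ring
  have h4 : F S / (1 / 2) = 2 * F S := by ring
  rw [h3, h4] at h
  linarith

private theorem normS_nonneg {K : ℝ} {F : Finset ℕ → ℝ} (hF : NormS K F) (S : Finset ℕ) :
    0 ≤ F S := by
  have h := hF.tri ∅ S (1 / 2) (1 / 2) (by norm_num) (by norm_num) (by norm_num)
    (disjoint_empty_left S)
  rw [empty_union] at h
  have h2 := hF.empty
  have h3 : F ∅ / (1 / 2) = 2 * F ∅ := by ring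
  have h4 : F S / (1 / 2) = 2 * F S := by ring
  rw [h3, h4] at h
  linarith

/-- the parts of a subset -/
private theorem parts {q l : ℕ} {D D₀ D₁ : Finset ℕ} (hl : ∀ y ∈ D, l ≤ y.factorization q)
    (h0 : D₀ = D.filter (fun y => y.factorization q = l))
    (h1 : D₁ = D.filter (fun y => l < y.factorization q)) {S : Finset ℕ} (hS : S ⊆ D) :
    ∃ S₀ S₁ : Finset ℕ, S₀ = S.filter (fun y => y.factorization q = l) ∧
      S₁ = S.filter (fun y => l < y.factorization q) ∧ S₀ ⊆ D₀ ∧ S₁ ⊆ D₁ ∧ S = S₀ ∪ S₁ ∧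
      Disjoint S₀ S₁ ∧ (∀ a ∈ S₁, a ∉ D₀) := by
  refine ⟨_, _, rfl, rfl, ?_, ?_, ?_, ?_, ?_⟩
  · rw [h0]; exact filter_subset_filter _ hS
  · rw [h1]; exact filter_subset_filter _ hS
  · ext y
    rw [mem_union, mem_filter, mem_filter]
    constructor
    · intro hy
      rcases (hl y (hS hy)).lt_or_eq with h | h
      · exact Or.inr ⟨hy, h⟩
      · exact Or.inl ⟨hy, h.symm⟩
    · rintro (h | h) <;> exact h.1
  · rw [disjoint_left]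
    intro y hy0 hy1
    rw [mem_filter] at hy0 hy1
    omega
  · intro a ha h
    rw [h0, mem_filter] at h
    rw [mem_filter] at ha
    omega

private theorem psi_parts {q : ℕ} {ps : List ℕ} {S S₀ S₁ : Finset ℕ} {l : ℕ}
    (hl : ∀ y ∈ S, l ≤ y.factorization q)
    (h0 : S₀ = S.filter (fun y => y.factorization q = l))
    (h1 : S₁ = S.filter (fun y => l < y.factorization q)) (hS : S = S₀ ∪ S₁) :
    ∃ Ψ₀ Ψ₁ : ℝ, Psi (q :: ps) S = S₀.card * Real.log (S.card / S₀.card) + Ψ₀ + Ψ₁ ∧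
      (S₀.Nonempty → Ψ₀ = Psi ps S₀) ∧ (S₁.Nonempty → Ψ₁ = Psi (q :: ps) S₁) ∧
      (S₀ = ∅ → Ψ₀ = 0) ∧ (S₁ = ∅ → Ψ₁ = 0) := by
  rcases S₀.eq_empty_or_nonempty with he | hne
  · refine ⟨0, Psi (q :: ps) S₁, ?_, ?_, fun _ => rfl, fun _ => rfl, ?_⟩
    · rw [he, card_empty, Nat.cast_zero, zero_mul, zero_add, zero_add]
      congr 1
      rw [hS, he, empty_union]
    · intro h
      rw [he] at h
      exact absurd h not_nonempty_empty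
    · intro h
      rw [h]
      simp [Psi, Lq]
  · refine ⟨Psi ps S₀, Psi (q :: ps) S₁, Psi_split hl h0 h1 hne, fun _ => rfl, fun _ => rfl, ?_, ?_⟩
    · intro h
      rw [h] at hne
      exact absurd hne not_nonempty_empty
    · intro h
      rw [h]
      simp [Psi, Lq]

private theorem step_aux {q l : ℕ} {ps : List ℕ} {D D₀ D₁ : Finset ℕ}
    (hl : ∀ y ∈ D, l ≤ y.factorization q)
    (h0 : D₀ = D.filter (fun y => y.factorization q = l))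
    (h1 : D₁ = D.filter (fun y => l < y.factorization q)) (hne0 : D₀.Nonempty)
    (hne1 : D₁.Nonempty) {P₀ Q₀ P₁ Q₁ : ℕ → ℝ} (g0 : Good ps D₀ P₀ Q₀)
    (g1 : Good (q :: ps) D₁ P₁ Q₁) {p₀ p₁ q₀ q₁ : ℝ} (hp0 : 0 ≤ p₀) (hp1 : 0 ≤ p₁)
    (hq0 : 0 ≤ q₀) (hq1 : 0 ≤ q₁)
    (hs0 : Real.log D.card - Real.log D₀.card ≤ p₀ + q₀)
    (hs1 : Real.log D.card - Real.log D₁.card ≤ p₁ + q₁)
    (hP : ∀ y : ℝ, 0 ≤ y → y ≤ 1 → p₀ * y + p₁ * (1 - y) ≤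
      5 * (y * Real.log (1 / y)) + 8 * kl y (D₀.card / D.card))
    (hQ : ∀ y : ℝ, 0 ≤ y → y ≤ 1 → q₀ * y + q₁ * (1 - y) ≤
      5 * ((1 - y) * Real.log (1 / (1 - y))) + 8 * kl y (D₀.card / D.card))
    (nP : ∀ (F : Finset ℕ → ℝ) (K κ : ℝ), NormP K F → 1 ≤ κ → K ≤ Real.exp κ →
      ∀ S₀ ⊆ D₀, ∀ S₁ ⊆ D₁, F (S₀ ∪ S₁) ≤ Real.exp (κ * p₀) * F S₀ + Real.exp (κ * p₁) * F S₁)
    (nQ : ∀ (F : Finset ℕ → ℝ) (K κ : ℝ), NormS K F → 1 ≤ κ → K ≤ Real.exp κ →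
      ∀ S₀ ⊆ D₀, ∀ S₁ ⊆ D₁, F (S₀ ∪ S₁) ≤ Real.exp (κ * q₀) * F S₀ + Real.exp (κ * q₁) * F S₁) :
    Good (q :: ps) D (fun a => if a ∈ D₀ then P₀ a + p₀ else P₁ a + p₁)
      (fun a => if a ∈ D₀ then Q₀ a + q₀ else Q₁ a + q₁) := by
  have hD : ∀ a ∈ D, a ∈ D₀ ∨ (a ∉ D₀ ∧ a ∈ D₁) := by
    intro a ha
    rcases (hl a ha).lt_or_eq with h | h
    · right
      rw [h0, h1, mem_filter, mem_filter]
      exact ⟨fun h' => by omega, ha, h⟩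
    · left
      rw [h0, mem_filter]
      exact ⟨ha, h.symm⟩
  have hn0 : (0 : ℝ) < D₀.card := by exact_mod_cast card_pos.2 hne0
  have hn1 : (0 : ℝ) < D₁.card := by exact_mod_cast card_pos.2 hne1
  have hcard : (D.card : ℝ) = D₀.card + D₁.card := by
    obtain ⟨S₀, S₁, e0, e1, -, -, e2, e3, -⟩ := parts hl h0 h1 (Subset.refl D)
    rw [← h0] at e0
    rw [← h1] at e1
    rw [e0, e1] at e2 e3
    rw [e2, card_union_of_disjoint e3]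
    push_cast
    rfl
  -- sums of the modified functions
  have sumf : ∀ (f₀ f₁ : ℕ → ℝ) (c₀ c₁ : ℝ) (S₀ S₁ : Finset ℕ), S₀ ⊆ D₀ → (∀ a ∈ S₁, a ∉ D₀) →
      Disjoint S₀ S₁ → ∑ a ∈ S₀ ∪ S₁, (if a ∈ D₀ then f₀ a + c₀ else f₁ a + c₁) =
        (∑ a ∈ S₀, f₀ a + S₀.card * c₀) + (∑ a ∈ S₁, f₁ a + S₁.card * c₁) := by
    intro f₀ f₁ c₀ c₁ S₀ S₁ hS0 hS1 hd
    rw [sum_union hd]
    congr 1
    · rw [← nsmul_eq_mul, ← sum_const, ← sum_add_distrib]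
      exact sum_congr rfl fun a ha => if_pos (hS0 ha)
    · rw [← nsmul_eq_mul, ← sum_const, ← sum_add_distrib]
      exact sum_congr rfl fun a ha => if_neg (hS1 a ha)
  have sume : ∀ (f₀ f₁ : ℕ → ℝ) (c₀ c₁ κ : ℝ) (S₀ S₁ : Finset ℕ), S₀ ⊆ D₀ →
      (∀ a ∈ S₁, a ∉ D₀) → Disjoint S₀ S₁ →
      ∑ a ∈ S₀ ∪ S₁, Real.exp (κ * (if a ∈ D₀ then f₀ a + c₀ else f₁ a + c₁)) =
        Real.exp (κ * c₀) * ∑ a ∈ S₀, Real.exp (κ * f₀ a) +
        Real.exp (κ * c₁) * ∑ a ∈ S₁, Real.exp (κ * f₁ a) := by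
    intro f₀ f₁ c₀ c₁ κ S₀ S₁ hS0 hS1 hd
    rw [sum_union hd, mul_sum, mul_sum]
    congr 1
    · refine sum_congr rfl fun a ha => ?_
      rw [if_pos (hS0 ha), mul_add, Real.exp_add, mul_comm]
    · refine sum_congr rfl fun a ha => ?_
      rw [if_neg (hS1 a ha), mul_add, Real.exp_add, mul_comm]
  -- the cardinalities of the parts
  have cards : ∀ S₀ S₁ : Finset ℕ, Disjoint S₀ S₁ → (S₀ ∪ S₁).Nonempty →
      ((S₀ ∪ S₁).card : ℝ) = S₀.card + S₁.card ∧ (0 : ℝ) < S₀.card + S₁.card := by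
    intro S₀ S₁ hd hne
    have e : ((S₀ ∪ S₁).card : ℝ) = S₀.card + S₁.card := by
      rw [card_union_of_disjoint hd]
      push_cast
      rfl
    refine ⟨e, ?_⟩
    rw [← e]
    exact_mod_cast card_pos.2 hne
  refine ⟨?_, ?_, ?_, ?_, ?_, ?_⟩
  · intro a ha
    rcases hD a ha with h | ⟨h, h'⟩
    · simp only [if_pos h]
      exact ⟨add_nonneg (g0.nonneg a h).1 hp0, add_nonneg (g0.nonneg a h).2 hq0⟩
    · simp only [if_neg h]
      exact ⟨add_nonneg (g1.nonneg a h').1 hp1, add_nonneg (g1.nonneg a h').2 hq1⟩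
  · intro a ha
    rcases hD a ha with h | ⟨h, h'⟩
    · simp only [if_pos h]
      have := g0.sum a h
      linarith
    · simp only [if_neg h]
      have := g1.sum a h'
      linarith
  · intro S hS hne
    obtain ⟨S₀, S₁, e0, e1, hS0, hS1, e2, hd, hn⟩ := parts hl h0 h1 hS
    obtain ⟨Ψ₀, Ψ₁, hΨ, a1, a2, a3, a4⟩ := psi_parts (ps := ps) (fun y hy => hl y (hS hy)) e0 e1 e2
    have c := cards S₀ S₁ hd (e2 ▸ hne)
    rw [← e2] at c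
    have b0 : ∑ a ∈ S₀, P₀ a ≤ 5 * Ψ₀ + 8 * (S₀.card * Real.log (D₀.card / S₀.card)) := by
      rcases S₀.eq_empty_or_nonempty with he | he
      · rw [a3 he, he]
        simp
      · rw [a1 he]
        exact g0.herP S₀ hS0 he
    have b1 : ∑ a ∈ S₁, P₁ a ≤ 5 * Ψ₁ + 8 * (S₁.card * Real.log (D₁.card / S₁.card)) := by
      rcases S₁.eq_empty_or_nonempty with he | he
      · rw [a4 he, he]
        simp
      · rw [a2 he]
        exact g1.herP S₁ hS1 he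
    rw [hcard] at hP
    rw [hΨ]
    conv_lhs => rw [e2]
    rw [sumf P₀ P₁ p₀ p₁ S₀ S₁ hS0 hn hd, c.1, hcard]
    exact numP (Nat.cast_nonneg _) (Nat.cast_nonneg _) c.2 hn0 hn1 b0 b1 hP
  · intro S hS hne
    obtain ⟨S₀, S₁, e0, e1, hS0, hS1, e2, hd, hn⟩ := parts hl h0 h1 hS
    obtain ⟨Ψ₀, Ψ₁, hΨ, a1, a2, a3, a4⟩ := psi_parts (ps := ps) (fun y hy => hl y (hS hy)) e0 e1 e2
    have c := cards S₀ S₁ hd (e2 ▸ hne)
    rw [← e2] at c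
    have b0 : ∑ a ∈ S₀, Q₀ a ≤ 5 * (S₀.card * Real.log S₀.card - Ψ₀) +
        8 * (S₀.card * Real.log (D₀.card / S₀.card)) := by
      rcases S₀.eq_empty_or_nonempty with he | he
      · rw [a3 he, he]
        simp
      · rw [a1 he]
        exact g0.herQ S₀ hS0 he
    have b1 : ∑ a ∈ S₁, Q₁ a ≤ 5 * (S₁.card * Real.log S₁.card - Ψ₁) +
        8 * (S₁.card * Real.log (D₁.card / S₁.card)) := by
      rcases S₁.eq_empty_or_nonempty with he | he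
      · rw [a4 he, he]
        simp
      · rw [a2 he]
        exact g1.herQ S₁ hS1 he
    rw [hcard] at hQ
    rw [hΨ]
    conv_lhs => rw [e2]
    rw [sumf Q₀ Q₁ q₀ q₁ S₀ S₁ hS0 hn hd, c.1, hcard]
    exact numQ (Nat.cast_nonneg _) (Nat.cast_nonneg _) c.2 hn0 hn1 b0 b1 hQ
  · intro F K κ hF hκ hK S hS
    obtain ⟨S₀, S₁, e0, e1, hS0, hS1, e2, hd, hn⟩ := parts hl h0 h1 hS
    have b0 := g0.normP F K κ hF hκ hK S₀ hS0
    have b1 := g1.normP F K κ hF hκ hK S₁ hS1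
    have b2 := nP F K κ hF hκ hK S₀ hS0 S₁ hS1
    rw [e2, sume P₀ P₁ p₀ p₁ κ S₀ S₁ hS0 hn hd]
    exact b2.trans (add_le_add (mul_le_mul_of_nonneg_left b0 (Real.exp_pos _).le)
      (mul_le_mul_of_nonneg_left b1 (Real.exp_pos _).le))
  · intro F K κ hF hκ hK S hS
    obtain ⟨S₀, S₁, e0, e1, hS0, hS1, e2, hd, hn⟩ := parts hl h0 h1 hS
    have b0 := g0.normQ F K κ hF hκ hK S₀ hS0
    have b1 := g1.normQ F K κ hF hκ hK S₁ hS1
    have b2 := nQ F K κ hF hκ hK S₀ hS0 S₁ hS1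
    rw [e2, sume Q₀ Q₁ q₀ q₁ κ S₀ S₁ hS0 hn hd]
    exact b2.trans (add_le_add (mul_le_mul_of_nonneg_left b0 (Real.exp_pos _).le)
      (mul_le_mul_of_nonneg_left b1 (Real.exp_pos _).le))

private theorem inv_le_exp {θ κ : ℝ} (h0 : 0 < θ) (h1 : θ ≤ 1) (hκ : 1 ≤ κ) :
    1 / θ ≤ Real.exp (κ * Real.log (1 / θ)) := by
  have h2 : 1 ≤ 1 / θ := by
    rw [le_div_iff₀ h0, one_mul]
    exact h1
  have h3 : 0 ≤ Real.log (1 / θ) := Real.log_nonneg h2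
  calc 1 / θ = Real.exp (Real.log (1 / θ)) := (Real.exp_log (by positivity)).symm
    _ ≤ Real.exp (κ * Real.log (1 / θ)) := by
      apply Real.exp_le_exp.2
      nlinarith

theorem good_step {q l : ℕ} (hq : q.Prime) {ps : List ℕ} {D D₀ D₁ : Finset ℕ}
    (hpos : ∀ y ∈ D, 0 < y) (hl : ∀ y ∈ D, l ≤ y.factorization q)
    (h0 : D₀ = D.filter (fun y => y.factorization q = l))
    (h1 : D₁ = D.filter (fun y => l < y.factorization q)) (hne0 : D₀.Nonempty)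
    (hne1 : D₁.Nonempty) {P₀ Q₀ P₁ Q₁ : ℕ → ℝ} (g0 : Good ps D₀ P₀ Q₀)
    (g1 : Good (q :: ps) D₁ P₁ Q₁) : ∃ P Q : ℕ → ℝ, Good (q :: ps) D P Q := by
  have hn0 : (0 : ℝ) < D₀.card := by exact_mod_cast card_pos.2 hne0
  have hn1 : (0 : ℝ) < D₁.card := by exact_mod_cast card_pos.2 hne1
  have hcard : (D.card : ℝ) = D₀.card + D₁.card := by
    obtain ⟨S₀, S₁, e0, e1, -, -, e2, e3, -⟩ := parts hl h0 h1 (Subset.refl D)
    rw [← h0] at e0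
    rw [← h1] at e1
    rw [e0, e1] at e2 e3
    rw [e2, card_union_of_disjoint e3]
    push_cast
    rfl
  have hn : (0 : ℝ) < D.card := by rw [hcard]; positivity
  obtain ⟨θ, hθ⟩ : ∃ θ : ℝ, θ = D₀.card / D.card := ⟨_, rfl⟩
  obtain ⟨η, hη⟩ : ∃ η : ℝ, η = D₁.card / D.card := ⟨_, rfl⟩
  have hθ0 : 0 < θ := by rw [hθ]; positivity
  have hη0 : 0 < η := by rw [hη]; positivity
  have hsum : θ + η = 1 := by
    rw [hθ, hη, ← add_div, ← hcard, div_self hn.ne']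
  have hη' : η = 1 - θ := by linarith
  have hlθ : Real.log (1 / θ) = Real.log D.card - Real.log D₀.card := by
    rw [hθ, one_div_div, Real.log_div hn.ne' hn0.ne']
  have hlη : Real.log (1 / η) = Real.log D.card - Real.log D₁.card := by
    rw [hη, one_div_div, Real.log_div hn.ne' hn1.ne']
  have pθ : 0 ≤ Real.log (1 / θ) := Real.log_nonneg (by rw [le_div_iff₀ hθ0]; linarith)
  have pη : 0 ≤ Real.log (1 / η) := Real.log_nonneg (by rw [le_div_iff₀ hη0]; linarith)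
  have v0 : ∀ y ∈ D₀, y.factorization q = l := fun y hy => by
    rw [h0, mem_filter] at hy; exact hy.2
  have v1 : ∀ y ∈ D₁, l < y.factorization q := fun y hy => by
    rw [h1, mem_filter] at hy; exact hy.2
  have s0 : D₀ ⊆ D := by rw [h0]; exact filter_subset _ _
  have s1 : D₁ ⊆ D := by rw [h1]; exact filter_subset _ _
  have disj : ∀ S₀ ⊆ D₀, ∀ S₁ ⊆ D₁, Disjoint S₀ S₁ := by
    intro S₀ hS0 S₁ hS1
    rw [disjoint_left]
    intro y hy0 hy1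
    have := v0 y (hS0 hy0)
    have := v1 y (hS1 hy1)
    omega
  have triP : ∀ (F : Finset ℕ → ℝ) (K κ : ℝ), NormP K F → 1 ≤ κ → K ≤ Real.exp κ →
      ∀ S₀ ⊆ D₀, ∀ S₁ ⊆ D₁, F (S₀ ∪ S₁) ≤ Real.exp (κ * Real.log (1 / θ)) * F S₀ +
        Real.exp (κ * Real.log (1 / η)) * F S₁ := by
    intro F K κ hF hκ _ S₀ hS0 S₁ hS1
    refine (hF.tri S₀ S₁ θ η hθ0 hη0 hsum (disj S₀ hS0 S₁ hS1)).trans ?_
    rw [div_eq_mul_one_div (F S₀), div_eq_mul_one_div (F S₁), mul_comm (F S₀), mul_comm (F S₁)]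
    exact add_le_add
      (mul_le_mul_of_nonneg_right (inv_le_exp hθ0 (by linarith) hκ) (normP_nonneg hF S₀))
      (mul_le_mul_of_nonneg_right (inv_le_exp hη0 (by linarith) hκ) (normP_nonneg hF S₁))
  have triS : ∀ (F : Finset ℕ → ℝ) (K κ : ℝ), NormS K F → 1 ≤ κ → K ≤ Real.exp κ →
      ∀ S₀ ⊆ D₀, ∀ S₁ ⊆ D₁, F (S₀ ∪ S₁) ≤ Real.exp (κ * Real.log (1 / θ)) * F S₀ +
        Real.exp (κ * Real.log (1 / η)) * F S₁ := by
    intro F K κ hF hκ _ S₀ hS0 S₁ hS1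
    refine (hF.tri S₀ S₁ θ η hθ0 hη0 hsum (disj S₀ hS0 S₁ hS1)).trans ?_
    rw [div_eq_mul_one_div (F S₀), div_eq_mul_one_div (F S₁), mul_comm (F S₀), mul_comm (F S₁)]
    exact add_le_add
      (mul_le_mul_of_nonneg_right (inv_le_exp hθ0 (by linarith) hκ) (normS_nonneg hF S₀))
      (mul_le_mul_of_nonneg_right (inv_le_exp hη0 (by linarith) hκ) (normS_nonneg hF S₁))
  rcases le_or_gt (1 / 2) θ with hc | hc
  · refine ⟨_, _, step_aux hl h0 h1 hne0 hne1 g0 g1 (p₀ := 0) (p₁ := 1)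
      (q₀ := Real.log (1 / θ)) (q₁ := Real.log (1 / η)) le_rfl zero_le_one pθ pη ?_ ?_ ?_ ?_ ?_
      triS⟩
    · rw [← hlθ, zero_add]
    · rw [← hlη]; linarith
    · intro y hy0 hy1
      rw [← hθ]
      have := cost_a hc (by linarith : θ < 1) hy0 hy1
      linarith
    · intro y hy0 hy1
      rw [← hθ]
      have := cost_b hη0 (by linarith : η ≤ 1 / 2) (by linarith : (0 : ℝ) ≤ 1 - y)
        (by linarith : 1 - y ≤ 1)
      rw [hη', kl_symm, sub_sub_cancel, sub_sub_cancel] at this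
      rw [hη']
      linarith
    · intro F K κ hF hκ hK S₀ hS0 S₁ hS1
      rw [mul_zero, Real.exp_zero, one_mul, mul_one]
      refine (hF.mart q l S₀ S₁ hq (fun y hy => hpos y (s0 (hS0 hy)))
        (fun y hy => hpos y (s1 (hS1 hy))) (fun y hy => v0 y (hS0 hy))
        (fun y hy => v1 y (hS1 hy))).trans ?_
      have := mul_le_mul_of_nonneg_right hK (normP_nonneg hF S₁)
      linarith
  · refine ⟨_, _, step_aux hl h0 h1 hne0 hne1 g0 g1 (p₀ := Real.log (1 / θ))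
      (p₁ := Real.log (1 / η)) (q₀ := 1) (q₁ := 0) pθ pη zero_le_one le_rfl ?_ ?_ ?_ ?_ triP ?_⟩
    · rw [← hlθ]; linarith
    · rw [← hlη, add_zero]
    · intro y hy0 hy1
      rw [← hθ]
      have := cost_b hθ0 hc.le hy0 hy1
      rw [← hη'] at this
      linarith
    · intro y hy0 hy1
      rw [← hθ]
      have := cost_a (by linarith : 1 / 2 ≤ η) (by linarith : η < 1)
        (by linarith : (0 : ℝ) ≤ 1 - y) (by linarith : 1 - y ≤ 1)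
      rw [hη', kl_symm] at this
      linarith
    · intro F K κ hF hκ hK S₀ hS0 S₁ hS1
      rw [mul_zero, Real.exp_zero, one_mul, mul_one]
      refine (hF.mart q l S₀ S₁ hq (fun y hy => hpos y (s0 (hS0 hy)))
        (fun y hy => hpos y (s1 (hS1 hy))) (fun y hy => v0 y (hS0 hy))
        (fun y hy => v1 y (hS1 hy))).trans ?_
      have := mul_le_mul_of_nonneg_right hK (normS_nonneg hF S₀)
      linarith

end Pool.Agent.Helper94.LE
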