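import Pool.Agent.Helper94.LE.LawStep
import Pool.Agent.Helper94.LE.PotStep
import Pool.Agent.Helper88.PP.Pay

set_option autoImplicit false

/-!
MP_120218_co, theorem LE: the dyadic step for products (note 2496, part 4).
-/

open Finset
open scoped Pointwise
open Pool.Agent.Helper84.SP
open Pool.Agent.Helper88.TL
open Pool.Agent.Helper88.PP
open Pool.Agent.Helper80.LL

namespace Pool.Agent.Helper94.LE

/-- a set of sums of `X` and the elements sent into a translate of `X` is small -/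
theorem stepP_sset {ι G : Type*} [AddCommGroup G] [DecidableEq G] (α : ι → G) (X : Finset G)
    (z : G) (S : Finset ι) (h : ∀ y ∈ S, z + α y ∈ X) :
    (sset α X S).card ≤ (sset (fun g : G => g) X X).card := by
  have h1 : sset α X S ⊆ (sset (fun g : G => g) X X).image (fun t => t - z) := by
    intro t ht
    unfold sset at ht
    obtain ⟨⟨x, y⟩, hxy, rfl⟩ := mem_image.1 ht
    rw [mem_product] at hxy
    refine mem_image.2 ⟨x + (z + α y), mem_sset (α := fun g : G => g) hxy.1 (h y hxy.2), ?_⟩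
    change x + (z + α y) - z = x + α y
    abel
  exact (card_le_card h1).trans card_image_le

/-- the real-number part, in one variable -/
theorem stepP_num0 {L x s s' Φ δ a b : ℝ} (h6 : a ≤ 7) (h7 : b ≤ 62)
    (h1 : L - 1 / 10 ^ 11 * x ≤ s) (h2 : s ≤ a + 3 * (1 / 10 ^ 11 * x) + s')
    (h3 : Φ ≤ 8000000 * (4 * δ)) (h4 : δ ≤ b + 20 * (1 / 10 ^ 11 * x))
    (h5 : x ≤ 5 * Φ + 8 * (L - s')) :
    1 / 10 ^ 11 * x ≤ 1 := by
  norm_num at h1 h2 h4 ⊢
  linarith

/-- the real-number part -/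
theorem stepP_num {L σ c s s' Φ δ : ℝ} (hc : c = 1 / 10 ^ 11)
    (h1 : (1 - c * σ) * L ≤ s) (h2 : s ≤ Real.log 128 + 3 * (c * σ * L) + s')
    (h3 : Φ ≤ 8000000 * (4 * δ)) (h4 : δ ≤ Real.log (2 ^ 62) + 20 * (c * σ * L))
    (h5 : σ * L ≤ 5 * Φ + 8 * (L - s')) :
    c * σ * L ≤ 1 := by
  have h6 : Real.log 128 ≤ 7 := by
    have : Real.log 128 = 7 * Real.log 2 := by
      rw [show (128 : ℝ) = 2 ^ 7 by norm_num, Real.log_pow]
      norm_num
    have := Real.log_two_lt_d9
    linarith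
  have h7 : Real.log (2 ^ 62) ≤ 62 := by
    have : Real.log ((2 : ℝ) ^ 62) = 62 * Real.log 2 := by
      rw [Real.log_pow]
      norm_num
    have := Real.log_two_lt_d9
    linarith
  have h9 : c * σ * L = c * (σ * L) := by ring
  rw [h9] at h2 h4 ⊢
  have h10 : (1 - c * σ) * L = L - c * (σ * L) := by ring
  rw [h10] at h1
  subst hc
  exact stepP_num0 h6 h7 h1 h2 h3 h4 h5

theorem stepP : ∃ c : ℝ, 0 < c ∧ c ≤ 1 ∧ ∀ (σ : ℝ) (j : ℕ), 0 < σ → σ ≤ 1 → 1 ≤ j →
    ∃ C : ℝ, 1 ≤ C ∧ ∀ (ps : List ℕ) (D : Finset ℕ) (P Q : ℕ → ℝ), (∀ q ∈ ps, q.Prime) →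
      (∀ y ∈ D, ∀ y' ∈ D, (∀ q ∈ ps, y.factorization q = y'.factorization q) → y = y') →
      D.Nonempty → (∀ y ∈ D, 0 < y) → Good ps D P Q → ∀ S ⊆ D, S.Nonempty →
      (∀ a ∈ S, σ * Real.log D.card ≤ Q a) → (D.card : ℝ) ^ (1 - c * σ) ≤ S.card →
      (En be (2 * j) S : ℝ) ≤
        C * (D.card : ℝ) ^ (-(c * σ)) * (S.card : ℝ) ^ (2 * j) * En be j S := by
  refine ⟨1 / 10 ^ 11, by norm_num, by norm_num, fun σ j hσ _ hj => ⟨Real.exp 1, ?_, ?_⟩⟩
  · have := Real.add_one_le_exp (1 : ℝ)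
    linarith
  intro ps D P Q hps hsep hD hpos hg S hSD hS hQ hcard
  set c : ℝ := 1 / 10 ^ 11 with hc
  have hDp : (0 : ℝ) < D.card := by exact_mod_cast card_pos.2 hD
  have hSp : (0 : ℝ) < S.card := by exact_mod_cast card_pos.2 hS
  have hD1 : (1 : ℝ) ≤ D.card := by exact_mod_cast card_pos.2 hD
  set L : ℝ := Real.log D.card with hLdef
  have hL : 0 ≤ L := Real.log_nonneg hD1
  have hrpow : ∀ t : ℝ, (D.card : ℝ) ^ t = Real.exp (t * L) := by
    intro t
    rw [Real.rpow_def_of_pos hDp, mul_comm]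
  have hK0 : 0 ≤ c * σ * L := by
    rw [hc]
    positivity
  set K : ℝ := Real.exp (c * σ * L) with hK
  have hK1 : 1 ≤ K := Real.one_le_exp hK0
  have hneg : (D.card : ℝ) ^ (-(c * σ)) = K⁻¹ := by
    rw [hrpow, hK, ← Real.exp_neg]
    congr 1
    ring
  have hEn0 : (0 : ℝ) ≤ En be j S := Nat.cast_nonneg _
  rw [hneg]
  by_contra hcon
  rw [not_le] at hcon
  -- the trivial case
  have hmono : (En be (2 * j) S : ℝ) ≤ En be j S * (S.card : ℝ) ^ (2 * j) := by
    have h := En_mono (α := be) (j := j) (l := 2 * j) (by omega) S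
    have h2 : 2 * (2 * j - j) = 2 * j := by omega
    rwa [h2] at h
  have hE : (En be j S : ℝ) * (S.card : ℝ) ^ (2 * j) ≤ K * En be (2 * j) S := by
    have h1 : Real.exp 1 * (K⁻¹ * (S.card : ℝ) ^ (2 * j) * En be j S) ≤ En be (2 * j) S := by
      calc Real.exp 1 * (K⁻¹ * (S.card : ℝ) ^ (2 * j) * En be j S)
          = Real.exp 1 * K⁻¹ * (S.card : ℝ) ^ (2 * j) * En be j S := by ring
        _ ≤ _ := hcon.le
    have h2 : K⁻¹ * (S.card : ℝ) ^ (2 * j) * En be j S ≤ En be (2 * j) S := by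
      refine le_trans ?_ h1
      have h3 : 0 ≤ K⁻¹ * (S.card : ℝ) ^ (2 * j) * En be j S := by positivity
      have h4 : (1 : ℝ) ≤ Real.exp 1 := Real.one_le_exp (by norm_num)
      nlinarith
    have hKp : 0 < K := Real.exp_pos _
    calc (En be j S : ℝ) * (S.card : ℝ) ^ (2 * j)
        = K * (K⁻¹ * (S.card : ℝ) ^ (2 * j) * En be j S) := by
          field_simp
      _ ≤ _ := mul_le_mul_of_nonneg_left h2 hKp.le
  obtain ⟨X, z, hX, hSS, hXc, hXX⟩ := law_step be hj hS hK1 hE
  set S' : Finset ℕ := S.filter (fun y => z + be y ∈ X) with hS'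
  have hKp : 0 < K := Real.exp_pos _
  have hS'p : (0 : ℝ) < S'.card := by
    by_contra h
    have h0 : (S'.card : ℝ) = 0 := le_antisymm (not_lt.1 h) (Nat.cast_nonneg _)
    rw [h0, mul_zero] at hSS
    linarith
  have hS'n : S'.Nonempty := by
    rw [← card_pos]
    exact_mod_cast hS'p
  have hS'S : S' ⊆ S := filter_subset _ _
  have hS'D : S' ⊆ D := hS'S.trans hSD
  have hXp : (0 : ℝ) < X.card := by exact_mod_cast card_pos.2 hX
  -- logarithms
  have hlogK : Real.log K = c * σ * L := Real.log_exp _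
  set s : ℝ := Real.log S.card with hs
  set s' : ℝ := Real.log S'.card with hs'
  have h1 : (1 - c * σ) * L ≤ s := by
    have h := Real.log_le_log (Real.rpow_pos_of_pos hDp _) hcard
    rwa [hrpow, Real.log_exp] at h
  have h2 : s ≤ Real.log 128 + 3 * (c * σ * L) + s' := by
    have h := Real.log_le_log hSp hSS
    rw [Real.log_mul (by positivity) (by positivity), Real.log_mul (by norm_num) (by positivity),
      Real.log_pow, hlogK] at h
    push_cast at h
    exact h
  have hsX : (sset (fun g : ℕ →₀ ℤ => g) X X).card = (X + X).card := by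
    congr 1
  have hXXp : (0 : ℝ) < (sset (fun g : ℕ →₀ ℤ => g) X X).card := by
    obtain ⟨x, hx⟩ := hX
    have : 0 < (sset (fun g : ℕ →₀ ℤ => g) X X).card :=
      card_pos.2 ⟨x + x, mem_sset (α := fun g : ℕ →₀ ℤ => g) hx hx⟩
    exact_mod_cast this
  set δ : ℝ := Real.log (sset (fun g : ℕ →₀ ℤ => g) X X).card - Real.log X.card with hδ
  have h4 : δ ≤ Real.log (2 ^ 62) + 20 * (c * σ * L) := by
    have h : Real.log (sset (fun g : ℕ →₀ ℤ => g) X X).card ≤
        Real.log (2 ^ 62 * K ^ 20 * X.card) := by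
      refine Real.log_le_log hXXp ?_
      rw [hsX]
      exact_mod_cast hXX
    rw [Real.log_mul (by positivity) (by positivity), Real.log_mul (by positivity) (by positivity),
      Real.log_pow K, hlogK] at h
    push_cast at h
    rw [hδ]
    linarith
  have hI : I be X S' ≤ δ := by
    have h := I_le (α := be) hX hS'n
    have h5 := stepP_sset be X z S' (fun y hy => (mem_filter.1 hy).2)
    have h6 : (0 : ℝ) < (sset be X S').card := by
      obtain ⟨x, hx⟩ := hX
      obtain ⟨y, hy⟩ := hS'n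
      have : 0 < (sset be X S').card := card_pos.2 ⟨x + be y, mem_sset (α := be) hx hy⟩
      exact_mod_cast this
    have h7 : Real.log (sset be X S').card ≤
        Real.log (sset (fun g : ℕ →₀ ℤ => g) X X).card :=
      Real.log_le_log h6 (by exact_mod_cast h5)
    rw [hδ]
    linarith
  have hdd : dd X X ≤ 2 * δ := by
    have h := I_le (α := fun g : ℕ →₀ ℤ => g) hX hX
    unfold dd I2
    rw [hδ]
    linarith
  have hpay := pay hps hS'n (fun y hy => hpos y (hS'D hy))
    (fun y hy y' hy' h => hsep y (hS'D hy) y' (hS'D hy') h) hX hX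
  have h3 : s' - Psi ps S' / S'.card ≤ 8000000 * (4 * δ) := by
    refine hpay.trans ?_
    linarith
  have h5 : σ * L ≤ 5 * (s' - Psi ps S' / S'.card) + 8 * (L - s') := by
    have hh := hg.herQ S' hS'D hS'n
    have hlow : (S'.card : ℝ) * (σ * L) ≤ ∑ a ∈ S', Q a := by
      have := card_nsmul_le_sum S' Q (σ * L) (fun a ha => hQ a (hS'S ha))
      rwa [nsmul_eq_mul] at this
    have hlog : Real.log (D.card / S'.card) = L - s' := Real.log_div hDp.ne' hS'p.ne'
    rw [hlog] at hh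
    have h6 : (S'.card : ℝ) * (σ * L) ≤
        S'.card * (5 * (s' - Psi ps S' / S'.card) + 8 * (L - s')) := by
      refine (hlow.trans hh).trans (le_of_eq ?_)
      have h7 : (S'.card : ℝ) * (Psi ps S' / S'.card) = Psi ps S' :=
        mul_div_cancel₀ _ hS'p.ne'
      have h8 : (S'.card : ℝ) * (5 * (s' - Psi ps S' / S'.card) + 8 * (L - s')) =
          5 * (S'.card * s' - S'.card * (Psi ps S' / S'.card)) + 8 * (S'.card * (L - s')) := by
        ring
      rw [h8, h7]
    exact le_of_mul_le_mul_left h6 hS'p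
  have hfin := stepP_num (L := L) (σ := σ) (c := c) hc h1 h2 h3 h4 h5
  -- conclusion
  have hK2 : K ≤ Real.exp 1 := Real.exp_le_exp.2 hfin
  have h6 : (1 : ℝ) ≤ Real.exp 1 * K⁻¹ := by
    rw [← div_eq_mul_inv, le_div_iff₀ hKp, one_mul]
    exact hK2
  have h7 : (En be (2 * j) S : ℝ) ≤
      Real.exp 1 * K⁻¹ * (S.card : ℝ) ^ (2 * j) * En be j S := by
    refine hmono.trans ?_
    have h8 : 0 ≤ (S.card : ℝ) ^ (2 * j) * En be j S := by positivity
    nlinarith
  exact absurd h7 (not_le.2 hcon)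

end Pool.Agent.Helper94.LE
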