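import Pool.Agent.Helper94.LE.StepS
import Pool.Agent.Helper94.LE.StepP
import Pool.Agent.Helper94.LE.Iter
import Pool.Agent.Helper94.LE.Pot
import Pool.Agent.Helper94.LE.Norm

set_option autoImplicit false

/-!
MP_120218_co, theorem LE: the functions `p`, `q` for sets of positive integers (note 2496, part 5).
-/

open Finset
open Pool.Agent.Helper84.SP
open Pool.Agent.Helper80.LL

namespace Pool.Agent.Helper94.LE

namespace PosAux

theorem be_inj {x y : ℕ} (hx : x ≠ 0) (hy : y ≠ 0) (h : be x = be y) : x = y := by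
  apply Nat.eq_of_factorization_eq hx hy
  intro q
  have h1 := DFunLike.congr_fun h q
  simp only [be, Finsupp.mapRange_apply] at h1
  exact_mod_cast h1

/-- the primes up to the maximum -/
noncomputable def pr (D : Finset ℕ) : List ℕ :=
  ((Finset.range (D.sup id + 1)).filter Nat.Prime).toList

theorem pr_prime (D : Finset ℕ) : ∀ q ∈ pr D, q.Prime := by
  intro q hq
  unfold pr at hq
  rw [Finset.mem_toList, Finset.mem_filter] at hq
  exact hq.2

theorem pr_nodup (D : Finset ℕ) : (pr D).Nodup := Finset.nodup_toList _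

theorem pr_sep {D : Finset ℕ} (hD : ∀ y ∈ D, 0 < y) : ∀ y ∈ D, ∀ y' ∈ D,
    (∀ q ∈ pr D, y.factorization q = y'.factorization q) → y = y' := by
  intro y hy y' hy' h
  apply Nat.eq_of_factorization_eq (hD y hy).ne' (hD y' hy').ne'
  intro q
  by_cases hq : q.Prime
  · by_cases hq2 : q ∈ pr D
    · exact h q hq2
    · have hgt : D.sup id < q := by
        by_contra hc
        apply hq2
        unfold pr
        rw [Finset.mem_toList, Finset.mem_filter, Finset.mem_range]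
        exact ⟨by omega, hq⟩
      have e : ∀ z ∈ D, z.factorization q = 0 := by
        intro z hz
        have hz2 : id z ≤ D.sup id := Finset.le_sup (f := id) hz
        rw [id] at hz2
        exact Nat.factorization_eq_zero_of_lt (by omega)
      rw [e y hy, e y' hy']
  · rw [Nat.factorization_eq_zero_of_not_prime _ hq, Nat.factorization_eq_zero_of_not_prime _ hq]

theorem nonempty_of_rpow {N e : ℝ} (hN : 1 ≤ N) {S : Finset ℕ} (h : N ^ e ≤ S.card) :
    S.Nonempty := by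
  rw [← Finset.card_pos]
  have h1 : 0 < N ^ e := Real.rpow_pos_of_pos (by linarith) e
  have h2 : (0 : ℝ) < S.card := lt_of_lt_of_le h1 h
  exact_mod_cast h2

theorem partS : ∃ c : ℝ, 0 < c ∧ c ≤ 1 / 2 ∧ ∀ (σ : ℝ) (h : ℕ), ∃ K : ℝ, 1 ≤ K ∧
    (0 < σ → σ ≤ 1 → 1 ≤ h → ∀ (ps : List ℕ) (D : Finset ℕ) (P Q : ℕ → ℝ),
      (∀ q ∈ ps, q.Prime) → ps.Nodup → D.Nonempty → (∀ y ∈ D, 0 < y) → Good ps D P Q →
      ∀ S ⊆ D, (∀ a ∈ S, σ * Real.log D.card ≤ P a) →
        (En al h S : ℝ) ≤ K * (D.card : ℝ) ^ (2 * (h : ℝ) - 1 - c * σ * Real.log h)) := by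
  obtain ⟨c, hc, hc1, H⟩ := stepS
  refine ⟨c / 2, by positivity, by linarith, fun σ h => ?_⟩
  by_cases hcond : 0 < σ ∧ σ ≤ 1 ∧ 1 ≤ h
  · obtain ⟨h0, h1, h2⟩ := hcond
    have H1 : ∀ j : ℕ, ∃ C : ℝ, 1 ≤ C ∧ (1 ≤ j → ∀ (ps : List ℕ) (D : Finset ℕ) (P Q : ℕ → ℝ),
        (∀ q ∈ ps, q.Prime) → ps.Nodup → D.Nonempty → (∀ y ∈ D, 0 < y) → Good ps D P Q →
        ∀ S ⊆ D, S.Nonempty → (∀ a ∈ S, σ * Real.log D.card ≤ P a) →
        (D.card : ℝ) ^ (1 - c * σ) ≤ S.card →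
        (En al (2 * j) S : ℝ) ≤
          C * (D.card : ℝ) ^ (-(c * σ)) * (S.card : ℝ) ^ (2 * j) * En al j S) := by
      intro j
      by_cases hj : 1 ≤ j
      · obtain ⟨C, hC, hC2⟩ := H σ j h0 h1 hj
        exact ⟨C, hC, fun _ => hC2⟩
      · exact ⟨1, le_refl _, fun h => absurd h hj⟩
    choose C hC hC2 using H1
    obtain ⟨C', hC', hI⟩ := iter (ι := ℕ) (G := ℤ) hc hc1 h0 h1 hC h2
    refine ⟨C', hC', fun _ _ _ ps D P Q hps hnd hD hpos g S hS hP => ?_⟩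
    have hN : (1 : ℝ) ≤ D.card := by exact_mod_cast hD.card_pos
    apply hI al D.card S hN
    · exact_mod_cast Finset.card_le_card hS
    · intro x _ y _ hxy
      unfold al at hxy
      exact_mod_cast hxy
    · intro hbig j hj
      exact hC2 j hj ps D P Q hps hnd hD hpos g S hS (nonempty_of_rpow hN hbig) hP hbig
  · exact ⟨1, le_refl _, fun a b c => absurd ⟨a, b, c⟩ hcond⟩

theorem partP : ∃ c : ℝ, 0 < c ∧ c ≤ 1 / 2 ∧ ∀ (σ : ℝ) (h : ℕ), ∃ K : ℝ, 1 ≤ K ∧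
    (0 < σ → σ ≤ 1 → 1 ≤ h → ∀ (ps : List ℕ) (D : Finset ℕ) (P Q : ℕ → ℝ),
      (∀ q ∈ ps, q.Prime) →
      (∀ y ∈ D, ∀ y' ∈ D, (∀ q ∈ ps, y.factorization q = y'.factorization q) → y = y') →
      D.Nonempty → (∀ y ∈ D, 0 < y) → Good ps D P Q →
      ∀ S ⊆ D, (∀ a ∈ S, σ * Real.log D.card ≤ Q a) →
        (En be h S : ℝ) ≤ K * (D.card : ℝ) ^ (2 * (h : ℝ) - 1 - c * σ * Real.log h)) := by
  obtain ⟨c, hc, hc1, H⟩ := stepP
  refine ⟨c / 2, by positivity, by linarith, fun σ h => ?_⟩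
  by_cases hcond : 0 < σ ∧ σ ≤ 1 ∧ 1 ≤ h
  · obtain ⟨h0, h1, h2⟩ := hcond
    have H1 : ∀ j : ℕ, ∃ C : ℝ, 1 ≤ C ∧ (1 ≤ j → ∀ (ps : List ℕ) (D : Finset ℕ) (P Q : ℕ → ℝ),
        (∀ q ∈ ps, q.Prime) →
        (∀ y ∈ D, ∀ y' ∈ D, (∀ q ∈ ps, y.factorization q = y'.factorization q) → y = y') →
        D.Nonempty → (∀ y ∈ D, 0 < y) → Good ps D P Q →
        ∀ S ⊆ D, S.Nonempty → (∀ a ∈ S, σ * Real.log D.card ≤ Q a) →
        (D.card : ℝ) ^ (1 - c * σ) ≤ S.card →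
        (En be (2 * j) S : ℝ) ≤
          C * (D.card : ℝ) ^ (-(c * σ)) * (S.card : ℝ) ^ (2 * j) * En be j S) := by
      intro j
      by_cases hj : 1 ≤ j
      · obtain ⟨C, hC, hC2⟩ := H σ j h0 h1 hj
        exact ⟨C, hC, fun _ => hC2⟩
      · exact ⟨1, le_refl _, fun h => absurd h hj⟩
    choose C hC hC2 using H1
    obtain ⟨C', hC', hI⟩ := iter (ι := ℕ) (G := ℕ →₀ ℤ) hc hc1 h0 h1 hC h2
    refine ⟨C', hC', fun _ _ _ ps D P Q hps hsep hD hpos g S hS hP => ?_⟩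
    have hN : (1 : ℝ) ≤ D.card := by exact_mod_cast hD.card_pos
    apply hI be D.card S hN
    · exact_mod_cast Finset.card_le_card hS
    · intro x hx y hy hxy
      exact be_inj (hpos x (hS hx)).ne' (hpos y (hS hy)).ne' hxy
    · intro hbig j hj
      exact hC2 j hj ps D P Q hps hsep hD hpos g S hS (nonempty_of_rpow hN hbig) hP hbig
  · exact ⟨1, le_refl _, fun a b c => absurd ⟨a, b, c⟩ hcond⟩

/-- the exponent: `14 k^2 ≤ k^6` -/
theorem kap {k : ℕ} (hk : 2 ≤ k) : 1 ≤ Real.log (14 * (k : ℝ) ^ 2) ∧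
    Real.log (14 * (k : ℝ) ^ 2) ≤ 6 * Real.log k ∧
    14 * (k : ℝ) ^ 2 ≤ Real.exp (Real.log (14 * (k : ℝ) ^ 2)) := by
  have hk2 : (2 : ℝ) ≤ k := by exact_mod_cast hk
  have h4 : (4 : ℝ) ≤ (k : ℝ) ^ 2 := by nlinarith
  have hpos : (0 : ℝ) < 14 * (k : ℝ) ^ 2 := by positivity
  refine ⟨?_, ?_, ?_⟩
  · rw [Real.le_log_iff_exp_le hpos]
    have := Real.exp_one_lt_d9
    linarith
  · have e : 6 * Real.log k = Real.log ((k : ℝ) ^ 6) := by
      rw [Real.log_pow]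
      push_cast
      ring
    rw [e]
    apply Real.log_le_log hpos
    have h16 : (16 : ℝ) ≤ (k : ℝ) ^ 4 := by nlinarith
    have e2 : (k : ℝ) ^ 6 = (k : ℝ) ^ 4 * (k : ℝ) ^ 2 := by ring
    rw [e2]
    nlinarith
  · rw [Real.exp_log hpos]

/-- from the exponential form to the power form -/
theorem NF_le {F : Finset ℕ → ℝ} {D : Finset ℕ} {P : ℕ → ℝ} {κ lg σ : ℝ} (hκ : 1 ≤ κ)
    (hlg : κ ≤ lg) (hσ : 0 < σ) (hD : 2 ≤ D.card) {S : Finset ℕ}
    (hF : F S ≤ ∑ a ∈ S, Real.exp (κ * P a)) (hP : ∀ a ∈ S, P a / Real.log D.card ≤ σ) :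
    F S ≤ S.card * (D.card : ℝ) ^ (σ * lg) := by
  have hD2 : (2 : ℝ) ≤ D.card := by exact_mod_cast hD
  have hL : 0 < Real.log D.card := Real.log_pos (by linarith)
  have h1 : ∀ a ∈ S, Real.exp (κ * P a) ≤ (D.card : ℝ) ^ (σ * lg) := by
    intro a ha
    have h2 := hP a ha
    rw [div_le_iff₀ hL] at h2
    have e : (D.card : ℝ) ^ (σ * lg) = Real.exp (σ * lg * Real.log D.card) := by
      rw [Real.rpow_def_of_pos (by linarith)]
      congr 1
      ring
    rw [e]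
    apply Real.exp_le_exp.mpr
    calc κ * P a ≤ κ * (σ * Real.log D.card) := mul_le_mul_of_nonneg_left h2 (by linarith)
      _ ≤ lg * (σ * Real.log D.card) := mul_le_mul_of_nonneg_right hlg (by positivity)
      _ = σ * lg * Real.log D.card := by ring
  refine hF.trans ?_
  have h3 := Finset.sum_le_card_nsmul S (fun a => Real.exp (κ * P a)) _ h1
  rw [nsmul_eq_mul] at h3
  exact h3

/-- subsets of a set with one element -/
theorem NF_one {F : Finset ℕ → ℝ} (he : F ∅ ≤ 0) (hs : ∀ a, F {a} ≤ 1) {D : Finset ℕ}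
    (hD : D.card = 1) {S : Finset ℕ} (hS : S ⊆ D) : F S ≤ S.card := by
  obtain ⟨a, rfl⟩ := Finset.card_eq_one.mp hD
  rcases Finset.subset_singleton_iff.mp hS with h | h
  · subst h
    simpa using he
  · subst h
    simpa using hs a

/-- comparison of the exponents -/
theorem exp_mono {N c c' σ K K' : ℝ} (hN : 1 ≤ N) {h : ℕ} (hh : 1 ≤ h) (hσ : 0 < σ)
    (hc : c ≤ c') (hK0 : 0 ≤ K) (hK : K ≤ K') {X : ℝ}
    (hX : X ≤ K * N ^ (2 * (h : ℝ) - 1 - c' * σ * Real.log h)) :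
    X ≤ K' * N ^ (2 * (h : ℝ) - 1 - c * σ * Real.log h) := by
  refine hX.trans (mul_le_mul hK ?_ (Real.rpow_nonneg (by linarith) _) (by linarith))
  apply Real.rpow_le_rpow_of_exponent_le hN
  have h1 : 0 ≤ Real.log h := Real.log_nonneg (by exact_mod_cast hh)
  have h2 : c * σ * Real.log h ≤ c' * σ * Real.log h := by
    apply mul_le_mul_of_nonneg_right _ h1
    exact mul_le_mul_of_nonneg_right hc hσ.le
  linarith

end PosAux

open PosAux

/-- the two functions, sets of positive integers -/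
theorem posPQ : ∃ c : ℝ, 0 < c ∧ c ≤ 1 / 4 ∧ ∃ K : ℝ → ℕ → ℝ, (∀ σ h, 1 ≤ K σ h) ∧
    ∀ D : Finset ℕ, D.Nonempty → (∀ y ∈ D, 0 < y) → ∃ p q : ℕ → ℝ,
      (∀ a ∈ D, 0 ≤ p a ∧ 0 ≤ q a ∧ 1 ≤ p a + q a) ∧ ∀ S ⊆ D, ∀ σ : ℝ, 0 < σ → σ ≤ 1 →
        ((∀ a ∈ S, p a ≤ σ) → ∀ k : ℕ, 2 ≤ k →
          NF be k S ≤ S.card * (D.card : ℝ) ^ (6 * σ * Real.log k)) ∧
        ((∀ a ∈ S, q a ≤ σ) → ∀ k : ℕ, 2 ≤ k →
          NF al k S ≤ S.card * (D.card : ℝ) ^ (6 * σ * Real.log k)) ∧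
        ((∀ a ∈ S, σ ≤ p a) → ∀ h : ℕ, 1 ≤ h →
          (En al h S : ℝ) ≤ K σ h * (D.card : ℝ) ^ (2 * (h : ℝ) - 1 - c * σ * Real.log h)) ∧
        ((∀ a ∈ S, σ ≤ q a) → ∀ h : ℕ, 1 ≤ h →
          (En be h S : ℝ) ≤ K σ h * (D.card : ℝ) ^ (2 * (h : ℝ) - 1 - c * σ * Real.log h)) := by
  obtain ⟨cS, hcS, hcS1, HS⟩ := partS
  obtain ⟨cP, hcP, hcP1, HP⟩ := partP
  choose KS hKS HS2 using HS
  choose KP hKP HP2 using HP
  refine ⟨min cS cP / 2, by positivity, ?_, fun σ h => max (KS σ h) (KP σ h),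
    fun σ h => (hKS σ h).trans (le_max_left _ _), ?_⟩
  · have := min_le_left cS cP
    linarith
  intro D hD hpos
  have hcs : min cS cP / 2 ≤ cS := by
    have := min_le_left cS cP
    linarith
  have hcp : min cS cP / 2 ≤ cP := by
    have := min_le_right cS cP
    linarith
  obtain ⟨P, Q, g⟩ := pot (pr D) (pr_prime D) D hD hpos (pr_sep hpos)
  have hN : (1 : ℝ) ≤ D.card := by exact_mod_cast hD.card_pos
  rcases Nat.lt_or_ge D.card 2 with h1 | h2
  · -- one element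
    have hc1 : D.card = 1 := by
      have := hD.card_pos
      omega
    have hlog : Real.log D.card = 0 := by
      rw [hc1, Nat.cast_one, Real.log_one]
    refine ⟨fun _ => 1, fun _ => 1, fun a _ => ⟨zero_le_one, zero_le_one, by norm_num⟩, ?_⟩
    intro S hS σ hσ hσ1
    refine ⟨fun _ k hk => ?_, fun _ k hk => ?_, fun _ h hh => ?_, fun _ h hh => ?_⟩
    · rw [hc1, Nat.cast_one, Real.one_rpow, mul_one]
      have hn := normP_be (k := k) (by omega)
      exact NF_one hn.empty hn.single hc1 hS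
    · rw [hc1, Nat.cast_one, Real.one_rpow, mul_one]
      have hn := normS_al (k := k) (by omega)
      exact NF_one hn.empty hn.single hc1 hS
    · refine exp_mono hN hh hσ hcs (by linarith [hKS σ h]) (le_max_left _ _)
        (HS2 σ h hσ hσ1 hh (pr D) D P Q (pr_prime D) (pr_nodup D) hD hpos g S hS
          (fun a ha => ?_))
      rw [hlog, mul_zero]
      exact (g.nonneg a (hS ha)).1
    · refine exp_mono hN hh hσ hcp (by linarith [hKP σ h]) (le_max_right _ _)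
        (HP2 σ h hσ hσ1 hh (pr D) D P Q (pr_prime D) (pr_sep hpos) hD hpos g S hS
          (fun a ha => ?_))
      rw [hlog, mul_zero]
      exact (g.nonneg a (hS ha)).2
  · have hD2 : (2 : ℝ) ≤ D.card := by exact_mod_cast h2
    have hL : 0 < Real.log D.card := Real.log_pos (by linarith)
    refine ⟨fun a => P a / Real.log D.card, fun a => Q a / Real.log D.card, fun a ha => ?_, ?_⟩
    · obtain ⟨a1, a2⟩ := g.nonneg a ha
      refine ⟨div_nonneg a1 hL.le, div_nonneg a2 hL.le, ?_⟩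
      rw [← add_div, le_div_iff₀ hL, one_mul]
      exact g.sum a ha
    intro S hS σ hσ hσ1
    refine ⟨fun hp k hk => ?_, fun hq k hk => ?_, fun hp h hh => ?_, fun hq h hh => ?_⟩
    · obtain ⟨k1, k2, k3⟩ := kap hk
      have hn := normP_be (k := k) (by omega)
      have := NF_le k1 k2 hσ h2 (g.normP (NF be k) _ _ hn k1 k3 S hS) hp
      rw [show 6 * σ * Real.log k = σ * (6 * Real.log k) by ring]
      exact this
    · obtain ⟨k1, k2, k3⟩ := kap hk
      have hn := normS_al (k := k) (by omega)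
      have := NF_le k1 k2 hσ h2 (g.normQ (NF al k) _ _ hn k1 k3 S hS) hq
      rw [show 6 * σ * Real.log k = σ * (6 * Real.log k) by ring]
      exact this
    · refine exp_mono hN hh hσ hcs (by linarith [hKS σ h]) (le_max_left _ _)
        (HS2 σ h hσ hσ1 hh (pr D) D P Q (pr_prime D) (pr_nodup D) hD hpos g S hS
          (fun a ha => ?_))
      have h3 := hp a ha
      rwa [le_div_iff₀ hL] at h3
    · refine exp_mono hN hh hσ hcp (by linarith [hKP σ h]) (le_max_right _ _)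
        (HP2 σ h hσ hσ1 hh (pr D) D P Q (pr_prime D) (pr_sep hpos) hD hpos g S hS
          (fun a ha => ?_))
      have h3 := hq a ha
      rwa [le_div_iff₀ hL] at h3

end Pool.Agent.Helper94.LE
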