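import Pool.Agent.Helper94.LE.LawStep
import Pool.Agent.Helper94.LE.PotStep
import Pool.Agent.Helper80.LL.SumMain
import Pool.Agent.Helper80.LL.Key

set_option autoImplicit false

/-!
MP_120218_co, theorem LE: the dyadic step for sums (note 2496, part 4).
-/

open Finset
open scoped Pointwise
open Pool.Agent.Helper84.SP
open Pool.Agent.Helper88.TL
open Pool.Agent.Helper80.LL

namespace Pool.Agent.Helper94.LE

/-- a set of sums of `X` and the elements sent into a translate of `X` is small -/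
private theorem stepS_sset {ι G : Type*} [AddCommGroup G] [DecidableEq G] (α : ι → G)
    (X : Finset G) (z : G) (S : Finset ι) (h : ∀ y ∈ S, z + α y ∈ X) :
    (sset α X S).card ≤ (sset (fun g : G => g) X X).card := by
  have h1 : sset α X S ⊆ (sset (fun g : G => g) X X).image (fun t => t - z) := by
    intro t ht
    unfold sset at ht
    obtain ⟨⟨x, y⟩, hxy, rfl⟩ := mem_image.1 ht
    rw [mem_product] at hxy
    refine mem_image.2 ⟨x + (z + α y), mem_sset (α := fun g : G => g) hxy.1 (h y hxy.2), ?_⟩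
    change x + (z + α y) - z = x + α y
    abel
  exact (card_le_card h1).trans card_image_le

/-- the real-number part, linearised -/
private theorem stepS_lin {L u t s s' x xx Φ G g a b lx lu l6 : ℝ} (ha : a ≤ 7) (hb : b ≤ 62)
    (hg : G ≤ g) (hg0 : 0 ≤ g) (ht : 100000000000 * t = u)
    (h1 : L - t ≤ s) (h2 : s ≤ a + 3 * t + s')
    (h3 : lx ≤ l6 + lu) (h6 : l6 ≤ 1 + t) (hlu : 100 * lu ≤ u)
    (h4 : xx ≤ b + 20 * t + x)
    (h5 : Φ ≤ 8000000 * (4 * (xx - x)) + 2 * lx + G)
    (h7 : u ≤ 5 * Φ + 8 * (L - s')) (h8 : 100000000000 + 10 * g ≤ u) : False := by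
  linarith

/-- the real-number part: what `law_step`, `mainLL` and `herP` give is impossible for large `N` -/
theorem stepS_num : ∃ c : ℝ, 0 < c ∧ c ≤ 1 ∧ ∀ (σ : ℝ) (j : ℕ), 0 < σ → σ ≤ 1 → 1 ≤ j →
    ∃ lam : ℝ, 0 < lam ∧ lam ≤ 1 ∧ ∀ G : ℝ, ∃ L₀ : ℝ, ∀ L s s' x xx Φ : ℝ, L₀ ≤ L →
      (1 - c * σ) * L ≤ s → s ≤ Real.log 128 + 3 * (c * σ * L) + s' →
      0 ≤ x → x ≤ Real.log (2 ^ 22) + 6 * (c * σ * L) + j * L →
      xx ≤ Real.log (2 ^ 62) + 20 * (c * σ * L) + x →
      Φ ≤ W * (4 * (xx - x)) + 2 * lam * x + G →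
      σ * L ≤ 5 * Φ + 8 * (L - s') → False := by
  refine ⟨1 / 10 ^ 11, by norm_num, by norm_num, fun σ j hσ hσ1 hj =>
    ⟨σ / (100 * (j + 1)), by positivity, ?_, fun G => ⟨(10 ^ 11 + 10 * |G|) / σ, ?_⟩⟩⟩
  · rw [div_le_one (by positivity)]
    have : (0 : ℝ) ≤ j := Nat.cast_nonneg j
    linarith
  intro L s s' x xx Φ hL h1 h2 hx0 hx h4 h5 h7
  have hlog2 := Real.log_two_lt_d9
  have ha : Real.log 128 ≤ 7 := by
    have : Real.log 128 = 7 * Real.log 2 := by
      rw [show (128 : ℝ) = 2 ^ 7 by norm_num, Real.log_pow]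
      norm_num
    linarith
  have hb : Real.log (2 ^ 62) ≤ 62 := by
    have : Real.log ((2 : ℝ) ^ 62) = 62 * Real.log 2 := by
      rw [Real.log_pow]
      norm_num
    linarith
  have he : Real.log (2 ^ 22) ≤ 22 := by
    have : Real.log ((2 : ℝ) ^ 22) = 22 * Real.log 2 := by
      rw [Real.log_pow]
      norm_num
    linarith
  have hu : 100000000000 + 10 * |G| ≤ σ * L := by
    rw [div_le_iff₀ hσ] at hL
    norm_num at hL
    linarith
  have hG0 : 0 ≤ |G| := abs_nonneg G
  have hu0 : 0 < σ * L := by linarith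
  have hLpos : 0 < L := by
    by_contra h
    have : σ * L ≤ 0 := mul_nonpos_of_nonneg_of_nonpos hσ.le (not_lt.1 h)
    linarith
  obtain ⟨t, ht⟩ : ∃ t : ℝ, t = 1 / 10 ^ 11 * (σ * L) := ⟨_, rfl⟩
  have e1 : (1 : ℝ) / 10 ^ 11 * σ * L = t := by rw [ht]; ring
  have e2 : (1 - (1 : ℝ) / 10 ^ 11 * σ) * L = L - t := by rw [ht]; ring
  have ht' : 100000000000 * t = σ * L := by
    rw [ht]
    ring
  have ht0 : 0 < t := by linarith
  rw [e1] at h2 hx h4
  rw [e2] at h1
  set lam : ℝ := σ / (100 * (j + 1)) with hlam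
  have hj1 : (1 : ℝ) ≤ j := by exact_mod_cast hj
  have hlam0 : 0 < lam := by positivity
  have hlam1 : lam ≤ 1 / 200 := by
    rw [hlam, div_le_iff₀ (by positivity)]
    linarith
  have hlu : 100 * (lam * (j * L)) ≤ σ * L := by
    have h : lam * (100 * (j + 1)) = σ := by
      rw [hlam]
      field_simp
    have h' : 0 ≤ lam * L := by positivity
    calc 100 * (lam * (j * L)) ≤ 100 * (lam * (j * L)) + 100 * (lam * L) := by linarith
      _ = lam * (100 * (j + 1)) * L := by ring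
      _ = σ * L := by rw [h]
  have hx' : x ≤ (22 + 6 * t) + j * L := by linarith
  have h3 : lam * x ≤ lam * (22 + 6 * t) + lam * (j * L) := by
    rw [← mul_add]
    exact mul_le_mul_of_nonneg_left hx' hlam0.le
  have h6 : lam * (22 + 6 * t) ≤ 1 + t := by
    have h' := mul_le_mul_of_nonneg_right hlam1 (show 0 ≤ 22 + 6 * t by positivity)
    linarith
  have h5' : Φ ≤ 8000000 * (4 * (xx - x)) + 2 * (lam * x) + G := by
    have hW : W = 8000000 := rfl
    rw [hW] at h5
    linarith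
  exact stepS_lin ha hb (le_abs_self G) hG0 ht' h1 h2 h3 h6 hlu h4 h5' h7 hu

theorem stepS : ∃ c : ℝ, 0 < c ∧ c ≤ 1 ∧ ∀ (σ : ℝ) (j : ℕ), 0 < σ → σ ≤ 1 → 1 ≤ j →
    ∃ C : ℝ, 1 ≤ C ∧ ∀ (ps : List ℕ) (D : Finset ℕ) (P Q : ℕ → ℝ), (∀ q ∈ ps, q.Prime) →
      ps.Nodup → D.Nonempty → (∀ y ∈ D, 0 < y) → Good ps D P Q → ∀ S ⊆ D, S.Nonempty →
      (∀ a ∈ S, σ * Real.log D.card ≤ P a) → (D.card : ℝ) ^ (1 - c * σ) ≤ S.card →
      (En al (2 * j) S : ℝ) ≤
        C * (D.card : ℝ) ^ (-(c * σ)) * (S.card : ℝ) ^ (2 * j) * En al j S := by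
  obtain ⟨c, hc, hc1, hnum⟩ := stepS_num
  refine ⟨c, hc, hc1, fun σ j hσ hσ1 hj => ?_⟩
  obtain ⟨lam, hlam0, hlam1, hnum2⟩ := hnum σ j hσ hσ1 hj
  obtain ⟨L₀, hnum3⟩ := hnum2 (Real.log (576 / lam ^ 2) * ((Q0 (100 / lam) : ℝ) + 1))
  refine ⟨Real.exp (c * σ * max L₀ 0), ?_, ?_⟩
  · exact Real.one_le_exp (by positivity)
  intro ps D P Q hps hnd hD hpos hg S hSD hS hP hcard
  have hDp : (0 : ℝ) < D.card := by exact_mod_cast card_pos.2 hD
  have hSp : (0 : ℝ) < S.card := by exact_mod_cast card_pos.2 hS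
  have hD1 : (1 : ℝ) ≤ D.card := by exact_mod_cast card_pos.2 hD
  set L : ℝ := Real.log D.card with hLdef
  have hL : 0 ≤ L := Real.log_nonneg hD1
  have hrpow : ∀ t : ℝ, (D.card : ℝ) ^ t = Real.exp (t * L) := by
    intro t
    rw [Real.rpow_def_of_pos hDp, mul_comm]
  have hK0 : 0 ≤ c * σ * L := by positivity
  set K : ℝ := Real.exp (c * σ * L) with hK
  have hK1 : 1 ≤ K := Real.one_le_exp hK0
  have hKp : 0 < K := Real.exp_pos _
  have hneg : (D.card : ℝ) ^ (-(c * σ)) = K⁻¹ := by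
    rw [hrpow, hK, ← Real.exp_neg]
    congr 1
    ring
  have hEn0 : (0 : ℝ) ≤ En al j S := Nat.cast_nonneg _
  set C : ℝ := Real.exp (c * σ * max L₀ 0) with hC
  have hC1 : 1 ≤ C := Real.one_le_exp (by positivity)
  rw [hneg]
  have hmono : (En al (2 * j) S : ℝ) ≤ En al j S * (S.card : ℝ) ^ (2 * j) := by
    have h := En_mono (α := al) (j := j) (l := 2 * j) (by omega) S
    have h2 : 2 * (2 * j - j) = 2 * j := by omega
    rwa [h2] at h
  have hprod0 : 0 ≤ (S.card : ℝ) ^ (2 * j) * En al j S := by positivity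
  -- small sets
  rcases le_total L L₀ with hLL | hLL
  · have h1 : K ≤ C := by
      rw [hK, hC]
      refine Real.exp_le_exp.2 (mul_le_mul_of_nonneg_left (hLL.trans (le_max_left _ _)) ?_)
      positivity
    have h2 : (1 : ℝ) ≤ C * K⁻¹ := by
      rw [← div_eq_mul_inv, le_div_iff₀ hKp, one_mul]
      exact h1
    refine hmono.trans ?_
    nlinarith
  by_contra hcon
  rw [not_le] at hcon
  have hE : (En al j S : ℝ) * (S.card : ℝ) ^ (2 * j) ≤ K * En al (2 * j) S := by
    have h1 : C * (K⁻¹ * (S.card : ℝ) ^ (2 * j) * En al j S) ≤ En al (2 * j) S := by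
      calc C * (K⁻¹ * (S.card : ℝ) ^ (2 * j) * En al j S)
          = C * K⁻¹ * (S.card : ℝ) ^ (2 * j) * En al j S := by ring
        _ ≤ _ := hcon.le
    have h2 : K⁻¹ * (S.card : ℝ) ^ (2 * j) * En al j S ≤ En al (2 * j) S := by
      refine le_trans ?_ h1
      have h3 : 0 ≤ K⁻¹ * (S.card : ℝ) ^ (2 * j) * En al j S := by positivity
      nlinarith
    calc (En al j S : ℝ) * (S.card : ℝ) ^ (2 * j)
        = K * (K⁻¹ * (S.card : ℝ) ^ (2 * j) * En al j S) := by
          field_simp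
      _ ≤ _ := mul_le_mul_of_nonneg_left h2 hKp.le
  obtain ⟨X, z, hX, hSS, hXc, hXX⟩ := law_step al hj hS hK1 hE
  set S' : Finset ℕ := S.filter (fun y => z + al y ∈ X) with hS'
  have hS'p : (0 : ℝ) < S'.card := by
    by_contra h
    have h0 : (S'.card : ℝ) = 0 := le_antisymm (not_lt.1 h) (Nat.cast_nonneg _)
    rw [h0, mul_zero] at hSS
    linarith
  have hS'n : S'.Nonempty := by
    rw [← card_pos]
    exact_mod_cast hS'p
  have hS'S : S' ⊆ S := filter_subset _ _
  have hS'D : S' ⊆ D := hS'S.trans hSD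
  have hXp : (0 : ℝ) < X.card := by exact_mod_cast card_pos.2 hX
  have hX1 : (1 : ℝ) ≤ X.card := by exact_mod_cast card_pos.2 hX
  -- logarithms
  have hlogK : Real.log K = c * σ * L := Real.log_exp _
  set s : ℝ := Real.log S.card with hs
  set s' : ℝ := Real.log S'.card with hs'
  set x : ℝ := Real.log X.card with hx
  have hsL : s ≤ L := by
    rw [hs, hLdef]
    exact Real.log_le_log hSp (by exact_mod_cast card_le_card hSD)
  have h1 : (1 - c * σ) * L ≤ s := by
    have h := Real.log_le_log (Real.rpow_pos_of_pos hDp _) hcard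
    rwa [hrpow, Real.log_exp] at h
  have h2 : s ≤ Real.log 128 + 3 * (c * σ * L) + s' := by
    have h := Real.log_le_log hSp hSS
    rw [Real.log_mul (by positivity) (by positivity), Real.log_mul (by norm_num) (by positivity),
      Real.log_pow, hlogK] at h
    push_cast at h
    exact h
  have hx0 : 0 ≤ x := Real.log_nonneg hX1
  have hxle : x ≤ Real.log (2 ^ 22) + 6 * (c * σ * L) + j * L := by
    have h := Real.log_le_log hXp hXc
    rw [Real.log_mul (by positivity) (by positivity), Real.log_mul (by positivity) (by positivity),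
      Real.log_pow K, Real.log_pow (S.card : ℝ), hlogK] at h
    push_cast at h
    have h' : (j : ℝ) * s ≤ j * L := mul_le_mul_of_nonneg_left hsL (Nat.cast_nonneg j)
    linarith
  have hsX : (sset (fun g : ℤ => g) X X).card = (X + X).card := by
    congr 1
  have hXXp : (0 : ℝ) < (sset (fun g : ℤ => g) X X).card := by
    obtain ⟨y, hy⟩ := hX
    have : 0 < (sset (fun g : ℤ => g) X X).card :=
      card_pos.2 ⟨y + y, mem_sset (α := fun g : ℤ => g) hy hy⟩
    exact_mod_cast this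
  set xx : ℝ := Real.log (sset (fun g : ℤ => g) X X).card with hxx
  have h4 : xx ≤ Real.log (2 ^ 62) + 20 * (c * σ * L) + x := by
    have h : Real.log (sset (fun g : ℤ => g) X X).card ≤
        Real.log (2 ^ 62 * K ^ 20 * X.card) := by
      refine Real.log_le_log hXXp ?_
      rw [hsX]
      exact_mod_cast hXX
    rw [Real.log_mul (by positivity) (by positivity), Real.log_mul (by positivity) (by positivity),
      Real.log_pow K, hlogK] at h
    push_cast at h
    exact h
  have hI : I al X S' ≤ xx - x := by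
    have h := I_le (α := al) hX hS'n
    have h5 := stepS_sset al X z S' (fun y hy => (mem_filter.1 hy).2)
    have h6 : (0 : ℝ) < (sset al X S').card := by
      obtain ⟨y, hy⟩ := hX
      obtain ⟨y', hy'⟩ := hS'n
      have : 0 < (sset al X S').card := card_pos.2 ⟨y + al y', mem_sset (α := al) hy hy'⟩
      exact_mod_cast this
    have h7 : Real.log (sset al X S').card ≤
        Real.log (sset (fun g : ℤ => g) X X).card :=
      Real.log_le_log h6 (by exact_mod_cast h5)
    linarith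
  have hdd : dd X X ≤ 2 * (xx - x) := by
    have h := I_le (α := fun g : ℤ => g) hX hX
    unfold dd I2
    linarith
  have hpay := mainLL hlam0 hlam1 ps hps S' hS'n (fun y hy => hpos y (hS'D hy)) X X hX hX
  have hW : (0 : ℝ) < W := by unfold W; norm_num
  have hG0 : 0 ≤ Real.log (576 / lam ^ 2) := by
    apply Real.log_nonneg
    rw [le_div_iff₀ (by positivity)]
    nlinarith
  have h3 : Psi ps S' / S'.card ≤ W * (4 * (xx - x)) + 2 * lam * x +
      Real.log (576 / lam ^ 2) * ((Q0 (100 / lam) : ℝ) + 1) := by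
    have e1 : W * (I al X S' + I al X S' + dd X X) ≤ W * (4 * (xx - x)) := by
      apply mul_le_mul_of_nonneg_left _ hW.le
      linarith
    have e2 := mul_le_mul_of_nonneg_left (cnt_le hnd (Q0 (100 / lam))) hG0
    linarith
  have h5 : σ * L ≤ 5 * (Psi ps S' / S'.card) + 8 * (L - s') := by
    have hh := hg.herP S' hS'D hS'n
    have hlow : (S'.card : ℝ) * (σ * L) ≤ ∑ a ∈ S', P a := by
      have := card_nsmul_le_sum S' P (σ * L) (fun a ha => hP a (hS'S ha))
      rwa [nsmul_eq_mul] at this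
    have hlog : Real.log (D.card / S'.card) = L - s' := Real.log_div hDp.ne' hS'p.ne'
    rw [hlog] at hh
    have h6 : (S'.card : ℝ) * (σ * L) ≤
        S'.card * (5 * (Psi ps S' / S'.card) + 8 * (L - s')) := by
      refine (hlow.trans hh).trans (le_of_eq ?_)
      have h7 : (S'.card : ℝ) * (Psi ps S' / S'.card) = Psi ps S' :=
        mul_div_cancel₀ _ hS'p.ne'
      have h8 : (S'.card : ℝ) * (5 * (Psi ps S' / S'.card) + 8 * (L - s')) =
          5 * (S'.card * (Psi ps S' / S'.card)) + 8 * (S'.card * (L - s')) := by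
        ring
      rw [h8, h7]
    exact le_of_mul_le_mul_left h6 hS'p
  exact hnum3 L s s' x xx (Psi ps S' / S'.card) hLL h1 h2 hx0 hxle h4 h3 h5

end Pool.Agent.Helper94.LE
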