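import Pool.Agent.Helper94.LE.Fou

set_option autoImplicit false

/-!
MP_120218_co, theorem LE: transfer of the norm inequalities to groups with enough finite quotients,
and the groups `ℤ` and `ℕ →₀ ℤ`.
-/

open Finset

namespace Pool.Agent.Helper94.LE

private lemma trz {M : ℕ} {a : ℤ} (h : a.natAbs < M) (h0 : (a : ZMod M) = 0) : a = 0 := by
  rw [ZMod.intCast_zmod_eq_zero_iff_dvd] at h0
  have h1 : M ∣ a.natAbs := Int.natCast_dvd.mp h0
  have h2 : a.natAbs = 0 := Nat.eq_zero_of_dvd_of_lt h1 h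
  exact Int.natAbs_eq_zero.mp h2

theorem RF_int : RF ℤ := by
  intro T
  refine ⟨ZMod (1 + ∑ t ∈ T, t.natAbs), inferInstance, ?_, Int.castAddHom _, ?_⟩
  · haveI : NeZero (1 + ∑ t ∈ T, t.natAbs) := ⟨by omega⟩
    exact ZMod.fintype _
  · intro t ht h0
    refine trz (M := 1 + ∑ t ∈ T, t.natAbs) ?_ h0
    have h1 : t.natAbs ≤ ∑ t ∈ T, t.natAbs :=
      Finset.single_le_sum (f := fun t : ℤ => t.natAbs) (fun _ _ => Nat.zero_le _) ht
    omega

theorem RF_finsupp : RF (ℕ →₀ ℤ) := by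
  intro T
  obtain ⟨n, hn⟩ : ∃ n : ℕ, ∀ t ∈ T, ∀ i ∈ t.support, i < n := by
    refine ⟨T.sup (fun t => t.support.sup id) + 1, fun t ht i hi => ?_⟩
    have h1 : t.support.sup id ≤ T.sup (fun t => t.support.sup id) :=
      Finset.le_sup (f := fun t : ℕ →₀ ℤ => t.support.sup id) ht
    have h2 : id i ≤ t.support.sup id := Finset.le_sup (f := id) hi
    simp only [id] at h2
    omega
  obtain ⟨M, hM0, hM⟩ : ∃ M : ℕ, M ≠ 0 ∧ ∀ t ∈ T, ∀ i ∈ t.support, (t i).natAbs < M := by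
    refine ⟨T.sup (fun t => t.support.sup fun i => (t i).natAbs) + 1, by omega,
      fun t ht i hi => ?_⟩
    have h1 : (t.support.sup fun i => (t i).natAbs) ≤
        T.sup (fun t => t.support.sup fun i => (t i).natAbs) :=
      Finset.le_sup (f := fun t : ℕ →₀ ℤ => t.support.sup fun i => (t i).natAbs) ht
    have h2 : (t i).natAbs ≤ t.support.sup fun i => (t i).natAbs :=
      Finset.le_sup (f := fun i => (t i).natAbs) hi
    omega
  have : NeZero M := ⟨hM0⟩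
  refine ⟨Fin n → ZMod M, inferInstance, inferInstance,
    { toFun := fun t i => ((t i : ℤ) : ZMod M)
      map_zero' := by funext i; simp
      map_add' := by intro a b; funext i; simp }, ?_⟩
  intro t ht h0
  ext i
  by_contra hne
  have hi : i ∈ t.support := Finsupp.mem_support_iff.mpr hne
  have h1 : ((t i : ℤ) : ZMod M) = 0 := congrFun h0 ⟨i, hn t ht i hi⟩
  exact hne (trz (hM t ht i hi) h1)

variable {ι G : Type*} [DecidableEq ι] [AddCommGroup G] [DecidableEq G]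

/-- the differences of the sums of `k` terms -/
private def trT (α : ι → G) (k : ℕ) (S : Finset ι) : Finset G :=
  (Fintype.piFinset (fun _ : Fin k => S) ×ˢ Fintype.piFinset (fun _ : Fin k => S)).image
    (fun z => ∑ i, α (z.1 i) - ∑ i, α (z.2 i))

omit [DecidableEq ι] in
private lemma trT_mem {α : ι → G} {k : ℕ} {S : Finset ι} {x y : Fin k → ι} (hx : ∀ i, x i ∈ S)
    (hy : ∀ i, y i ∈ S) : ∑ i, α (x i) - ∑ i, α (y i) ∈ trT α k S := by
  unfold trT
  refine Finset.mem_image.mpr ⟨(x, y), ?_, rfl⟩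
  exact Finset.mem_product.mpr ⟨Fintype.mem_piFinset.mpr hx, Fintype.mem_piFinset.mpr hy⟩

private lemma tr_iff {H : Type*} [AddCommGroup H] {α : ι → G} {k : ℕ} {S : Finset ι} {ψ : G →+ H}
    (hψ : ∀ t ∈ trT α k S, ψ t = 0 → t = 0) {x y : Fin k → ι} (hx : ∀ i, x i ∈ S)
    (hy : ∀ i, y i ∈ S) :
    ∑ i, ψ (α (x i)) = ∑ i, ψ (α (y i)) ↔ ∑ i, α (x i) = ∑ i, α (y i) := by
  constructor
  · intro h
    refine sub_eq_zero.mp (hψ _ (trT_mem hx hy) ?_)
    rw [map_sub, map_sum, map_sum, h, sub_self]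
  · intro h
    rw [← map_sum, ← map_sum, h]

private lemma tr_En {H : Type*} [AddCommGroup H] [DecidableEq H] {α : ι → G} {k : ℕ}
    {S S' : Finset ι} {ψ : G →+ H} (hψ : ∀ t ∈ trT α k S, ψ t = 0 → t = 0) (hS : S' ⊆ S) :
    En (fun i => ψ (α i)) k S' = En α k S' := by
  unfold En
  congr 1
  refine Finset.filter_congr fun z hz => ?_
  obtain ⟨h1, h2⟩ := Finset.mem_product.mp hz
  exact tr_iff hψ (fun i => hS (Fintype.mem_piFinset.mp h1 i))
    (fun i => hS (Fintype.mem_piFinset.mp h2 i))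

private lemma tr_NF {H : Type*} [AddCommGroup H] [DecidableEq H] {α : ι → G} {k : ℕ}
    {S S' : Finset ι} {ψ : G →+ H} (hψ : ∀ t ∈ trT α k S, ψ t = 0 → t = 0) (hS : S' ⊆ S) :
    NF (fun i => ψ (α i)) k S' = NF α k S' := by
  unfold NF
  rw [tr_En hψ hS]

theorem tr_tri (hG : RF G) (α : ι → G) {k : ℕ} (hk : 1 ≤ k) {S₀ S₁ : Finset ι}
    (hd : Disjoint S₀ S₁) {θ η : ℝ} (hθ : 0 < θ) (hη : 0 < η) (hs : θ + η = 1) :
    NF α k (S₀ ∪ S₁) ≤ NF α k S₀ / θ + NF α k S₁ / η := by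
  classical
  obtain ⟨H, _, _, ψ, hψ⟩ := hG (trT α k (S₀ ∪ S₁))
  have h := fou_tri (fun i => ψ (α i)) hk hd hθ hη hs
  rwa [tr_NF hψ (Finset.Subset.refl _), tr_NF hψ Finset.subset_union_left,
    tr_NF hψ Finset.subset_union_right] at h

theorem tr_mart (hG : RF G) (α : ι → G) {k : ℕ} (hk : 1 ≤ k) {Sa Sb : Finset ι}
    (hd : Disjoint Sa Sb)
    (h : ∀ b ∈ Sb, ∀ x : Fin (k - 1) → ι, (∀ i, x i ∈ Sa) → ∀ y : Fin k → ι, (∀ i, y i ∈ Sa) →
      α b + ∑ i, α (x i) ≠ ∑ i, α (y i)) :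
    NF α k (Sa ∪ Sb) ≤ NF α k Sa + 14 * k ^ 2 * NF α k Sb := by
  classical
  obtain ⟨H, _, _, ψ, hψ⟩ := hG (trT α k (Sa ∪ Sb))
  have h1 := fou_mart (fun i => ψ (α i)) hk hd (by
    intro b hb x hx y hy he
    refine h b hb x hx y hy ?_
    obtain ⟨m, rfl⟩ : ∃ m, k = m + 1 := ⟨k - 1, by omega⟩
    have hc : ∀ i, (Fin.cons b x : Fin (m + 1) → ι) i ∈ Sa ∪ Sb := by
      intro i
      refine Fin.cases ?_ (fun j => ?_) i
      · rw [Fin.cons_zero]
        exact Finset.mem_union_right _ hb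
      · rw [Fin.cons_succ]
        exact Finset.mem_union_left _ (hx j)
    have h2 := (tr_iff hψ hc (fun i => Finset.mem_union_left _ (hy i))).mp (by
      rw [Fin.sum_univ_succ]
      simp only [Fin.cons_zero, Fin.cons_succ]
      exact he)
    rw [Fin.sum_univ_succ] at h2
    simp only [Fin.cons_zero, Fin.cons_succ] at h2
    exact h2)
  rwa [tr_NF hψ (Finset.Subset.refl _), tr_NF hψ Finset.subset_union_left,
    tr_NF hψ Finset.subset_union_right] at h1

end Pool.Agent.Helper94.LE
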